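import Mathlib

set_option autoImplicit false

/-! Host-Kra type cube groups: maps `Finset ℕ → G` generated by elements of a filtration
placed on upper faces. -/

namespace Pool.Agent.Lib.MP_090f02_an

open Filter Topology

variable {G : Type*} [Group G]

/-- a filtration of a group -/
structure IsFilt (F : ℕ → Subgroup G) : Prop where
  zero : F 0 = ⊤
  anti : Antitone F
  comm : ∀ i j g h, g ∈ F i → h ∈ F j → g * h * g⁻¹ * h⁻¹ ∈ F (i + j)

/-- the element `g` placed on the upper face of sets containing `K` -/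
def sg (K : Finset ℕ) (g : G) : Finset ℕ → G := fun ω => if K ⊆ ω then g else 1

theorem sg_inv (K : Finset ℕ) (g : G) : (sg K g)⁻¹ = sg K g⁻¹ := by
  funext ω
  simp only [sg, Pi.inv_apply]
  split_ifs <;> simp

theorem sg_one (K : Finset ℕ) : sg K (1 : G) = 1 := by
  funext ω
  simp [sg]

/-- the cube group with shift `s` -/
def HK (F : ℕ → Subgroup G) (s : ℕ) : Subgroup (Finset ℕ → G) :=
  Subgroup.closure {p | ∃ (K : Finset ℕ) (g : G), g ∈ F (K.card + s) ∧ p = sg K g}

theorem sg_mem {F : ℕ → Subgroup G} {s : ℕ} {K : Finset ℕ} {g : G} (h : g ∈ F (K.card + s)) :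
    sg K g ∈ HK F s :=
  Subgroup.subset_closure ⟨K, g, h, rfl⟩

theorem HK_mono {F : ℕ → Subgroup G} (hF : IsFilt F) {s t : ℕ} (h : s ≤ t) :
    HK F t ≤ HK F s := by
  unfold HK
  rw [Subgroup.closure_le]
  rintro p ⟨K, g, hg, rfl⟩
  exact sg_mem (hF.anti (by omega) hg)

theorem gen_conj {F : ℕ → Subgroup G} (hF : IsFilt F) (s : ℕ) (K : Finset ℕ) (g : G)
    (hg : g ∈ F K.card) (p : Finset ℕ → G) (hp : p ∈ HK F s) :
    sg K g * p * (sg K g)⁻¹ ∈ HK F s := by
  unfold HK at hp
  induction hp using Subgroup.closure_induction with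
  | mem x hx =>
    obtain ⟨L, h, hh, rfl⟩ := hx
    have : sg K g * sg L h * (sg K g)⁻¹ = sg (K ∪ L) (g * h * g⁻¹ * h⁻¹) * sg L h := by
      funext ω
      simp only [sg, Pi.mul_apply, Pi.inv_apply, Finset.union_subset_iff]
      by_cases h1 : K ⊆ ω <;> by_cases h2 : L ⊆ ω <;> simp [h1, h2]
    rw [this]
    apply Subgroup.mul_mem
    · apply sg_mem
      have h1 := hF.comm _ _ _ _ hg hh
      refine hF.anti ?_ h1
      have := Finset.card_union_le K L
      omega
    · exact sg_mem hh
  | one => simpa using Subgroup.one_mem _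
  | mul x y _ _ hx hy =>
    have : sg K g * (x * y) * (sg K g)⁻¹ =
      (sg K g * x * (sg K g)⁻¹) * (sg K g * y * (sg K g)⁻¹) := by group
    rw [this]
    exact Subgroup.mul_mem _ hx hy
  | inv x _ hx =>
    have : sg K g * x⁻¹ * (sg K g)⁻¹ = (sg K g * x * (sg K g)⁻¹)⁻¹ := by group
    rw [this]
    exact Subgroup.inv_mem _ hx

theorem HK_conj {F : ℕ → Subgroup G} (hF : IsFilt F) {s : ℕ} {a p : Finset ℕ → G}
    (ha : a ∈ HK F 0) (hp : p ∈ HK F s) : a * p * a⁻¹ ∈ HK F s := by
  have key : HK F 0 ≤ Subgroup.normalizer (HK F s : Set (Finset ℕ → G)) := by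
    conv_lhs => unfold HK
    rw [Subgroup.closure_le]
    rintro q ⟨K, g, hg, rfl⟩
    rw [SetLike.mem_coe, Subgroup.mem_normalizer_iff]
    intro h
    simp only [add_zero] at hg
    constructor
    · intro hh
      exact gen_conj hF s K g hg h hh
    · intro hh
      have := gen_conj hF s K g⁻¹ ((F _).inv_mem hg) _ hh
      rw [← sg_inv] at this
      have e : (sg K g)⁻¹ * (sg K g * h * (sg K g)⁻¹) * (sg K g)⁻¹⁻¹ = h := by group
      rwa [e] at this
  exact (Subgroup.mem_normalizer_iff.1 (key ha) p).1 hp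

/-- restriction to the lower face in direction `i` -/
def Dl (i : ℕ) (p : Finset ℕ → G) : Finset ℕ → G := fun ω => p (ω.erase i)

/-- restriction to the upper face in direction `i` -/
def Iu (i : ℕ) (p : Finset ℕ → G) : Finset ℕ → G := fun ω => p (insert i ω)

/-- lift -/
def Lf (i : ℕ) (p : Finset ℕ → G) : Finset ℕ → G := fun ω => if i ∈ ω then p (ω.erase i) else 1

theorem HK_deriv {F : ℕ → Subgroup G} (hF : IsFilt F) (i s : ℕ) (p : Finset ℕ → G)
    (hp : p ∈ HK F s) : Dl i p ∈ HK F s ∧ (Dl i p)⁻¹ * Iu i p ∈ HK F (s + 1) := by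
  unfold HK at hp
  induction hp using Subgroup.closure_induction with
  | mem x hx =>
    obtain ⟨K, g, hg, rfl⟩ := hx
    by_cases hi : i ∈ K
    · have h1 : Dl i (sg K g) = 1 := by
        funext ω
        simp only [Dl, sg, Pi.one_apply]
        rw [if_neg]
        intro h
        exact Finset.notMem_erase i ω (h hi)
      have h2 : Iu i (sg K g) = sg (K.erase i) g := by
        funext ω
        simp only [Iu, sg]
        congr 1
        rw [Finset.subset_insert_iff]
      rw [h1, h2]
      refine ⟨Subgroup.one_mem _, ?_⟩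
      simp only [inv_one, one_mul]
      apply sg_mem
      have : (K.erase i).card + 1 = K.card := Finset.card_erase_add_one hi
      have e : (K.erase i).card + (s + 1) = K.card + s := by omega
      rwa [e]
    · have h1 : Dl i (sg K g) = sg K g := by
        funext ω
        simp only [Dl, sg]
        congr 1
        rw [eq_iff_iff]
        constructor
        · intro h
          exact h.trans (Finset.erase_subset _ _)
        · intro h x hx
          exact Finset.mem_erase.2 ⟨fun e => hi (e ▸ hx), h hx⟩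
      have h2 : Iu i (sg K g) = sg K g := by
        funext ω
        simp only [Iu, sg]
        congr 1
        rw [Finset.subset_insert_iff, Finset.erase_eq_of_notMem hi]
      rw [h1, h2]
      refine ⟨sg_mem hg, ?_⟩
      simpa using Subgroup.one_mem _
  | one =>
    refine ⟨Subgroup.one_mem _, ?_⟩
    have : (Dl i (1 : Finset ℕ → G))⁻¹ * Iu i 1 = 1 := by
      funext ω; simp [Dl, Iu]
    rw [this]
    exact Subgroup.one_mem _
  | mul x y _ _ hx hy =>
    refine ⟨Subgroup.mul_mem _ hx.1 hy.1, ?_⟩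
    have e : (Dl i (x * y))⁻¹ * Iu i (x * y) =
        ((Dl i y)⁻¹ * ((Dl i x)⁻¹ * Iu i x) * (Dl i y)⁻¹⁻¹) * ((Dl i y)⁻¹ * Iu i y) := by
      funext ω
      simp only [Dl, Iu, Pi.mul_apply, Pi.inv_apply]
      group
    rw [e]
    exact Subgroup.mul_mem _ (HK_conj hF (Subgroup.inv_mem _ (HK_mono hF (Nat.zero_le s) hy.1))
      hx.2) hy.2
  | inv x _ hx =>
    refine ⟨Subgroup.inv_mem _ hx.1, ?_⟩
    have e : (Dl i x⁻¹)⁻¹ * Iu i x⁻¹ =
        (Dl i x) * ((Dl i x)⁻¹ * Iu i x)⁻¹ * (Dl i x)⁻¹ := by
      funext ω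
      simp only [Dl, Iu, Pi.mul_apply, Pi.inv_apply]
      group
    rw [e]
    exact HK_conj hF (HK_mono hF (Nat.zero_le s) hx.1) (Subgroup.inv_mem _ hx.2)

theorem HK_lift {F : ℕ → Subgroup G} (i s : ℕ) (p : Finset ℕ → G)
    (hp : p ∈ HK F (s + 1)) : Lf i p ∈ HK F s := by
  unfold HK at hp
  induction hp using Subgroup.closure_induction with
  | mem x hx =>
    obtain ⟨K, g, hg, rfl⟩ := hx
    by_cases hi : i ∈ K
    · have h1 : Lf i (sg K g) = 1 := by
        funext ω
        simp only [Lf, sg, Pi.one_apply]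
        split_ifs with h2 h3
        · exact absurd (h3 hi) (Finset.notMem_erase i ω)
        · rfl
        · rfl
      rw [h1]
      exact Subgroup.one_mem _
    · have h1 : Lf i (sg K g) = sg (insert i K) g := by
        funext ω
        simp only [Lf, sg]
        by_cases h2 : i ∈ ω
        · rw [if_pos h2]
          congr 1
          rw [eq_iff_iff]
          constructor
          · intro h
            exact Finset.insert_subset h2 (h.trans (Finset.erase_subset _ _))
          · intro h x hx
            exact Finset.mem_erase.2 ⟨fun e => hi (e ▸ hx), h (Finset.mem_insert_of_mem hx)⟩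
        · rw [if_neg h2, if_neg]
          intro h
          exact h2 (h (Finset.mem_insert_self _ _))
      rw [h1]
      apply sg_mem
      rw [Finset.card_insert_of_notMem hi]
      have e : K.card + 1 + s = K.card + (s + 1) := by omega
      rwa [e]
  | one =>
    have : Lf i (1 : Finset ℕ → G) = 1 := by
      funext ω; simp [Lf]
    rw [this]
    exact Subgroup.one_mem _
  | mul x y _ _ hx hy =>
    have e : Lf i (x * y) = Lf i x * Lf i y := by
      funext ω
      simp only [Lf, Pi.mul_apply]
      split_ifs <;> simp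
    rw [e]
    exact Subgroup.mul_mem _ hx hy
  | inv x _ hx =>
    have e : Lf i x⁻¹ = (Lf i x)⁻¹ := by
      funext ω
      simp only [Lf, Pi.inv_apply]
      split_ifs <;> simp
    rw [e]
    exact Subgroup.inv_mem _ hx

theorem HK_eval_empty {F : ℕ → Subgroup G} (s : ℕ) (p : Finset ℕ → G)
    (hp : p ∈ HK F s) : p ∅ ∈ F s := by
  unfold HK at hp
  induction hp using Subgroup.closure_induction with
  | mem x hx =>
    obtain ⟨K, g, hg, rfl⟩ := hx
    simp only [sg, Finset.subset_empty]
    split_ifs with h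
    · subst h
      simpa using hg
    · exact Subgroup.one_mem _
  | one => exact Subgroup.one_mem _
  | mul x y _ _ hx hy => exact Subgroup.mul_mem _ hx hy
  | inv x _ hx => exact Subgroup.inv_mem _ hx

/-- a cube whose vertices of size at most `k` are in `Γ` has all its vertices in `Γ` -/
theorem HK_uniq {F : ℕ → Subgroup G} (hF : IsFilt F) {k : ℕ} (hk : F (k + 1) = ⊥)
    (Γ : Subgroup G) (n : ℕ) : ∀ (K : Finset ℕ), K.card = n → ∀ (s : ℕ) (p : Finset ℕ → G),
    p ∈ HK F s → (∀ ω, ω ⊆ K → ω.card + s ≤ k → p ω ∈ Γ) → p K ∈ Γ := by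
  induction n with
  | zero =>
    intro K hK s p hp h
    rw [Finset.card_eq_zero] at hK
    subst hK
    by_cases hs : s ≤ k
    · exact h ∅ (Finset.Subset.refl _) (by simpa using hs)
    · have h1 := HK_eval_empty s p hp
      have h2 : F s ≤ F (k + 1) := hF.anti (by omega)
      have h3 := h2 h1
      rw [hk, Subgroup.mem_bot] at h3
      rw [h3]
      exact Subgroup.one_mem _
  | succ n ih =>
    intro K hK s p hp h
    by_cases hs : K.card + s ≤ k
    · exact h K (Finset.Subset.refl _) hs
    · obtain ⟨i, hi⟩ : K.Nonempty := by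
        rw [← Finset.card_pos]; omega
      have hcard : (K.erase i).card = n := by
        have := Finset.card_erase_add_one hi
        omega
      have hsub : K.erase i ⊆ K := Finset.erase_subset _ _
      have hd := (HK_deriv hF i s p hp).2
      have h1 : p (K.erase i) ∈ Γ :=
        ih (K.erase i) hcard s p hp (fun ω hω hc => h ω (hω.trans hsub) hc)
      have h2 := ih (K.erase i) hcard (s + 1) _ hd (by
        intro ω hω hc
        have hiω : i ∉ ω := fun hh => Finset.notMem_erase i K (hω hh)
        simp only [Pi.mul_apply, Pi.inv_apply, Dl, Iu]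
        rw [Finset.erase_eq_of_notMem hiω]
        refine Γ.mul_mem (Γ.inv_mem (h ω (hω.trans hsub) (by omega))) (h _ ?_ ?_)
        · exact Finset.insert_subset hi (hω.trans hsub)
        · rw [Finset.card_insert_of_notMem hiω]; omega)
      simp only [Pi.mul_apply, Pi.inv_apply, Dl, Iu] at h2
      rw [Finset.erase_idem, Finset.insert_erase hi] at h2
      have := Γ.mul_mem h1 h2
      simpa using this

/-- a cube of dimension more than `k` whose nonempty vertices are in `Γ` has its empty vertex in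
`Γ` -/
theorem HK_uniq_empty {F : ℕ → Subgroup G} (hF : IsFilt F) {k : ℕ} (hk : F (k + 1) = ⊥)
    (Γ : Subgroup G) (n : ℕ) : ∀ (K : Finset ℕ), K.card = n → ∀ (s : ℕ) (p : Finset ℕ → G),
    p ∈ HK F s → k + 1 ≤ n + s → (∀ ω, ω ⊆ K → ω.Nonempty → p ω ∈ Γ) → p ∅ ∈ Γ := by
  induction n with
  | zero =>
    intro K hK s p hp hks h
    have h1 := HK_eval_empty s p hp
    have h2 : F s ≤ F (k + 1) := hF.anti (by omega)
    have h3 := h2 h1
    rw [hk, Subgroup.mem_bot] at h3
    rw [h3]
    exact Subgroup.one_mem _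
  | succ n ih =>
    intro K hK s p hp hks h
    obtain ⟨i, hi⟩ : K.Nonempty := by
      rw [← Finset.card_pos]; omega
    have hcard : (K.erase i).card = n := by
      have := Finset.card_erase_add_one hi
      omega
    have hsub : K.erase i ⊆ K := Finset.erase_subset _ _
    have hd := (HK_deriv hF i s p hp).2
    have h2 := ih (K.erase i) hcard (s + 1) _ hd (by omega) (by
      intro ω hω hne
      have hiω : i ∉ ω := fun hh => Finset.notMem_erase i K (hω hh)
      simp only [Pi.mul_apply, Pi.inv_apply, Dl, Iu]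
      rw [Finset.erase_eq_of_notMem hiω]
      refine Γ.mul_mem (Γ.inv_mem (h ω (hω.trans hsub) hne)) (h _ ?_ ?_)
      · exact Finset.insert_subset hi (hω.trans hsub)
      · exact Finset.insert_nonempty _ _)
    simp only [Pi.mul_apply, Pi.inv_apply, Dl, Iu] at h2
    have h3 : p (insert i ∅) ∈ Γ := h _ (by simpa using hi) (Finset.insert_nonempty _ _)
    rw [Finset.erase_empty] at h2
    have h4 := Γ.mul_mem h3 (Γ.inv_mem h2)
    simpa using h4

/-- limits of cubes are cubes, up to `Γ` -/
theorem HK_closed [TopologicalSpace G] [IsTopologicalGroup G] {F : ℕ → Subgroup G}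
    (hF : IsFilt F) (Γ : Subgroup G)
    (hR : ∀ s, ∃ K : Set G, IsCompact K ∧ K ⊆ F s ∧ ∀ x ∈ F s, ∃ κ ∈ K, ∃ γ ∈ Γ, x = κ * γ)
    {J : Type*} (𝒰 : Ultrafilter J) (m : ℕ) : ∀ (s : ℕ) (p : J → Finset ℕ → G),
    (∀ j, p j ∈ HK F s) → ∃ γ : J → Finset ℕ → G, (∀ j, γ j ∈ HK F s) ∧ (∀ j ω, γ j ω ∈ Γ) ∧
      ∃ q ∈ HK F s, ∀ ω, ω ⊆ Finset.range m →
        Tendsto (fun j => p j ω * (γ j ω)⁻¹) 𝒰 (𝓝 (q ω)) := by
  induction m with
  | zero =>
    intro s p hp
    obtain ⟨K, hKc, hKF, hK⟩ := hR s
    have h1 : ∀ j, ∃ κ ∈ K, ∃ γ ∈ Γ, p j ∅ = κ * γ := fun j =>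
      hK _ (HK_eval_empty s (p j) (hp j))
    choose κ hκ γ hγ hκγ using h1
    have hγF : ∀ j, γ j ∈ F s := by
      intro j
      have : γ j = (κ j)⁻¹ * p j ∅ := by rw [hκγ j]; group
      rw [this]
      exact (F s).mul_mem ((F s).inv_mem (hKF (hκ j))) (HK_eval_empty s (p j) (hp j))
    obtain ⟨x, hxK, hx⟩ := hKc.ultrafilter_le_nhds' (𝒰.map κ)
      (by
        rw [Ultrafilter.mem_map]
        exact Filter.mem_of_superset Filter.univ_mem (fun j _ => hκ j))
    refine ⟨fun j => sg ∅ (γ j), fun j => sg_mem (by simpa using hγF j), ?_, sg ∅ x,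
      sg_mem (by simpa using hKF hxK), ?_⟩
    · intro j ω
      simp only [sg, Finset.empty_subset, if_true]
      exact hγ j
    · intro ω hω
      simp only [Finset.range_zero, Finset.subset_empty] at hω
      subst hω
      simp only [sg, Finset.empty_subset, if_true]
      have : (fun j => p j ∅ * (γ j)⁻¹) = κ := by
        funext j
        rw [hκγ j]; group
      rw [this]
      exact hx
  | succ m ih =>
    intro s p hp
    obtain ⟨γ, hγHK, hγΓ, q, hq, hlim⟩ := ih s (fun j => Dl m (p j))
      (fun j => (HK_deriv hF m s _ (hp j)).1)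
    set p' : J → Finset ℕ → G := fun j => p j * (Dl m (γ j))⁻¹ with hp'
    have hp'HK : ∀ j, p' j ∈ HK F s := fun j =>
      Subgroup.mul_mem _ (hp j) (Subgroup.inv_mem _ (HK_deriv hF m s _ (hγHK j)).1)
    obtain ⟨l, hlHK, hlΓ, r, hr, hlim2⟩ := ih (s + 1)
      (fun j => (Dl m (p' j))⁻¹ * Iu m (p' j)) (fun j => (HK_deriv hF m s _ (hp'HK j)).2)
    refine ⟨fun j => Lf m (l j) * Dl m (γ j), fun j => Subgroup.mul_mem _ (HK_lift m s _ (hlHK j))
      (HK_deriv hF m s _ (hγHK j)).1, ?_, Dl m q * Lf m r, Subgroup.mul_mem _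
      (HK_deriv hF m s _ hq).1 (HK_lift m s _ hr), ?_⟩
    · intro j ω
      simp only [Pi.mul_apply, Lf, Dl]
      refine Γ.mul_mem ?_ (hγΓ _ _)
      split_ifs
      · exact hlΓ _ _
      · exact Γ.one_mem
    · intro ω hω
      have hsub : ω.erase m ⊆ Finset.range m := by
        intro x hx
        rw [Finset.mem_erase] at hx
        have := hω hx.2
        rw [Finset.mem_range] at this ⊢
        omega
      have hl1 := hlim (ω.erase m) hsub
      have hl2 := hlim2 (ω.erase m) hsub
      simp only [Dl, Iu, Pi.mul_apply, Pi.inv_apply, Finset.erase_idem] at hl1 hl2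
      by_cases hm : m ∈ ω
      · simp only [Lf, Dl, Pi.mul_apply, if_pos hm]
        refine (hl1.mul hl2).congr (fun j => ?_)
        have e2 : insert m (ω.erase m) = ω := Finset.insert_erase hm
        rw [e2]
        simp only [hp', Pi.mul_apply, Pi.inv_apply, Dl, Finset.erase_idem]
        group
      · simp only [Lf, Dl, Pi.mul_apply, if_neg hm, one_mul, mul_one]
        rw [Finset.erase_eq_of_notMem hm] at hl1 ⊢
        exact hl1

end Pool.Agent.Lib.MP_090f02_an
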