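import Mathlib
import Pool.Agent.Lib.MP_090f02_an.Cubes

set_option autoImplicit false

/-! Rationality of the closed lower central series with respect to a discrete cocompact
(finitely generated) subgroup. -/

namespace Pool.Agent.Lib.MP_090f02_an

open Filter Topology Pointwise

section Abstract

variable {G : Type*} [Group G]

theorem comm_comm_le (A B C N : Subgroup G) [N.Normal] (h1 : ⁅⁅B, C⁆, A⁆ ≤ N)
    (h2 : ⁅⁅C, A⁆, B⁆ ≤ N) : ⁅⁅A, B⁆, C⁆ ≤ N := by
  have key : ∀ H : Subgroup G, H ≤ N ↔ H.map (QuotientGroup.mk' N) = ⊥ := by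
    intro H
    rw [Subgroup.map_eq_bot_iff, QuotientGroup.ker_mk']
  rw [key] at h1 h2 ⊢
  rw [Subgroup.map_commutator, Subgroup.map_commutator] at h1 h2 ⊢
  exact Subgroup.commutator_commutator_eq_bot_of_rotate h1 h2

theorem lcs_comm (n : ℕ) : ∀ m : ℕ,
    ⁅(⊤ : Subgroup G).lowerCentralSeries m, (⊤ : Subgroup G).lowerCentralSeries n⁆ ≤
      (⊤ : Subgroup G).lowerCentralSeries (m + n + 1) := by
  induction n with
  | zero =>
    intro m
    simp only [Subgroup.lowerCentralSeries_zero, add_zero, Subgroup.lowerCentralSeries_succ]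
    exact le_refl _
  | succ n ih =>
    intro m
    rw [Subgroup.commutator_comm, Subgroup.lowerCentralSeries_succ]
    apply comm_comm_le
    · have h1 : ⁅(⊤ : Subgroup G), (⊤ : Subgroup G).lowerCentralSeries m⁆ =
        (⊤ : Subgroup G).lowerCentralSeries (m + 1) := by
        rw [Subgroup.commutator_comm, Subgroup.lowerCentralSeries_succ]
      rw [h1]
      refine (ih (m + 1)).trans (Subgroup.lowerCentralSeries_antitone _ (by omega))
    · refine (Subgroup.commutator_mono (ih m) (le_refl _)).trans ?_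
      rw [← Subgroup.lowerCentralSeries_succ]
      exact Subgroup.lowerCentralSeries_antitone _ (by omega)

end Abstract

section Filt

variable {G : Type*} [Group G] [TopologicalSpace G] [IsTopologicalGroup G]

variable (G) in
/-- closed lower central series, indexed so that `FF 0 = FF 1 = ⊤` -/
def FF (i : ℕ) : Subgroup G := ((⊤ : Subgroup G).lowerCentralSeries (i - 1)).topologicalClosure

theorem FF_closed (i : ℕ) : IsClosed (FF G i : Set G) := Subgroup.isClosed_topologicalClosure _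

theorem FF_zero : FF G 0 = ⊤ := by
  unfold FF
  rw [eq_top_iff]
  simp only [Nat.zero_sub, Subgroup.lowerCentralSeries_zero]
  exact Subgroup.le_topologicalClosure _

theorem FF_one : FF G 1 = ⊤ := FF_zero

instance FF_normal (i : ℕ) : (FF G i).Normal :=
  Subgroup.is_normal_topologicalClosure _

theorem FF_isFilt : IsFilt (FF G) where
  zero := FF_zero
  anti := by
    intro i j hij
    exact Subgroup.topologicalClosure_mono (Subgroup.lowerCentralSeries_antitone _ (by omega))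
  comm := by
    intro i j g h hg hh
    unfold FF at hg hh ⊢
    rw [← SetLike.mem_coe, Subgroup.topologicalClosure_coe] at hg hh ⊢
    refine map_mem_closure₂ (f := fun g h => g * h * g⁻¹ * h⁻¹) ?_ hg hh ?_
    · simp only [Function.uncurry_def]
      fun_prop
    · intro a ha b hb
      have h1 := Subgroup.commutator_mem_commutator ha hb
      have h2 := lcs_comm _ _ h1
      exact Subgroup.lowerCentralSeries_antitone _ (by omega) h2

theorem FF_bot [T1Space G] {k : ℕ} (hk : (⊤ : Subgroup G).lowerCentralSeries k = ⊥) :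
    FF G (k + 1) = ⊥ := by
  unfold FF
  rw [Nat.add_sub_cancel, hk, ← SetLike.coe_set_eq, Subgroup.coe_topologicalClosure_bot]
  simp

end Filt

section Step

variable {G : Type*} [Group G] (A B C : Subgroup G) [hCn : C.Normal]

/-- the commutator modulo `C` -/
def bt (y x : G) : G ⧸ C := QuotientGroup.mk' C (y * x * y⁻¹ * x⁻¹)

variable {A B C}

theorem central_of_mem (hBC : ∀ b ∈ B, ∀ x, b * x * b⁻¹ * x⁻¹ ∈ C) {b : G} (hb : b ∈ B)
    (z : G ⧸ C) : QuotientGroup.mk' C b * z = z * QuotientGroup.mk' C b := by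
  obtain ⟨x, rfl⟩ := QuotientGroup.mk'_surjective C z
  rw [← map_mul, ← map_mul]
  rw [← mul_inv_eq_one, ← map_inv, ← map_mul]
  have h1 : b * x * (x * b)⁻¹ = b * x * b⁻¹ * x⁻¹ := by group
  rw [h1]
  have := hBC b hb x
  rwa [← MonoidHom.mem_ker, QuotientGroup.ker_mk']

theorem bt_mul_left (hAB : ∀ y ∈ A, ∀ x, y * x * y⁻¹ * x⁻¹ ∈ B)
    (hBC : ∀ b ∈ B, ∀ x, b * x * b⁻¹ * x⁻¹ ∈ C) {y y' : G} (hy : y ∈ A) (hy' : y' ∈ A) (x : G) :
    bt C (y * y') x = bt C y x * bt C y' x := by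
  unfold bt
  have h1 : y * y' * x * (y * y')⁻¹ * x⁻¹ =
    y * (y' * x * y'⁻¹ * x⁻¹) * y⁻¹ * (y * x * y⁻¹ * x⁻¹) := by group
  rw [h1, map_mul, map_mul, map_mul]
  rw [← central_of_mem hBC (hAB y' hy' x) (QuotientGroup.mk' C y)]
  rw [mul_assoc (QuotientGroup.mk' C (y' * x * y'⁻¹ * x⁻¹)), ← map_mul, mul_inv_cancel, map_one,
    mul_one]
  exact central_of_mem hBC (hAB y' hy' x) _

theorem bt_mul_right (hAB : ∀ y ∈ A, ∀ x, y * x * y⁻¹ * x⁻¹ ∈ B)
    (hBC : ∀ b ∈ B, ∀ x, b * x * b⁻¹ * x⁻¹ ∈ C) {y : G} (hy : y ∈ A) (x x' : G) :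
    bt C y (x * x') = bt C y x * bt C y x' := by
  unfold bt
  have h1 : y * (x * x') * y⁻¹ * (x * x')⁻¹ =
    (y * x * y⁻¹ * x⁻¹) * (x * (y * x' * y⁻¹ * x'⁻¹) * x⁻¹) := by group
  rw [h1, map_mul, map_mul _ (x * _), map_mul _ x]
  rw [← central_of_mem hBC (hAB y hy x') (QuotientGroup.mk' C x)]
  rw [mul_assoc (QuotientGroup.mk' C (y * x' * y⁻¹ * x'⁻¹)), ← map_mul, mul_inv_cancel, map_one,
    mul_one]

theorem bt_of_mem (hBC : ∀ b ∈ B, ∀ x, b * x * b⁻¹ * x⁻¹ ∈ C) {b : G} (hb : b ∈ B) (x : G) :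
    bt C b x = 1 := by
  unfold bt
  rw [← MonoidHom.mem_ker, QuotientGroup.ker_mk']
  exact hBC b hb x

/-- `bt` as a homomorphism in the right variable -/
def btR (hAB : ∀ y ∈ A, ∀ x, y * x * y⁻¹ * x⁻¹ ∈ B)
    (hBC : ∀ b ∈ B, ∀ x, b * x * b⁻¹ * x⁻¹ ∈ C) {y : G} (hy : y ∈ A) : G →* G ⧸ C :=
  MonoidHom.mk' (fun x => bt C y x) (fun x x' => bt_mul_right hAB hBC hy x x')

/-- `bt` as a homomorphism in the left variable -/
def btL (hAB : ∀ y ∈ A, ∀ x, y * x * y⁻¹ * x⁻¹ ∈ B)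
    (hBC : ∀ b ∈ B, ∀ x, b * x * b⁻¹ * x⁻¹ ∈ C) (x : G) : A →* G ⧸ C :=
  MonoidHom.mk' (fun y => bt C (y : G) x) (fun y y' => bt_mul_left hAB hBC y.2 y'.2 x)

variable [TopologicalSpace G] [IsTopologicalGroup G]

/-- boundedness of a subset of `G ⧸ C` modulo `Γ ∩ B` -/
def Bd (B C Γ : Subgroup G) [C.Normal] (S : Set (G ⧸ C)) : Prop :=
  ∃ K : Set G, IsCompact K ∧ K ⊆ B ∧ ∀ s ∈ S, ∃ κ ∈ K, ∃ γ ∈ Γ, γ ∈ B ∧
    s = QuotientGroup.mk' C κ * QuotientGroup.mk' C γ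

theorem Bd_mono {Γ : Subgroup G} {S T : Set (G ⧸ C)} (h : S ⊆ T) (hT : Bd B C Γ T) :
    Bd B C Γ S := by
  obtain ⟨K, h1, h2, h3⟩ := hT
  exact ⟨K, h1, h2, fun s hs => h3 s (h hs)⟩

theorem Bd_mul (hBC : ∀ b ∈ B, ∀ x, b * x * b⁻¹ * x⁻¹ ∈ C) {Γ : Subgroup G}
    {S T : Set (G ⧸ C)} (hS : Bd B C Γ S) (hT : Bd B C Γ T) : Bd B C Γ (S * T) := by
  obtain ⟨K, h1, h2, h3⟩ := hS
  obtain ⟨L, g1, g2, g3⟩ := hT
  refine ⟨K * L, h1.mul g1, ?_, ?_⟩
  · rintro _ ⟨a, ha, b, hb, rfl⟩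
    exact B.mul_mem (h2 ha) (g2 hb)
  · rintro _ ⟨s, hs, t, ht, rfl⟩
    obtain ⟨κ, hκ, γ, hγ, hγB, e1⟩ := h3 s hs
    obtain ⟨κ', hκ', γ', hγ', hγB', e2⟩ := g3 t ht
    refine ⟨κ * κ', ⟨κ, hκ, κ', hκ', rfl⟩, γ * γ', Γ.mul_mem hγ hγ', B.mul_mem hγB hγB', ?_⟩
    simp only [e1, e2, map_mul]
    have := central_of_mem hBC hγB (QuotientGroup.mk' C κ')
    calc QuotientGroup.mk' C κ * QuotientGroup.mk' C γ *
        (QuotientGroup.mk' C κ' * QuotientGroup.mk' C γ')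
        = QuotientGroup.mk' C κ * (QuotientGroup.mk' C γ * QuotientGroup.mk' C κ') *
          QuotientGroup.mk' C γ' := by group
      _ = _ := by rw [this]; group

theorem Bd_closure (hBC : ∀ b ∈ B, ∀ x, b * x * b⁻¹ * x⁻¹ ∈ C) {Γ : Subgroup G}
    {T : Set (G ⧸ C)} (hT : T.Finite)
    (h : ∀ t ∈ T, t ∈ B.map (QuotientGroup.mk' C) ∧
      Bd B C Γ (Subgroup.zpowers t : Set (G ⧸ C))) :
    Bd B C Γ (Subgroup.closure T : Set (G ⧸ C)) := by
  induction T, hT using Set.Finite.induction_on with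
  | empty =>
    refine ⟨{1}, isCompact_singleton, by simp, ?_⟩
    intro s hs
    rw [Subgroup.closure_empty] at hs
    refine ⟨1, rfl, 1, Γ.one_mem, B.one_mem, ?_⟩
    simpa using hs
  | @insert a T _ _ ih =>
    have h1 := ih (fun t ht => h t (Set.mem_insert_of_mem _ ht))
    obtain ⟨hc, h2⟩ := h a (Set.mem_insert _ _)
    refine Bd_mono ?_ (Bd_mul hBC h2 h1)
    obtain ⟨b, hb, rfl⟩ := hc
    intro x hx
    have key : ∃ n : ℤ, ∃ y ∈ Subgroup.closure T, x = (QuotientGroup.mk' C b) ^ n * y := by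
      rw [SetLike.mem_coe] at hx
      induction hx using Subgroup.closure_induction with
      | mem x hx =>
        rcases hx with rfl | hx
        · exact ⟨1, 1, Subgroup.one_mem _, by simp⟩
        · exact ⟨0, x, Subgroup.subset_closure hx, by simp⟩
      | one => exact ⟨0, 1, Subgroup.one_mem _, by simp⟩
      | mul x y _ _ hx hy =>
        obtain ⟨n, u, hu, e1⟩ := hx
        obtain ⟨m, v, hv, e2⟩ := hy
        refine ⟨n + m, u * v, Subgroup.mul_mem _ hu hv, ?_⟩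
        have hcomm := central_of_mem hBC (B.zpow_mem hb m) u
        rw [map_zpow] at hcomm
        rw [e1, e2, zpow_add]
        calc (QuotientGroup.mk' C b) ^ n * u * ((QuotientGroup.mk' C b) ^ m * v)
            = (QuotientGroup.mk' C b) ^ n * (u * (QuotientGroup.mk' C b) ^ m) * v := by group
          _ = _ := by rw [← hcomm]; group
      | inv x _ hx =>
        obtain ⟨n, u, hu, e1⟩ := hx
        refine ⟨-n, u⁻¹, Subgroup.inv_mem _ hu, ?_⟩
        have hcomm := central_of_mem hBC (B.zpow_mem hb (-n)) u⁻¹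
        rw [map_zpow] at hcomm
        rw [hcomm, e1]
        group
    obtain ⟨n, y, hy, e⟩ := key
    exact ⟨(QuotientGroup.mk' C b) ^ n, Subgroup.zpow_mem _ (Subgroup.mem_zpowers _) n, y, hy,
      e.symm⟩

/-- The inductive step of the rationality theorem. -/
theorem rational_step [LocallyCompactSpace G] {Γ : Subgroup G}
    (hAB : ∀ y ∈ A, ∀ x, y * x * y⁻¹ * x⁻¹ ∈ B)
    (hBC : ∀ b ∈ B, ∀ x, b * x * b⁻¹ * x⁻¹ ∈ C) (hBA : B ≤ A)
    (hAc : IsClosed (A : Set G)) (hBc : IsClosed (B : Set G))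
    (lA : Subgroup G) (hlA : lA ≤ A) (hlB : (B : Set G) = closure ((⁅lA, (⊤ : Subgroup G)⁆ : Subgroup G) : Set G))
    (Φ : Set G) (hΦ : Φ.Finite) (hΦΓ : Subgroup.closure Φ = Γ) (Q : Set G) (hQ : IsCompact Q)
    (hQΓ : ∀ x, ∃ q ∈ Q, ∃ γ ∈ Γ, x = q * γ)
    (hR : ∃ K : Set G, IsCompact K ∧ ∀ y ∈ A, ∃ κ ∈ K, ∃ γ ∈ Γ, ∃ u ∈ B, γ ∈ A ∧ y = κ * γ * u)
    (hG : ∃ D : Set G, IsCompact D ∧ D ⊆ A ∧ ∀ y ∈ lA, ∃ d ∈ Subgroup.closure D, d⁻¹ * y ∈ B) :
    (∃ K : Set G, IsCompact K ∧ ∀ y ∈ B, ∃ κ ∈ K, ∃ γ ∈ Γ, ∃ u ∈ C, γ ∈ B ∧ y = κ * γ * u) ∧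
    (∃ D : Set G, IsCompact D ∧ D ⊆ B ∧
      ∀ y ∈ ⁅lA, (⊤ : Subgroup G)⁆, ∃ d ∈ Subgroup.closure D, d⁻¹ * y ∈ C) := by
  classical
  set π := QuotientGroup.mk' C with hπ
  have hcomm_cont : ∀ x : G, Continuous (fun y : G => y * x * y⁻¹ * x⁻¹) := fun x => by fun_prop
  have hcomm_cont' : ∀ y : G, Continuous (fun x : G => y * x * y⁻¹ * x⁻¹) := fun y => by fun_prop
  obtain ⟨K, hKc, hK⟩ := hR
  obtain ⟨D, hDc, hDA, hD⟩ := hG
  -- step 1
  have step1 : ∀ γ ∈ Γ, Bd B C Γ {z | ∃ y ∈ A, z = bt C y γ} := by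
    intro γ hγ
    refine ⟨(fun y : G => y * γ * y⁻¹ * γ⁻¹) '' (K ∩ A), ?_, ?_, ?_⟩
    · exact (hKc.inter_right hAc).image (hcomm_cont γ)
    · rintro _ ⟨κ, hκ, rfl⟩
      exact hAB κ hκ.2 γ
    · rintro z ⟨y, hy, rfl⟩
      obtain ⟨κ, hκ, l, hl, u, hu, hlA', rfl⟩ := hK y hy
      have hκA : κ ∈ A := by
        have : κ = (κ * l * u) * u⁻¹ * l⁻¹ := by group
        rw [this]
        exact A.mul_mem (A.mul_mem hy (A.inv_mem (hBA hu))) (A.inv_mem hlA')
      refine ⟨_, ⟨κ, ⟨hκ, hκA⟩, rfl⟩, l * γ * l⁻¹ * γ⁻¹, ?_, hAB l hlA' γ, ?_⟩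
      · exact Γ.mul_mem (Γ.mul_mem (Γ.mul_mem hl hγ) (Γ.inv_mem hl)) (Γ.inv_mem hγ)
      · rw [bt_mul_left hAB hBC (A.mul_mem hκA hlA') (hBA hu), bt_of_mem hBC hu, mul_one,
          bt_mul_left hAB hBC hκA hlA']
        rfl
  -- step 2
  have step2 : ∀ y ∈ A, ∀ γ ∈ Γ, Bd B C Γ (Subgroup.zpowers (bt C y γ) : Set (G ⧸ C)) := by
    intro y hy γ hγ
    refine Bd_mono ?_ (step1 γ hγ)
    rintro z ⟨n, rfl⟩
    refine ⟨y ^ n, A.zpow_mem hy n, ?_⟩
    have := map_zpow (btL hAB hBC γ) ⟨y, hy⟩ n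
    exact this.symm
  have btB : ∀ y ∈ A, ∀ x, bt C y x ∈ B.map π := fun y hy x => ⟨_, hAB y hy x, rfl⟩
  -- step 3
  have step3 : ∀ y ∈ A, Bd B C Γ {z | ∃ x, z = bt C y x} := by
    intro y hy
    have hT : (bt C y '' Φ).Finite := hΦ.image _
    have h1 : Bd B C Γ (Subgroup.closure (bt C y '' Φ) : Set (G ⧸ C)) := by
      apply Bd_closure hBC hT
      rintro _ ⟨φ, hφ, rfl⟩
      refine ⟨btB y hy φ, step2 y hy φ ?_⟩
      rw [← hΦΓ]
      exact Subgroup.subset_closure hφ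
    have h2 : Bd B C Γ {z | ∃ q ∈ Q, z = bt C y q} := by
      refine ⟨(fun x : G => y * x * y⁻¹ * x⁻¹) '' Q, hQ.image (hcomm_cont' y), ?_, ?_⟩
      · rintro _ ⟨q, hq, rfl⟩
        exact hAB y hy q
      · rintro _ ⟨q, hq, rfl⟩
        refine ⟨_, ⟨q, hq, rfl⟩, 1, Γ.one_mem, B.one_mem, ?_⟩
        rw [map_one, mul_one]
        rfl
    refine Bd_mono ?_ (Bd_mul hBC h2 h1)
    rintro z ⟨x, rfl⟩
    obtain ⟨q, hq, γ, hγ, rfl⟩ := hQΓ x
    refine ⟨bt C y q, ⟨q, hq, rfl⟩, bt C y γ, ?_, (bt_mul_right hAB hBC hy q γ).symm⟩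
    rw [← hΦΓ] at hγ
    have h3 : (btR hAB hBC hy) γ ∈ (Subgroup.closure Φ).map (btR hAB hBC hy) := ⟨γ, hγ, rfl⟩
    rw [MonoidHom.map_closure] at h3
    exact h3
  -- step 4
  have step4 : ∀ y ∈ A, ∀ x, Bd B C Γ (Subgroup.zpowers (bt C y x) : Set (G ⧸ C)) := by
    intro y hy x
    refine Bd_mono ?_ (step3 y hy)
    rintro z ⟨n, rfl⟩
    refine ⟨x ^ n, ?_⟩
    have := map_zpow (btR hAB hBC hy) x n
    exact this.symm
  -- step 5
  have step5 : ∀ c ∈ ⁅lA, (⊤ : Subgroup G)⁆, c ∈ B ∧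
      Bd B C Γ (Subgroup.zpowers (π c) : Set (G ⧸ C)) := by
    intro c hc
    rw [Subgroup.commutator_def] at hc
    induction hc using Subgroup.closure_induction with
    | mem x hx =>
      obtain ⟨y, hy, z, _, rfl⟩ := hx
      exact ⟨hAB y (hlA hy) z, step4 y (hlA hy) z⟩
    | one =>
      refine ⟨B.one_mem, ⟨{1}, isCompact_singleton, by simp, ?_⟩⟩
      intro s hs
      rw [map_one, Subgroup.zpowers_one_eq_bot] at hs
      refine ⟨1, rfl, 1, Γ.one_mem, B.one_mem, ?_⟩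
      simpa using hs
    | mul x y _ _ hx hy =>
      refine ⟨B.mul_mem hx.1 hy.1, ?_⟩
      refine Bd_mono ?_ (Bd_mul hBC hx.2 hy.2)
      rintro z ⟨n, rfl⟩
      refine ⟨(π x) ^ n, ⟨n, rfl⟩, (π y) ^ n, ⟨n, rfl⟩, ?_⟩
      have : Commute (π x) (π y) := central_of_mem hBC hx.1 _
      simp only [map_mul]
      exact (this.mul_zpow n).symm
    | inv x _ hx =>
      refine ⟨B.inv_mem hx.1, ?_⟩
      rw [map_inv, Subgroup.zpowers_inv]
      exact hx.2
  -- the compact generating set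
  set D' : Set G := (fun p : G × G => p.1 * p.2 * p.1⁻¹ * p.2⁻¹) '' (D ×ˢ (Q ∪ Φ)) with hD'
  have hD'c : IsCompact D' := by
    apply (hDc.prod (hQ.union hΦ.isCompact)).image
    fun_prop
  have hD'B : D' ⊆ B := by
    rintro _ ⟨⟨d, q⟩, ⟨hd, _⟩, rfl⟩
    exact hAB d (hDA hd) q
  have hclDA : Subgroup.closure D ≤ A := (Subgroup.closure_le _).2 hDA
  have gen1 : ∀ y ∈ lA, ∀ x ∈ Q ∪ Φ, bt C y x ∈ (Subgroup.closure D').map π := by
    intro y hy x hx
    obtain ⟨d, hd, hdy⟩ := hD y hy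
    have hdA : d ∈ A := hclDA hd
    have e : y = d * (d⁻¹ * y) := by group
    rw [e, bt_mul_left hAB hBC hdA (hBA hdy), bt_of_mem hBC hdy, mul_one]
    clear e hdy hdA
    have : ∀ d ∈ Subgroup.closure D, d ∈ A ∧ bt C d x ∈ (Subgroup.closure D').map π := by
      intro d hd
      induction hd using Subgroup.closure_induction with
      | mem z hz =>
        refine ⟨hDA hz, ⟨z * x * z⁻¹ * x⁻¹, Subgroup.subset_closure ⟨(z, x), ⟨hz, hx⟩, rfl⟩, rfl⟩⟩
      | one =>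
        refine ⟨A.one_mem, ?_⟩
        rw [bt_of_mem hBC B.one_mem]
        exact Subgroup.one_mem _
      | mul u v _ _ hu hv =>
        refine ⟨A.mul_mem hu.1 hv.1, ?_⟩
        rw [bt_mul_left hAB hBC hu.1 hv.1]
        exact Subgroup.mul_mem _ hu.2 hv.2
      | inv u _ hu =>
        refine ⟨A.inv_mem hu.1, ?_⟩
        have h1 := map_inv (btL hAB hBC x) ⟨u, hu.1⟩
        have h2 : bt C u⁻¹ x = (bt C u x)⁻¹ := h1
        rw [h2]
        exact Subgroup.inv_mem _ hu.2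
    exact (this d hd).2
  have hgenG : ∀ x : G, x ∈ Subgroup.closure (Q ∪ Φ) := by
    intro x
    obtain ⟨q, hq, γ, hγ, rfl⟩ := hQΓ x
    refine Subgroup.mul_mem _ (Subgroup.subset_closure (Or.inl hq)) ?_
    rw [← hΦΓ] at hγ
    exact Subgroup.closure_mono Set.subset_union_right hγ
  have gen2 : ∀ y ∈ lA, ∀ x, bt C y x ∈ (Subgroup.closure D').map π := by
    intro y hy x
    have hx := hgenG x
    have h3 : (btR hAB hBC (hlA hy)) x ∈
        (Subgroup.closure (Q ∪ Φ)).map (btR hAB hBC (hlA hy)) := ⟨x, hx, rfl⟩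
    rw [MonoidHom.map_closure] at h3
    have h4 : Subgroup.closure ((btR hAB hBC (hlA hy)) '' (Q ∪ Φ)) ≤
        (Subgroup.closure D').map π := by
      rw [Subgroup.closure_le]
      rintro _ ⟨z, hz, rfl⟩
      exact gen1 y hy z hz
    exact h4 h3
  have gen3 : ∀ y ∈ ⁅lA, (⊤ : Subgroup G)⁆, π y ∈ (Subgroup.closure D').map π := by
    intro y hy
    rw [Subgroup.commutator_def] at hy
    induction hy using Subgroup.closure_induction with
    | mem x hx =>
      obtain ⟨y, hy, z, _, rfl⟩ := hx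
      exact gen2 y hy z
    | one =>
      rw [map_one]
      exact Subgroup.one_mem _
    | mul x y _ _ hx hy =>
      rw [map_mul]
      exact Subgroup.mul_mem _ hx hy
    | inv x _ hx =>
      rw [map_inv]
      exact Subgroup.inv_mem _ hx
  -- covering
  obtain ⟨V, hVc, hV⟩ := exists_compact_mem_nhds (1 : G)
  set E0 : Set G := D' ∪ (V ∩ B) ∪ {1} with hE0
  have hE0c : IsCompact E0 := (hD'c.union (hVc.inter_right hBc)).union isCompact_singleton
  have hE0B : E0 ⊆ B := by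
    intro x hx
    rcases hx with (hx | hx) | hx
    · exact hD'B hx
    · exact hx.2
    · rw [Set.mem_singleton_iff.1 hx]
      exact B.one_mem
  set E : Set G := E0 ∪ E0⁻¹ with hE
  have hEc : IsCompact E := hE0c.union hE0c.inv
  have hEB : E ⊆ B := by
    intro x hx
    rcases hx with hx | hx
    · exact hE0B hx
    · have := hE0B (Set.mem_inv.1 hx)
      simpa using B.inv_mem this
  have hE1 : (1 : G) ∈ E := Or.inl (Or.inr rfl)
  have hEinv : ∀ x ∈ E, x⁻¹ ∈ E := by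
    intro x hx
    rcases hx with hx | hx
    · exact Or.inr (by simpa using hx)
    · exact Or.inl (Set.mem_inv.1 hx)
  have hVB : ∀ x ∈ V, x ∈ B → x ∈ E := fun x h1 h2 => Or.inl (Or.inl (Or.inr ⟨h1, h2⟩))
  have hdense : ∀ b ∈ B, ∃ c ∈ ⁅lA, (⊤ : Subgroup G)⁆, c⁻¹ * b ∈ interior V := by
    intro b hb
    have hb' : b ∈ closure ((⁅lA, (⊤ : Subgroup G)⁆ : Subgroup G) : Set G) := by
      rw [← hlB]; exact hb
    have hcont : ContinuousAt (fun x : G => x⁻¹ * b) b := by fun_prop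
    have hn : (fun x : G => x⁻¹ * b) ⁻¹' (interior V) ∈ 𝓝 b := by
      apply hcont
      simp only [inv_mul_cancel]
      exact interior_mem_nhds.2 hV
    obtain ⟨c, hc1, hc2⟩ := mem_closure_iff_nhds.1 hb' _ hn
    exact ⟨c, hc2, hc1⟩
  obtain ⟨t, ht⟩ := (hEc.mul hEc).elim_finite_subcover
    (fun c : (⁅lA, (⊤ : Subgroup G)⁆ : Subgroup G) => {b : G | (c : G)⁻¹ * b ∈ interior V})
    (by
      intro c
      apply isOpen_interior.preimage (f := fun b : G => (c : G)⁻¹ * b)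
      fun_prop)
    (by
      intro b hb
      obtain ⟨x, hx, y, hy, rfl⟩ := hb
      obtain ⟨c, hc, hcb⟩ := hdense (x * y) (B.mul_mem (hEB hx) (hEB hy))
      rw [Set.mem_iUnion]
      exact ⟨⟨c, hc⟩, hcb⟩)
  set T : Set (G ⧸ C) := (fun c : (⁅lA, (⊤ : Subgroup G)⁆ : Subgroup G) => π (c : G)) '' (t : Set _)
    with hT
  have hTfin : T.Finite := t.finite_toSet.image _
  have hL : Bd B C Γ (Subgroup.closure T : Set (G ⧸ C)) := by
    apply Bd_closure hBC hTfin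
    rintro _ ⟨c, _, rfl⟩
    exact ⟨⟨c, (step5 c c.2).1, rfl⟩, (step5 c c.2).2⟩
  have hLB : Subgroup.closure T ≤ B.map π := by
    rw [Subgroup.closure_le]
    rintro _ ⟨c, _, rfl⟩
    exact ⟨c, (step5 c c.2).1, rfl⟩
  have hLcentral : ∀ l ∈ Subgroup.closure T, ∀ z : G ⧸ C, l * z = z * l := by
    intro l hl z
    obtain ⟨b, hb, rfl⟩ := hLB hl
    exact central_of_mem hBC hb z
  have hEE : ∀ x ∈ E, ∀ y ∈ E, ∃ l ∈ Subgroup.closure T, ∃ e ∈ E, π (x * y) = l * π e := by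
    intro x hx y hy
    have := ht (Set.mul_mem_mul hx hy)
    rw [Set.mem_iUnion₂] at this
    obtain ⟨c, hc, hcV⟩ := this
    refine ⟨π c, Subgroup.subset_closure ⟨c, hc, rfl⟩, (c : G)⁻¹ * (x * y), ?_, ?_⟩
    · apply hVB _ (interior_subset hcV)
      exact B.mul_mem (B.inv_mem (step5 c c.2).1) (B.mul_mem (hEB hx) (hEB hy))
    · rw [← map_mul]
      congr 1
      group
  have hclE : ∀ x ∈ Subgroup.closure E, ∃ l ∈ Subgroup.closure T, ∃ e ∈ E, π x = l * π e := by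
    intro x hx
    induction hx using Subgroup.closure_induction with
    | mem x hx => exact ⟨1, Subgroup.one_mem _, x, hx, by simp⟩
    | one => exact ⟨1, Subgroup.one_mem _, 1, hE1, by simp⟩
    | mul x y _ _ hx hy =>
      obtain ⟨l, hl, e, he, h1⟩ := hx
      obtain ⟨l', hl', e', he', h2⟩ := hy
      obtain ⟨l'', hl'', e'', he'', h3⟩ := hEE e he e' he'
      refine ⟨l * l' * l'', Subgroup.mul_mem _ (Subgroup.mul_mem _ hl hl') hl'', e'', he'', ?_⟩
      rw [map_mul] at h3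
      rw [map_mul, h1, h2]
      calc l * π e * (l' * π e') = l * (π e * l') * π e' := by group
        _ = l * l' * (π e * π e') := by rw [← hLcentral l' hl']; group
        _ = _ := by rw [h3]; group
    | inv x _ hx =>
      obtain ⟨l, hl, e, he, h1⟩ := hx
      refine ⟨l⁻¹, Subgroup.inv_mem _ hl, e⁻¹, hEinv e he, ?_⟩
      rw [map_inv, h1, map_inv, mul_inv_rev, hLcentral _ (Subgroup.inv_mem _ hl)]
  have hBE : ∀ b ∈ B, ∃ x ∈ Subgroup.closure E, π b = π x := by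
    intro b hb
    obtain ⟨c, hc, hcV⟩ := hdense b hb
    obtain ⟨d, hd, hdc⟩ := gen3 c hc
    have hdE : d ∈ Subgroup.closure E :=
      Subgroup.closure_mono (fun x hx => Or.inl (Or.inl (Or.inl hx))) hd
    refine ⟨d * (c⁻¹ * b), Subgroup.mul_mem _ hdE (Subgroup.subset_closure ?_), ?_⟩
    · apply hVB _ (interior_subset hcV)
      exact B.mul_mem (B.inv_mem (step5 c hc).1) hb
    · rw [map_mul, hdc, ← map_mul]
      congr 1
      group
  refine ⟨?_, D', hD'c, hD'B, ?_⟩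
  · obtain ⟨KL, hKLc, hKLB, hKL⟩ := hL
    refine ⟨KL * E, hKLc.mul hEc, ?_⟩
    intro b hb
    obtain ⟨x, hx, hbx⟩ := hBE b hb
    obtain ⟨l, hl, e, he, hxl⟩ := hclE x hx
    obtain ⟨κ, hκ, γ, hγ, hγB, hl2⟩ := hKL l hl
    have h1 : π b = π (κ * e * γ) := by
      rw [hbx, hxl, hl2, map_mul, map_mul, mul_assoc, central_of_mem hBC hγB, ← mul_assoc]
    refine ⟨κ * e, ⟨κ, hκ, e, he, rfl⟩, γ, hγ, (κ * e * γ)⁻¹ * b, ?_, hγB, by group⟩
    have h2 : π ((κ * e * γ)⁻¹ * b) = 1 := by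
      rw [map_mul, map_inv, h1, inv_mul_cancel]
    rwa [← MonoidHom.mem_ker, hπ, QuotientGroup.ker_mk'] at h2
  · intro y hy
    obtain ⟨d, hd, hdy⟩ := gen3 y hy
    refine ⟨d, hd, ?_⟩
    have h2 : π (d⁻¹ * y) = 1 := by
      rw [map_mul, map_inv, hdy, inv_mul_cancel]
    rwa [← MonoidHom.mem_ker, hπ, QuotientGroup.ker_mk'] at h2

end Step

/-- Rationality: every term of the closed lower central series is covered by a compact subset
of it times the discrete subgroup. -/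
theorem rational {G : Type*} [Group G] [TopologicalSpace G] [IsTopologicalGroup G]
    [T2Space G] [LocallyCompactSpace G] {k : ℕ}
    (hk : (⊤ : Subgroup G).lowerCentralSeries k = ⊥) {Γ : Subgroup G}
    (Φ : Set G) (hΦ : Φ.Finite) (hΦΓ : Subgroup.closure Φ = Γ) (Q : Set G) (hQ : IsCompact Q)
    (hQΓ : ∀ x, ∃ q ∈ Q, ∃ γ ∈ Γ, x = q * γ) (s : ℕ) :
    ∃ K : Set G, IsCompact K ∧ K ⊆ FF G s ∧ ∀ x ∈ FF G s, ∃ κ ∈ K, ∃ γ ∈ Γ, x = κ * γ := by
  have main : ∀ i : ℕ,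
      (∃ K : Set G, IsCompact K ∧ ∀ y ∈ FF G (i + 1), ∃ κ ∈ K, ∃ γ ∈ Γ, ∃ u ∈ FF G (i + 2),
        γ ∈ FF G (i + 1) ∧ y = κ * γ * u) ∧
      (∃ D : Set G, IsCompact D ∧ D ⊆ FF G (i + 1) ∧
        ∀ y ∈ (⊤ : Subgroup G).lowerCentralSeries i, ∃ d ∈ Subgroup.closure D,
          d⁻¹ * y ∈ FF G (i + 2)) := by
    intro i
    induction i with
    | zero =>
      constructor
      · refine ⟨Q, hQ, fun y _ => ?_⟩
        obtain ⟨q, hq, γ, hγ, e⟩ := hQΓ y
        refine ⟨q, hq, γ, hγ, 1, Subgroup.one_mem _, ?_, by simpa using e⟩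
        rw [zero_add, FF_one]
        exact Subgroup.mem_top _
      · refine ⟨Q ∪ Φ, hQ.union hΦ.isCompact, ?_, ?_⟩
        · rw [zero_add, FF_one]
          exact fun x _ => Subgroup.mem_top _
        · intro y _
          refine ⟨y, ?_, ?_⟩
          · obtain ⟨q, hq, γ, hγ, rfl⟩ := hQΓ y
            refine Subgroup.mul_mem _ (Subgroup.subset_closure (Or.inl hq)) ?_
            rw [← hΦΓ] at hγ
            exact Subgroup.closure_mono Set.subset_union_right hγ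
          · rw [inv_mul_cancel]
            exact Subgroup.one_mem _
    | succ i ih =>
      have hstep := rational_step (A := FF G (i + 1)) (B := FF G (i + 1 + 1))
        (C := FF G (i + 1 + 2)) (Γ := Γ)
        (fun y hy x => FF_isFilt.comm (i + 1) 1 y x hy (by rw [FF_one]; exact Subgroup.mem_top _))
        (fun y hy x => FF_isFilt.comm (i + 1 + 1) 1 y x hy
          (by rw [FF_one]; exact Subgroup.mem_top _))
        (FF_isFilt.anti (by omega)) (FF_closed _) (FF_closed _)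
        ((⊤ : Subgroup G).lowerCentralSeries i)
        (by
          unfold FF
          exact Subgroup.le_topologicalClosure _)
        (by
          unfold FF
          rw [Subgroup.topologicalClosure_coe]
          rfl)
        Φ hΦ hΦΓ Q hQ hQΓ ih.1 ih.2
      exact hstep
  have hbot : FF G (k + 1) = ⊥ := FF_bot hk
  have down : ∀ n s : ℕ, s + n = k + 1 → 
      ∃ K : Set G, IsCompact K ∧ K ⊆ FF G s ∧ ∀ x ∈ FF G s, ∃ κ ∈ K, ∃ γ ∈ Γ, x = κ * γ := by
    intro n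
    induction n with
    | zero =>
      intro s hs
      rw [add_zero] at hs
      subst hs
      refine ⟨{1}, isCompact_singleton, by simp, ?_⟩
      intro x hx
      rw [hbot, Subgroup.mem_bot] at hx
      exact ⟨1, rfl, 1, Γ.one_mem, by simp [hx]⟩
    | succ n ih =>
      intro s hs
      obtain ⟨K', hK'c, hK'F, hK'⟩ := ih (s + 1) (by omega)
      have hmain : ∃ K : Set G, IsCompact K ∧ ∀ y ∈ FF G s, ∃ κ ∈ K, ∃ γ ∈ Γ, ∃ u ∈ FF G (s + 1),
        γ ∈ FF G s ∧ y = κ * γ * u := by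
        rcases Nat.eq_zero_or_pos s with h0 | h0
        · subst h0
          refine ⟨{1}, isCompact_singleton, ?_⟩
          intro y _
          refine ⟨1, rfl, 1, Γ.one_mem, y, ?_, Subgroup.one_mem _, by simp⟩
          rw [zero_add, FF_one]
          exact Subgroup.mem_top _
        · obtain ⟨i, rfl⟩ : ∃ i, s = i + 1 := ⟨s - 1, by omega⟩
          exact (main i).1
      obtain ⟨K, hKc, hK⟩ := hmain
      refine ⟨(K * K') ∩ FF G s, (hKc.mul hK'c).inter_right (FF_closed s),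
        Set.inter_subset_right, ?_⟩
      intro x hx
      obtain ⟨κ, hκ, γ, hγ, u, hu, hγF, rfl⟩ := hK x hx
      have hu' : γ * u * γ⁻¹ ∈ FF G (s + 1) := (FF_normal (s + 1)).conj_mem u hu γ
      obtain ⟨κ', hκ', γ', hγ', e⟩ := hK' _ hu'
      have hγ'F : γ' ∈ FF G (s + 1) := by
        have : γ' = κ'⁻¹ * (γ * u * γ⁻¹) := by rw [e]; group
        rw [this]
        exact Subgroup.mul_mem _ (Subgroup.inv_mem _ (hK'F hκ')) hu'
      have hx' : κ * γ * u = κ * κ' * (γ' * γ) := by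
        calc κ * γ * u = κ * (γ * u * γ⁻¹) * γ := by group
          _ = _ := by rw [e]; group
      refine ⟨κ * κ', ⟨⟨κ, hκ, κ', hκ', rfl⟩, ?_⟩, γ' * γ, Γ.mul_mem hγ' hγ, hx'⟩
      have : κ * κ' = (κ * γ * u) * (γ' * γ)⁻¹ := by rw [hx']; group
      rw [this]
      exact Subgroup.mul_mem _ hx (Subgroup.inv_mem _ (Subgroup.mul_mem _
        (FF_isFilt.anti (Nat.le_succ s) hγ'F) hγF))
  by_cases hs : s ≤ k + 1
  · exact down (k + 1 - s) s (by omega)
  · refine ⟨{1}, isCompact_singleton, by simp, ?_⟩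
    intro x hx
    have h1 : FF G s ≤ FF G (k + 1) := FF_isFilt.anti (by omega)
    have h2 := h1 hx
    rw [hbot, Subgroup.mem_bot] at h2
    exact ⟨1, rfl, 1, Γ.one_mem, by simp [h2]⟩

end Pool.Agent.Lib.MP_090f02_an
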