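import Mathlib
import Pool.Agent.Lib.MP_090f02_an.Rational

set_option autoImplicit false

/-! The recurrence theorem for nilpotent groups along Ramsey-type families. -/

namespace Pool.Agent.Lib.MP_090f02_an

open Filter Topology Pointwise

/-- Ramsey-type property of a family of finite sets of natural numbers. -/
def CombProp (k : ℕ) (𝓛 : Set (Finset ℕ)) : Prop :=
  ∀ (N : ℕ) (χ : Finset ℕ → Fin N) (m : ℕ), ∃ σ : ℕ → ℕ, Set.InjOn σ (Finset.range m : Set ℕ) ∧
    (∀ K K' : Finset ℕ, K ⊆ Finset.range m → K' ⊆ Finset.range m → K.card = K'.card →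
      K.card ≤ k → χ (K.image σ) = χ (K'.image σ)) ∧
    ∀ r, k + 1 ≤ r → r ≤ m → (Finset.range r).image σ ∈ 𝓛

theorem CombProp.finite {k : ℕ} {𝓛 : Set (Finset ℕ)} (h : CombProp k 𝓛) {C : Type*} [Finite C]
    (χ : Finset ℕ → C) (m : ℕ) : ∃ σ : ℕ → ℕ, Set.InjOn σ (Finset.range m : Set ℕ) ∧
    (∀ K K' : Finset ℕ, K ⊆ Finset.range m → K' ⊆ Finset.range m → K.card = K'.card →
      K.card ≤ k → χ (K.image σ) = χ (K'.image σ)) ∧
    ∀ r, k + 1 ≤ r → r ≤ m → (Finset.range r).image σ ∈ 𝓛 := by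
  obtain ⟨N, ⟨f⟩⟩ := Finite.exists_equiv_fin C
  obtain ⟨σ, h1, h2, h3⟩ := h N (fun K => f (χ K)) m
  exact ⟨σ, h1, fun K K' a b c d => f.injective (h2 K K' a b c d), h3⟩

section

variable {G : Type*} [Group G]

theorem orbit_mem {F : ℕ → Subgroup G} (hF1 : F 1 = ⊤) (g : G) (N : ℕ → ℕ) (d : ℕ) :
    (fun ω : Finset ℕ => g ^ (∑ i ∈ ω ∩ Finset.range d, N i)) ∈ HK F 0 := by
  induction d with
  | zero =>
    have : (fun ω : Finset ℕ => g ^ (∑ i ∈ ω ∩ Finset.range 0, N i)) = 1 := by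
      funext ω; simp
    rw [this]
    exact Subgroup.one_mem _
  | succ d ih =>
    have : (fun ω : Finset ℕ => g ^ (∑ i ∈ ω ∩ Finset.range (d + 1), N i)) =
        (fun ω : Finset ℕ => g ^ (∑ i ∈ ω ∩ Finset.range d, N i)) * sg {d} (g ^ N d) := by
      funext ω
      simp only [Pi.mul_apply, sg, Finset.singleton_subset_iff]
      by_cases h : d ∈ ω
      · rw [if_pos h, Finset.range_add_one, Finset.inter_insert_of_mem h, Finset.sum_insert
          (by simp), add_comm, pow_add]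
      · rw [if_neg h, Finset.range_add_one, Finset.inter_insert_of_notMem h, mul_one]
    rw [this]
    refine Subgroup.mul_mem _ ih (sg_mem ?_)
    rw [Finset.card_singleton, add_zero, hF1]
    exact Subgroup.mem_top _

end

theorem FS_const_ge (k : ℕ) (a : Stream' ℕ) (ha : a = Stream'.const (k + 1)) (m : ℕ)
    (hm : m ∈ Hindman.FS a) : k + 1 ≤ m := by
  induction hm with
  | head' a => subst ha; exact le_of_eq rfl
  | tail' a m _ ih => exact ih (by subst ha; rfl)
  | cons' a m _ ih =>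
    have := ih (by subst ha; rfl)
    omega

/-- Existence of disjoint blocks of prescribed sizes. -/
theorem exists_blocks (r : ℕ → ℕ) : ∃ b : ℕ → Finset ℕ, (∀ i, (b i).card = r i) ∧
    Pairwise (fun i j => Disjoint (b i) (b j)) := by
  refine ⟨fun i => Finset.Ico (∑ l ∈ Finset.range i, r l) (∑ l ∈ Finset.range (i + 1), r l),
    ?_, ?_⟩
  · intro i
    rw [Nat.card_Ico, Finset.sum_range_succ]
    omega
  · have key : ∀ i j, i < j → Disjoint
        (Finset.Ico (∑ l ∈ Finset.range i, r l) (∑ l ∈ Finset.range (i + 1), r l))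
        (Finset.Ico (∑ l ∈ Finset.range j, r l) (∑ l ∈ Finset.range (j + 1), r l)) := by
      intro i j hij
      rw [Finset.disjoint_left]
      intro x hx hx'
      rw [Finset.mem_Ico] at hx hx'
      have : ∑ l ∈ Finset.range (i + 1), r l ≤ ∑ l ∈ Finset.range j, r l :=
        Finset.sum_le_sum_of_subset (Finset.range_mono hij)
      omega
    intro i j hij
    rcases Nat.lt_or_gt_of_ne hij with h | h
    · exact key i j h
    · exact (key j i h).symm

theorem exists_enum (K : Finset ℕ) : ∃ f : ℕ → ℕ, Set.InjOn f (Finset.range K.card : Set ℕ) ∧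
    (Finset.range K.card).image f = K := by
  classical
  refine ⟨fun i => if h : i < K.card then K.orderEmbOfFin rfl ⟨i, h⟩ else 0, ?_, ?_⟩
  · intro i hi j hj hij
    rw [Finset.mem_coe, Finset.mem_range] at hi hj
    simp only [hi, hj, dif_pos] at hij
    have := (K.orderEmbOfFin rfl).injective hij
    simpa using this
  · ext x
    simp only [Finset.mem_image, Finset.mem_range]
    constructor
    · rintro ⟨i, hi, rfl⟩
      rw [dif_pos hi]
      exact Finset.orderEmbOfFin_mem _ _ _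
    · intro hx
      have : x ∈ Set.range (K.orderEmbOfFin rfl) := by
        rw [Finset.range_orderEmbOfFin]; exact hx
      obtain ⟨⟨i, hi⟩, rfl⟩ := this
      exact ⟨i, hi, by rw [dif_pos hi]⟩

theorem core_rec {G : Type*} [Group G] [TopologicalSpace G] [IsTopologicalGroup G]
    [T2Space G] [LocallyCompactSpace G] {k : ℕ}
    (hk : (⊤ : Subgroup G).lowerCentralSeries k = ⊥) (Γ : Subgroup G)
    (hΓc : IsClosed (Γ : Set G))
    (Φ : Set G) (hΦ : Φ.Finite) (hΦΓ : Subgroup.closure Φ = Γ) (Q : Set G) (hQ : IsCompact Q)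
    (hQΓ : ∀ x, ∃ q ∈ Q, ∃ γ ∈ Γ, x = q * γ)
    (𝓛 : Set (Finset ℕ)) (h𝓛 : CombProp k 𝓛) (e : ℕ → ℕ) (g : G) (W : Set G) (hW : W ∈ 𝓝 1) :
    ∃ L ∈ 𝓛, ∃ w ∈ W, ∃ γ ∈ Γ, g ^ (∑ v ∈ L, e v) = w * γ := by
  classical
  by_contra hcon
  push Not at hcon
  have : IsClosed (Γ : Set G) := hΓc
  have hR := fun s => rational (k := k) hk Φ hΦ hΦΓ Q hQ hQΓ s
  have hbot : FF G (k + 1) = ⊥ := FF_bot hk
  have hXc : CompactSpace (G ⧸ Γ) := by
    refine ⟨?_⟩
    have : (Set.univ : Set (G ⧸ Γ)) = (QuotientGroup.mk : G → G ⧸ Γ) '' Q := by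
      symm
      rw [Set.eq_univ_iff_forall]
      intro x
      obtain ⟨y, rfl⟩ := QuotientGroup.mk_surjective x
      obtain ⟨q, hq, γ, hγ, rfl⟩ := hQΓ y
      refine ⟨q, hq, ?_⟩
      rw [QuotientGroup.eq]
      simpa using hγ
    rw [this]
    exact hQ.image QuotientGroup.continuous_mk
  -- the open set
  set O : Set (G ⧸ Γ) := (QuotientGroup.mk : G → G ⧸ Γ) '' (interior W) with hO
  have hOo : IsOpen O := QuotientGroup.isOpenMap_coe _ isOpen_interior
  have h1O : ((1 : G) : G ⧸ Γ) ∈ O := ⟨1, mem_interior_iff_mem_nhds.2 hW, rfl⟩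
  have hLO : ∀ L ∈ 𝓛, ((g ^ (∑ v ∈ L, e v) : G) : G ⧸ Γ) ∉ O := by
    rintro L hL ⟨w, hw, hw2⟩
    rw [QuotientGroup.eq] at hw2
    exact hcon L hL w (interior_subset hw) _ hw2 (by group)
  -- the configurations
  have hcfg : ∀ j : Finset (Set (G ⧸ Γ)) × ℕ, ∃ σ : ℕ → ℕ,
      Set.InjOn σ (Finset.range j.2 : Set ℕ) ∧
      (∀ K K' : Finset ℕ, K ⊆ Finset.range j.2 → K' ⊆ Finset.range j.2 → K.card = K'.card →
        K.card ≤ k → ∀ A ∈ j.1, (((g ^ (∑ v ∈ K.image σ, e v) : G) : G ⧸ Γ) ∈ A ↔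
          ((g ^ (∑ v ∈ K'.image σ, e v) : G) : G ⧸ Γ) ∈ A)) ∧
      ∀ r, k + 1 ≤ r → r ≤ j.2 → (Finset.range r).image σ ∈ 𝓛 := by
    intro j
    obtain ⟨σ, h1, h2, h3⟩ := h𝓛.finite
      (fun K => {A : j.1 | ((g ^ (∑ v ∈ K, e v) : G) : G ⧸ Γ) ∈ (A : Set (G ⧸ Γ))}) j.2
    refine ⟨σ, h1, ?_, h3⟩
    intro K K' hK hK' hc hck A hA
    have := h2 K K' hK hK' hc hck
    have h4 := Set.ext_iff.1 this ⟨A, hA⟩
    exact h4
  choose σ hσinj hσcol hσ𝓛 using hcfg
  set 𝒰 : Ultrafilter (Finset (Set (G ⧸ Γ)) × ℕ) := Ultrafilter.of atTop with h𝒰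
  have h𝒰le : (𝒰 : Filter (Finset (Set (G ⧸ Γ)) × ℕ)) ≤ atTop := Ultrafilter.of_le _
  have hevA : ∀ A : Set (G ⧸ Γ), ∀ᶠ j in (𝒰 : Filter (Finset (Set (G ⧸ Γ)) × ℕ)), A ∈ j.1 := by
    intro A
    apply h𝒰le
    filter_upwards [eventually_ge_atTop (({A}, 0) : Finset (Set (G ⧸ Γ)) × ℕ)] with j hj
    exact hj.1 (Finset.mem_singleton_self A)
  have hevm : ∀ m : ℕ, ∀ᶠ j in (𝒰 : Filter (Finset (Set (G ⧸ Γ)) × ℕ)), m ≤ j.2 := by
    intro m
    apply h𝒰le
    filter_upwards [eventually_ge_atTop ((∅, m) : Finset (Set (G ⧸ Γ)) × ℕ)] with j hj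
    exact hj.2
  -- the points
  set xs : (Finset (Set (G ⧸ Γ)) × ℕ) → Finset ℕ → G ⧸ Γ := fun j K =>
    ((g ^ (∑ i ∈ K, e (σ j i)) : G) : G ⧸ Γ) with hxs
  have hsum : ∀ K : Finset ℕ, ∀ᶠ j in (𝒰 : Filter (Finset (Set (G ⧸ Γ)) × ℕ)),
      K ⊆ Finset.range j.2 ∧ ∑ v ∈ K.image (σ j), e v = ∑ i ∈ K, e (σ j i) := by
    intro K
    filter_upwards [hevm (K.sup id + 1)] with j hj
    have hKr : K ⊆ Finset.range j.2 := by
      intro x hx
      have : x ≤ K.sup id := Finset.le_sup (f := id) hx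
      rw [Finset.mem_range]
      omega
    refine ⟨hKr, ?_⟩
    rw [Finset.sum_image]
    exact (hσinj j).mono (Finset.coe_subset.2 hKr)
  -- limits of cubes
  have Lim : ∀ (b : ℕ → Finset ℕ) (d : ℕ), (Pairwise (fun i j => Disjoint (b i) (b j))) →
      ∃ q ∈ HK (FF G) 0, ∀ ω, ω ⊆ Finset.range d →
        Tendsto (fun j => xs j (ω.biUnion b)) 𝒰 (𝓝 ((q ω : G) : G ⧸ Γ)) := by
    intro b d hb
    obtain ⟨γ, -, hγΓ, q, hq, hlim⟩ := HK_closed FF_isFilt Γ hR 𝒰 d 0
      (fun j ω => g ^ (∑ i ∈ ω ∩ Finset.range d, ∑ l ∈ b i, e (σ j l)))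
      (fun j => orbit_mem FF_one g _ d)
    refine ⟨q, hq, fun ω hω => ?_⟩
    have h1 := (QuotientGroup.continuous_mk (N := Γ)).continuousAt.tendsto.comp (hlim ω hω)
    refine h1.congr (fun j => ?_)
    simp only [Function.comp, hxs]
    rw [Finset.sum_biUnion (fun i _ j _ hij => hb hij), Finset.inter_eq_left.2 hω]
    rw [QuotientGroup.eq]
    simpa using hγΓ j ω
  -- claim A
  have hA : ∃ y : ℕ → G ⧸ Γ, ∀ K : Finset ℕ, Tendsto (fun j => xs j K) 𝒰 (𝓝 (y K.card)) := by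
    have hsing : Pairwise (fun i j : ℕ => Disjoint ({i} : Finset ℕ) ({j} : Finset ℕ)) := by
      intro i j hij
      simpa using hij
    have h1 : ∀ r : ℕ, ∃ q ∈ HK (FF G) 0, ∀ ω, ω ⊆ Finset.range r →
        Tendsto (fun j => xs j ω) 𝒰 (𝓝 ((q ω : G) : G ⧸ Γ)) := by
      intro r
      obtain ⟨q, hq, h⟩ := Lim (fun i => {i}) r hsing
      refine ⟨q, hq, fun ω hω => ?_⟩
      have := h ω hω
      simpa using this
    choose q hq hqlim using h1
    refine ⟨fun r => ((q r (Finset.range r) : G) : G ⧸ Γ), ?_⟩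
    intro K
    obtain ⟨f, hf1, hf2⟩ := exists_enum K
    -- extend f to an injective block family
    set r := K.card with hr
    have hblocks : ∃ q' ∈ HK (FF G) 0, ∀ ω, ω ⊆ Finset.range r →
        Tendsto (fun j => xs j (ω.image f)) 𝒰 (𝓝 ((q' ω : G) : G ⧸ Γ)) := by
      obtain ⟨q', hq', h⟩ := Lim (fun i => if i < r then {f i} else ∅) r (by
        intro i j hij
        by_cases hi : i < r <;> by_cases hj : j < r
        · simp only [hi, hj, if_true, Finset.disjoint_singleton]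
          intro h
          exact hij (hf1 (by simpa using hi) (by simpa using hj) h)
        · simp [hj]
        · simp [hi]
        · simp [hi])
      refine ⟨q', hq', fun ω hω => ?_⟩
      have h2 := h ω hω
      have e1 : ω.biUnion (fun i => if i < r then {f i} else ∅) = ω.image f := by
        ext x
        simp only [Finset.mem_biUnion, Finset.mem_image]
        constructor
        · rintro ⟨i, hi, hx⟩
          have hir := Finset.mem_range.1 (hω hi)
          rw [if_pos hir, Finset.mem_singleton] at hx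
          exact ⟨i, hi, hx.symm⟩
        · rintro ⟨i, hi, rfl⟩
          have hir := Finset.mem_range.1 (hω hi)
          exact ⟨i, hi, by rw [if_pos hir]; simp⟩
      rw [e1] at h2
      exact h2
    obtain ⟨q', hq', hq'lim⟩ := hblocks
    have hsame : ∀ ω, ω ⊆ Finset.range r → ω.card + 0 ≤ k →
        ((q r ω : G) : G ⧸ Γ) = ((q' ω : G) : G ⧸ Γ) := by
      intro ω hω hc
      have hcard : (ω.image f).card = ω.card := by
        rw [Finset.card_image_iff]
        exact hf1.mono (Finset.coe_subset.2 hω)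
      refine tendsto_nhds_unique ?_ (hq'lim ω hω)
      -- the two families have the same limit
      have hl := hqlim r ω hω
      rw [tendsto_def] at hl ⊢
      intro A hAn
      have h2 := hl A hAn
      filter_upwards [h2, hevA A, hsum ω, hsum (ω.image f)] with j hj1 hj2 hj3 hj4
      have h5 := hσcol j ω (ω.image f) hj3.1 hj4.1 hcard.symm (by simpa using hc) A hj2
      rw [hj3.2, hj4.2] at h5
      exact h5.1 hj1
    have hfin : (q r (Finset.range r))⁻¹ * q' (Finset.range r) ∈ Γ := by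
      have := HK_uniq FF_isFilt hbot Γ r (Finset.range r) (Finset.card_range r) 0
        ((q r)⁻¹ * q') (Subgroup.mul_mem _ (Subgroup.inv_mem _ (hq r)) hq') (by
          intro ω hω hc
          simp only [Pi.mul_apply, Pi.inv_apply]
          rw [← QuotientGroup.eq]
          exact hsame ω hω hc)
      simpa using this
    have h3 := hq'lim (Finset.range r) (Finset.Subset.refl _)
    rw [hf2] at h3
    rw [← QuotientGroup.eq] at hfin
    beta_reduce
    rw [hfin]
    exact h3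
  obtain ⟨y, hy⟩ := hA
  -- y 0
  have hy0 : y 0 = ((1 : G) : G ⧸ Γ) := by
    have h1 := hy ∅
    rw [Finset.card_empty] at h1
    refine tendsto_nhds_unique h1 ?_
    have : (fun j => xs j ∅) = fun _ => ((1 : G) : G ⧸ Γ) := by
      funext j
      simp [hxs]
    rw [this]
    exact tendsto_const_nhds
  -- claim B
  have hB : ∀ (r : ℕ → ℕ) (d : ℕ), ∃ q ∈ HK (FF G) 0, ∀ ω, ω ⊆ Finset.range d →
      ((q ω : G) : G ⧸ Γ) = y (∑ i ∈ ω, r i) := by
    intro r d
    obtain ⟨b, hb1, hb2⟩ := exists_blocks r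
    obtain ⟨q, hq, h⟩ := Lim b d hb2
    refine ⟨q, hq, fun ω hω => ?_⟩
    have h1 := h ω hω
    have h2 := hy (ω.biUnion b)
    rw [Finset.card_biUnion (fun i _ j _ hij => hb2 hij)] at h2
    have h3 := tendsto_nhds_unique h1 h2
    rw [h3]
    simp only [hb1]
  -- claim D
  have hD : ∀ r, k + 1 ≤ r → y r ∉ O := by
    intro r hr
    have h1 := hy (Finset.range r)
    rw [Finset.card_range] at h1
    have h2 : ∀ᶠ j in (𝒰 : Filter (Finset (Set (G ⧸ Γ)) × ℕ)),
        xs j (Finset.range r) ∈ Oᶜ := by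
      filter_upwards [hsum (Finset.range r), hevm r] with j hj hjr
      have h3 := hLO _ (hσ𝓛 j r hr hjr)
      rw [hj.2] at h3
      exact h3
    exact hOo.isClosed_compl.mem_of_tendsto h1 h2
  -- idempotent ultrafilter
  let _ : AddSemigroup (Ultrafilter ℕ) := Ultrafilter.addSemigroup
  obtain ⟨U, hU, hUFS⟩ := Hindman.exists_idempotent_ultrafilter_le_FS (Stream'.const (k + 1))
  have hUge : ∀ᶠ r in (U : Filter ℕ), k + 1 ≤ r := by
    filter_upwards [hUFS] with r hr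
    exact FS_const_ge k _ rfl r hr
  obtain ⟨z, hz⟩ : ∃ z, Tendsto y U (𝓝 z) := ⟨_, (U.map y).le_nhds_lim⟩
  have hzO : z ∉ O := by
    have : ∀ᶠ r in (U : Filter ℕ), y r ∈ Oᶜ := by
      filter_upwards [hUge] with r hr
      exact hD r hr
    exact hOo.isClosed_compl.mem_of_tendsto hz this
  have hr : ∀ A : TopologicalSpace.OpenNhdsOf z, ∃ r : ℕ → ℕ, ∀ ω : Finset ℕ, ω.Nonempty →
      y (∑ i ∈ ω, r i) ∈ (A : Set (G ⧸ Γ)) := by
    intro A
    have h1 : y ⁻¹' (A : Set (G ⧸ Γ)) ∈ U := hz (A.isOpen.mem_nhds A.mem)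
    obtain ⟨a, ha⟩ := Hindman.exists_FS_of_large U hU _ h1
    refine ⟨fun i => a.get i, fun ω hω => ?_⟩
    exact ha (Hindman.FS.finsetSum a ω hω)
  choose r hr using hr
  have hq : ∀ A : TopologicalSpace.OpenNhdsOf z, ∃ q ∈ HK (FF G) 0, ∀ ω,
      ω ⊆ Finset.range (k + 1) → ((q ω : G) : G ⧸ Γ) = y (∑ i ∈ ω, r A i) :=
    fun A => hB (r A) (k + 1)
  choose q hqHK hqy using hq
  set 𝒱 : Ultrafilter (TopologicalSpace.OpenNhdsOf z) := Ultrafilter.of atBot with h𝒱
  have h𝒱le : (𝒱 : Filter (TopologicalSpace.OpenNhdsOf z)) ≤ atBot := Ultrafilter.of_le _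
  obtain ⟨γ, -, hγΓ, p, hp, hlim⟩ := HK_closed FF_isFilt Γ hR 𝒱 (k + 1) 0 q hqHK
  have hlim' : ∀ ω, ω ⊆ Finset.range (k + 1) →
      Tendsto (fun A => y (∑ i ∈ ω, r A i)) 𝒱 (𝓝 ((p ω : G) : G ⧸ Γ)) := by
    intro ω hω
    have h1 := (QuotientGroup.continuous_mk (N := Γ)).continuousAt.tendsto.comp (hlim ω hω)
    refine h1.congr (fun A => ?_)
    rw [← hqy A ω hω]
    simp only [Function.comp]
    rw [QuotientGroup.eq]
    simpa using hγΓ A ω
  have hpz : ∀ ω, ω ⊆ Finset.range (k + 1) → ω.Nonempty → ((p ω : G) : G ⧸ Γ) = z := by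
    intro ω hω hne
    refine tendsto_nhds_unique (hlim' ω hω) ?_
    rw [tendsto_def]
    intro A hAn
    obtain ⟨A', hA'A, hA'o, hzA'⟩ := mem_nhds_iff.1 hAn
    apply h𝒱le
    filter_upwards [eventually_le_atBot (⟨⟨A', hA'o⟩, hzA'⟩ : TopologicalSpace.OpenNhdsOf z)]
      with B hB
    exact hA'A (hB (hr B ω hne))
  have hp0 : ((p ∅ : G) : G ⧸ Γ) = y 0 := by
    refine tendsto_nhds_unique (hlim' ∅ (Finset.empty_subset _)) ?_
    simp only [Finset.sum_empty]
    exact tendsto_const_nhds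
  obtain ⟨b, rfl⟩ := QuotientGroup.mk_surjective z
  have hfin := HK_uniq_empty FF_isFilt hbot Γ (k + 1) (Finset.range (k + 1))
    (Finset.card_range _) 0 (p⁻¹ * sg ∅ b)
    (Subgroup.mul_mem _ (Subgroup.inv_mem _ hp) (sg_mem (by
      simp only [Finset.card_empty, add_zero]
      rw [FF_zero]; exact Subgroup.mem_top _))) (by omega) (by
      intro ω hω hne
      simp only [Pi.mul_apply, Pi.inv_apply, sg, Finset.empty_subset, if_true]
      rw [← QuotientGroup.eq]
      exact hpz ω hω hne)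
  simp only [Pi.mul_apply, Pi.inv_apply, sg, Finset.empty_subset, if_true] at hfin
  rw [← QuotientGroup.eq, hp0, hy0] at hfin
  rw [← hfin] at hzO
  exact hzO h1O

end Pool.Agent.Lib.MP_090f02_an
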