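import Mathlib
import Pool.Agent.Lib.MP_090f02_an.Core

set_option autoImplicit false

/-! A sparse family of finite sets of natural numbers with a Ramsey property. -/

namespace Pool.Agent.Lib.MP_090f02_an

open Filter Topology

theorem ulim {C : Type*} [Finite C] {ι : Type*} (𝒰 : Ultrafilter ι) (ψ : ι → C) :
    ∃ c, ∀ᶠ n in (𝒰 : Filter ι), ψ n = c :=
  (Ultrafilter.eventually_exists_iff).1 (Filter.Eventually.of_forall fun n => ⟨ψ n, rfl⟩)

theorem ramsey_inf {C : Type*} [Finite C] (χ : Finset ℕ → C) (m : ℕ) :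
    ∃ S : Finset ℕ, S.card = m ∧ ∀ K K' : Finset ℕ, K ⊆ S → K' ⊆ S → K.card = K'.card →
      χ K = χ K' := by
  classical
  choose lim hlim using fun ψ : ℕ → C => ulim (hyperfilter ℕ) ψ
  let φ : ℕ → Finset ℕ → C := fun d =>
    Nat.rec χ (fun _ ψ K => lim (fun n => ψ (insert n K))) d
  have hφ : ∀ d K, ∀ᶠ n in ((hyperfilter ℕ : Ultrafilter ℕ) : Filter ℕ),
      φ d (insert n K) = φ (d + 1) K := fun d K => hlim _
  have key : ∀ j, ∃ S : Finset ℕ, S.card = j ∧ ∀ K : Finset ℕ, K ⊆ S → ∀ d, d + K.card ≤ m →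
      φ d K = φ (d + K.card) ∅ := by
    intro j
    induction j with
    | zero =>
      refine ⟨∅, rfl, fun K hK d _ => ?_⟩
      rw [Finset.subset_empty.1 hK]
      rfl
    | succ j ih =>
      obtain ⟨S, hS, hS'⟩ := ih
      have h1 : ∀ᶠ n in ((hyperfilter ℕ : Ultrafilter ℕ) : Filter ℕ), n ∉ S := by
        have : ((S : Set ℕ)ᶜ) ∈ hyperfilter ℕ :=
          compl_mem_hyperfilter_of_finite S.finite_toSet
        exact this
      have h2 : ∀ᶠ n in ((hyperfilter ℕ : Ultrafilter ℕ) : Filter ℕ), ∀ K ∈ S.powerset,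
          ∀ d ∈ Finset.range (m + 1), φ d (insert n K) = φ (d + 1) K := by
        rw [Filter.eventually_all_finset]
        intro K _
        rw [Filter.eventually_all_finset]
        intro d _
        exact hφ d K
      obtain ⟨n, hn1, hn2⟩ := (h1.and h2).exists
      refine ⟨insert n S, by rw [Finset.card_insert_of_notMem hn1, hS], ?_⟩
      intro K hK d hd
      by_cases hnK : n ∈ K
      · have hK' : K.erase n ⊆ S := by
          intro x hx
          rw [Finset.mem_erase] at hx
          exact (Finset.mem_insert.1 (hK hx.2)).resolve_left hx.1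
        have hcard : (K.erase n).card + 1 = K.card := Finset.card_erase_add_one hnK
        have e1 := hn2 (K.erase n) (Finset.mem_powerset.2 hK') d (Finset.mem_range.2 (by omega))
        rw [Finset.insert_erase hnK] at e1
        rw [e1, hS' _ hK' (d + 1) (by omega)]
        congr 1
        omega
      · exact hS' K (fun x hx => (Finset.mem_insert.1 (hK hx)).resolve_left
          (fun h => hnK (h ▸ hx))) d hd
  obtain ⟨S, hS, hS'⟩ := key m
  refine ⟨S, hS, fun K K' hK hK' hc => ?_⟩
  have a1 := hS' K hK 0 (by have := Finset.card_le_card hK; omega)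
  have a2 := hS' K' hK' 0 (by have := Finset.card_le_card hK'; omega)
  have b1 : χ K = φ 0 K := rfl
  have b2 : χ K' = φ 0 K' := rfl
  rw [b1, b2, a1, a2, hc]

theorem ramsey_fin (C : Type*) [Finite C] (m : ℕ) :
    ∃ R : ℕ, ∀ χ : Finset ℕ → C, ∃ S : Finset ℕ, S ⊆ Finset.range R ∧ S.card = m ∧
      ∀ K K' : Finset ℕ, K ⊆ S → K' ⊆ S → K.card = K'.card → χ K = χ K' := by
  classical
  by_contra hcon
  push Not at hcon
  choose χ hχ using hcon
  choose lim hlim using fun K : Finset ℕ => ulim (hyperfilter ℕ) (fun R => χ R K)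
  obtain ⟨S, hS, hS'⟩ := ramsey_inf lim m
  have h1 : ∀ᶠ R in ((hyperfilter ℕ : Ultrafilter ℕ) : Filter ℕ), ∀ K ∈ S.powerset,
      χ R K = lim K := by
    rw [Filter.eventually_all_finset]
    intro K _
    exact hlim K
  have h2 : ∀ᶠ R in ((hyperfilter ℕ : Ultrafilter ℕ) : Filter ℕ), S.sup id + 1 ≤ R :=
    Nat.hyperfilter_le_atTop (eventually_ge_atTop _)
  obtain ⟨R, hR1, hR2⟩ := (h1.and h2).exists
  obtain ⟨K, K', hK, hK', hc, hne⟩ := hχ R S (by
    intro x hx
    rw [Finset.mem_range]
    have : x ≤ S.sup id := Finset.le_sup (f := id) hx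
    omega) hS
  apply hne
  rw [hR1 K (Finset.mem_powerset.2 hK), hR1 K' (Finset.mem_powerset.2 hK')]
  exact hS' K K' hK hK' hc

theorem hit {ι 𝒮 𝒞 : Type*} [Fintype ι] [Fintype 𝒮] [Fintype 𝒞] (good : 𝒞 → ι → 𝒮)
    (h : Fintype.card 𝒞 * (Fintype.card 𝒮 - 1) ^ (Fintype.card ι) <
      (Fintype.card 𝒮) ^ (Fintype.card ι)) :
    ∃ A : ι → 𝒮, ∀ c, ∃ a, A a = good c a := by
  classical
  by_contra hcon
  push Not at hcon
  have h1 : (Finset.univ : Finset (ι → 𝒮)) ⊆ (Finset.univ : Finset 𝒞).biUnion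
      (fun c => Fintype.piFinset (fun a => Finset.univ.erase (good c a))) := by
    intro A _
    obtain ⟨c, hc⟩ := hcon A
    rw [Finset.mem_biUnion]
    refine ⟨c, Finset.mem_univ _, ?_⟩
    rw [Fintype.mem_piFinset]
    intro a
    rw [Finset.mem_erase]
    exact ⟨hc a, Finset.mem_univ _⟩
  have h2 := Finset.card_le_card h1
  have h3 : ((Finset.univ : Finset 𝒞).biUnion
      (fun c => Fintype.piFinset (fun a => Finset.univ.erase (good c a)))).card ≤
      Fintype.card 𝒞 * (Fintype.card 𝒮 - 1) ^ (Fintype.card ι) := by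
    refine Finset.card_biUnion_le.trans ?_
    have : ∀ c ∈ (Finset.univ : Finset 𝒞),
        (Fintype.piFinset (fun a => Finset.univ.erase (good c a))).card =
        (Fintype.card 𝒮 - 1) ^ (Fintype.card ι) := by
      intro c _
      rw [Fintype.card_piFinset]
      simp [Finset.card_erase_of_mem, Finset.card_univ]
    rw [Finset.sum_congr rfl this, Finset.sum_const, Finset.card_univ, smul_eq_mul]
  rw [Finset.card_univ, Fintype.card_fun] at h2
  omega

theorem card_small_subsets (s : Finset ℕ) (k : ℕ) :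
    (s.powerset.filter (fun K => K.card ≤ k)).card ≤ (s.card + 1) ^ k := by
  classical
  induction k with
  | zero =>
    have : s.powerset.filter (fun K => K.card ≤ 0) = {∅} := by
      ext K
      simp only [Finset.mem_filter, Finset.mem_powerset, Finset.mem_singleton, Nat.le_zero,
        Finset.card_eq_zero]
      constructor
      · exact fun h => h.2
      · rintro rfl
        exact ⟨Finset.empty_subset _, rfl⟩
    rw [this]
    simp
  | succ k ih =>
    set S := s.powerset.filter (fun K => K.card ≤ k) with hS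
    have h1 : s.powerset.filter (fun K => K.card ≤ k + 1) ⊆
        S ∪ (s ×ˢ S).image (fun q => insert q.1 q.2) := by
      intro K hK
      rw [Finset.mem_filter, Finset.mem_powerset] at hK
      rw [Finset.mem_union]
      by_cases h : K.card ≤ k
      · left
        rw [hS, Finset.mem_filter, Finset.mem_powerset]
        exact ⟨hK.1, h⟩
      · right
        have hne : K.Nonempty := by
          rw [← Finset.card_pos]; omega
        obtain ⟨v, hv⟩ := hne
        rw [Finset.mem_image]
        refine ⟨(v, K.erase v), ?_, Finset.insert_erase hv⟩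
        rw [Finset.mem_product, hS, Finset.mem_filter, Finset.mem_powerset]
        refine ⟨hK.1 hv, (Finset.erase_subset _ _).trans hK.1, ?_⟩
        have := Finset.card_erase_add_one hv
        simp only
        omega
    refine (Finset.card_le_card h1).trans ((Finset.card_union_le _ _).trans ?_)
    have h2 : ((s ×ˢ S).image (fun q => insert q.1 q.2)).card ≤ s.card * S.card := by
      refine Finset.card_image_le.trans ?_
      rw [Finset.card_product]
    calc S.card + ((s ×ˢ S).image (fun q => insert q.1 q.2)).card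
        ≤ S.card + s.card * S.card := by omega
      _ = (s.card + 1) * S.card := by ring
      _ ≤ (s.card + 1) * (s.card + 1) ^ k := Nat.mul_le_mul_left _ ih
      _ = (s.card + 1) ^ (k + 1) := by ring

theorem exists_large (B C0 : ℕ) (hB : 1 ≤ B) : ∃ p0, ∀ p, p0 ≤ p → C0 * (B - 1) ^ p < B ^ p := by
  have hB0 : (0 : ℝ) < B := by exact_mod_cast hB
  have h1 : Tendsto (fun p : ℕ => (C0 : ℝ) * (((B - 1 : ℕ) : ℝ) / B) ^ p) atTop (𝓝 (C0 * 0)) := by
    apply Tendsto.const_mul
    apply tendsto_pow_atTop_nhds_zero_of_lt_one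
    · positivity
    · rw [div_lt_one hB0]
      exact_mod_cast (by omega : B - 1 < B)
  rw [mul_zero] at h1
  obtain ⟨p0, hp0⟩ := Filter.eventually_atTop.1 (h1.eventually (gt_mem_nhds one_pos))
  refine ⟨p0, fun p hp => ?_⟩
  have h2 := hp0 p hp
  rw [div_pow, ← mul_div_assoc, div_lt_one (by positivity)] at h2
  exact_mod_cast h2

/-- Two different polynomials of degree at most `k` over `ZMod p` agree on at most `k` points of
`range R`, `R ≤ p`. -/
theorem agree_card {p k R : ℕ} [Fact p.Prime] (hR : R ≤ p) (a b : Fin (k + 1) → ZMod p)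
    (hab : a ≠ b) :
    ((Finset.range R).filter (fun x : ℕ => (∑ i : Fin (k + 1), a i * (x : ZMod p) ^ (i : ℕ)) =
      ∑ i : Fin (k + 1), b i * (x : ZMod p) ^ (i : ℕ))).card ≤ k := by
  classical
  set Q : Polynomial (ZMod p) := ∑ i : Fin (k + 1), Polynomial.C (a i - b i) *
    Polynomial.X ^ (i : ℕ) with hQ
  have hcoeff : ∀ j : Fin (k + 1), Q.coeff (j : ℕ) = a j - b j := by
    intro j
    rw [hQ, Polynomial.finsetSum_coeff]
    simp only [Polynomial.coeff_C_mul, Polynomial.coeff_X_pow]
    rw [Finset.sum_eq_single j]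
    · simp
    · intro i _ hij
      rw [if_neg, mul_zero]
      intro h
      exact hij (Fin.ext h.symm)
    · intro h
      exact absurd (Finset.mem_univ _) h
  have hQ0 : Q ≠ 0 := by
    intro h
    apply hab
    funext j
    have := hcoeff j
    rw [h, Polynomial.coeff_zero] at this
    exact (sub_eq_zero.1 this.symm)
  have hdeg : Q.natDegree ≤ k := by
    rw [hQ]
    apply Polynomial.natDegree_sum_le_of_forall_le
    intro i _
    refine (Polynomial.natDegree_C_mul_X_pow_le _ _).trans ?_
    omega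
  have hev : ∀ x : ZMod p, Q.eval x = (∑ i : Fin (k + 1), a i * x ^ (i : ℕ)) -
      ∑ i : Fin (k + 1), b i * x ^ (i : ℕ) := by
    intro x
    rw [hQ, Polynomial.eval_finsetSum, ← Finset.sum_sub_distrib]
    apply Finset.sum_congr rfl
    intro i _
    simp [sub_mul]
  refine le_trans ?_ ((Polynomial.card_roots' Q).trans hdeg)
  refine le_trans ?_ (Multiset.toFinset_card_le _)
  refine Finset.card_le_card_of_injOn (fun x : ℕ => (x : ZMod p)) ?_ ?_
  · intro x hx
    rw [Finset.mem_coe, Finset.mem_filter] at hx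
    rw [Finset.mem_coe, Multiset.mem_toFinset, Polynomial.mem_roots hQ0, Polynomial.IsRoot.def,
      hev, hx.2, sub_self]
  · intro x hx y hy hxy
    rw [Finset.mem_coe, Finset.mem_filter, Finset.mem_range] at hx hy
    simp only at hxy
    rw [ZMod.natCast_eq_natCast_iff'] at hxy
    rwa [Nat.mod_eq_of_lt (by omega), Nat.mod_eq_of_lt (by omega)] at hxy

theorem level (k n : ℕ) : ∃ (V : ℕ) (ι : Type) (σ : ι → ℕ → ℕ),
    (∀ i, Set.InjOn (σ i) (Finset.range n : Set ℕ)) ∧ (∀ i, ∀ x < n, σ i x < V) ∧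
    (∀ i j, i ≠ j → ((Finset.range n).image (σ i) ∩ (Finset.range n).image (σ j)).card ≤ k) ∧
    ∀ χ : Finset ℕ → Fin n, ∃ i, ∀ K K' : Finset ℕ, K ⊆ Finset.range n → K' ⊆ Finset.range n →
      K.card = K'.card → K.card ≤ k → χ (K.image (σ i)) = χ (K'.image (σ i)) := by
  classical
  rcases Nat.eq_zero_or_pos n with rfl | hn
  · exact ⟨0, Empty, fun i => i.elim, fun i => i.elim, fun i => i.elim, fun i => i.elim,
      fun χ => (χ ∅).elim0⟩
  obtain ⟨R, hR⟩ := ramsey_fin (Fin n) n
  set 𝒮 := (Finset.range R).powersetCard n with h𝒮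
  have hR1 : n ≤ R := by
    obtain ⟨S, hS, hSc, _⟩ := hR (fun _ => ⟨0, hn⟩)
    have := Finset.card_le_card hS
    rwa [hSc, Finset.card_range] at this
  have hB : 1 ≤ Fintype.card 𝒮 := by
    rw [Fintype.card_coe, h𝒮, Finset.card_powersetCard, Finset.card_range]
    exact Nat.choose_pos hR1
  obtain ⟨p0, hp0⟩ := exists_large (Fintype.card 𝒮) (n ^ ((2 * R) ^ k)) hB
  obtain ⟨p, hpp, hp⟩ := Nat.exists_infinite_primes (p0 + R)
  have : Fact p.Prime := ⟨hp⟩
  have hp1 : 1 ≤ p := hp.one_lt.le
  -- enumeration of the `n`-subsets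
  have henum : ∀ S : 𝒮, ∃ s : ℕ → ℕ, Set.InjOn s (Finset.range n : Set ℕ) ∧
      (∀ x < n, s x ∈ (S : Finset ℕ)) := by
    intro S
    have hS := Finset.mem_powersetCard.1 S.2
    refine ⟨fun x => if h : x < n then (S : Finset ℕ).orderEmbOfFin hS.2 ⟨x, h⟩ else 0, ?_, ?_⟩
    · intro x hx y hy hxy
      rw [Finset.coe_range, Set.mem_Iio] at hx hy
      simp only [hx, hy, dif_pos] at hxy
      have := ((S : Finset ℕ).orderEmbOfFin hS.2).injective hxy
      simpa using this
    · intro x hx
      simp only [hx, dif_pos]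
      exact Finset.orderEmbOfFin_mem _ _ _
  choose s hsinj hsmem using henum
  have hsR : ∀ (S : 𝒮) (x : ℕ), x < n → s S x < R := by
    intro S x hx
    have hS := Finset.mem_powersetCard.1 S.2
    exact Finset.mem_range.1 (hS.1 (hsmem S x hx))
  set P : (Fin (k + 1) → ZMod p) → ℕ → ZMod p := fun a x =>
    ∑ i : Fin (k + 1), a i * (x : ZMod p) ^ (i : ℕ) with hP
  -- the point of the graph of `a` above `x`
  set pt : (Fin (k + 1) → ZMod p) → ℕ → ℕ := fun a x => x * p + (P a x).val with hpt
  have hptdiv : ∀ a x, pt a x / p = x := by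
    intro a x
    rw [hpt]
    simp only
    rw [Nat.mul_comm, Nat.mul_add_div hp1, Nat.div_eq_of_lt (ZMod.val_lt _), add_zero]
  have hptinj : ∀ a, Function.Injective (pt a) := by
    intro a x y hxy
    have := congrArg (fun z => z / p) hxy
    simpa only [hptdiv] using this
  have hptlt : ∀ a x, x < R → pt a x < R * p := by
    intro a x hx
    have h1 : (P a x).val < p := ZMod.val_lt _
    have h2 : (x + 1) * p ≤ R * p := Nat.mul_le_mul_right _ hx
    rw [hpt]
    simp only
    rw [add_mul, one_mul] at h2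
    omega
  -- colourings
  set 𝒦 := (Finset.range (R * p)).powerset.filter (fun K => K.card ≤ k) with h𝒦
  have hgood : ∀ (c : 𝒦 → Fin n) (a : Fin (k + 1) → ZMod p), ∃ S : 𝒮, ∀ K K' : Finset ℕ,
      K ⊆ Finset.range n → K' ⊆ Finset.range n → K.card = K'.card →
      ∀ (h : K.image (fun x => pt a (s S x)) ∈ 𝒦) (h' : K'.image (fun x => pt a (s S x)) ∈ 𝒦),
      c ⟨_, h⟩ = c ⟨_, h'⟩ := by
    intro c a
    obtain ⟨S, hS, hSc, hSχ⟩ := hR (fun K => if h : K.image (pt a) ∈ 𝒦 then c ⟨_, h⟩ else ⟨0, hn⟩)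
    have hSmem : S ∈ 𝒮 := Finset.mem_powersetCard.2 ⟨hS, hSc⟩
    refine ⟨⟨S, hSmem⟩, ?_⟩
    intro K K' hK hK' hcard h h'
    have him : ∀ K : Finset ℕ, (K.image (s ⟨S, hSmem⟩)).image (pt a) =
        K.image (fun x => pt a (s ⟨S, hSmem⟩ x)) := by
      intro K
      rw [Finset.image_image]
      rfl
    have hsub : ∀ K : Finset ℕ, K ⊆ Finset.range n → K.image (s ⟨S, hSmem⟩) ⊆ S := by
      intro K hK y hy
      obtain ⟨x, hx, rfl⟩ := Finset.mem_image.1 hy
      exact hsmem ⟨S, hSmem⟩ x (Finset.mem_range.1 (hK hx))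
    have hcard' : ∀ K : Finset ℕ, K ⊆ Finset.range n → (K.image (s ⟨S, hSmem⟩)).card = K.card := by
      intro K hK
      apply Finset.card_image_of_injOn
      exact (hsinj _).mono (by exact_mod_cast hK)
    have key := hSχ (K.image (s ⟨S, hSmem⟩)) (K'.image (s ⟨S, hSmem⟩)) (hsub K hK) (hsub K' hK')
      (by rw [hcard' K hK, hcard' K' hK', hcard])
    simp only [him] at key
    rw [dif_pos h, dif_pos h'] at key
    exact key
  choose good hgood using hgood
  have hcount : Fintype.card (𝒦 → Fin n) * (Fintype.card 𝒮 - 1) ^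
      (Fintype.card (Fin (k + 1) → ZMod p)) <
      (Fintype.card 𝒮) ^ (Fintype.card (Fin (k + 1) → ZMod p)) := by
    have e1 : Fintype.card (Fin (k + 1) → ZMod p) = p * p ^ k := by
      rw [Fintype.card_fun, ZMod.card, Fintype.card_fin, pow_succ, mul_comm]
    have e2 : Fintype.card (𝒦 → Fin n) ≤ (n ^ ((2 * R) ^ k)) ^ (p ^ k) := by
      rw [Fintype.card_fun, Fintype.card_fin, Fintype.card_coe, ← pow_mul, ← mul_pow]
      apply Nat.pow_le_pow_right hn
      refine (card_small_subsets _ k).trans ?_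
      apply Nat.pow_le_pow_left
      rw [Finset.card_range]
      have : 1 ≤ R * p := Nat.mul_pos (by omega) hp1
      nlinarith
    rw [e1, pow_mul, pow_mul]
    calc Fintype.card (𝒦 → Fin n) * ((Fintype.card 𝒮 - 1) ^ p) ^ p ^ k
        ≤ (n ^ ((2 * R) ^ k)) ^ (p ^ k) * ((Fintype.card 𝒮 - 1) ^ p) ^ p ^ k :=
          Nat.mul_le_mul_right _ e2
      _ = (n ^ ((2 * R) ^ k) * (Fintype.card 𝒮 - 1) ^ p) ^ p ^ k := (mul_pow _ _ _).symm
      _ < (Fintype.card 𝒮 ^ p) ^ p ^ k := by
          apply Nat.pow_lt_pow_left (hp0 p (by omega))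
          exact pow_ne_zero _ (by omega)
  obtain ⟨A, hA⟩ := hit good hcount
  refine ⟨R * p, Fin (k + 1) → ZMod p, fun a x => pt a (s (A a) x), ?_, ?_, ?_, ?_⟩
  · intro a x hx y hy hxy
    exact hsinj (A a) hx hy (hptinj a hxy)
  · intro a x hx
    exact hptlt a _ (hsR _ _ hx)
  · intro a b hab
    refine le_trans ?_ (agree_card (R := R) (by omega) a b hab)
    refine Finset.card_le_card_of_injOn (fun v => v / p) ?_ ?_
    · intro v hv
      rw [Finset.mem_coe, Finset.mem_inter, Finset.mem_image, Finset.mem_image] at hv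
      obtain ⟨⟨x, hx, hxv⟩, ⟨y, hy, hyv⟩⟩ := hv
      simp only at hxv hyv
      rw [Finset.mem_coe, Finset.mem_filter]
      have e1 : v / p = s (A a) x := by rw [← hxv, hptdiv]
      have e2 : v / p = s (A b) y := by rw [← hyv, hptdiv]
      refine ⟨?_, ?_⟩
      · simp only
        rw [e1, Finset.mem_range]
        exact hsR _ _ (Finset.mem_range.1 hx)
      · have e3 : pt a (v / p) = pt b (v / p) := by
          rw [e1, hxv, ← e1, e2, hyv]
        rw [hpt] at e3
        simp only at e3
        have e4 : (P a (v / p)).val = (P b (v / p)).val := by omega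
        exact ZMod.val_injective p e4
    · intro v hv w hw hvw
      rw [Finset.mem_coe, Finset.mem_inter, Finset.mem_image, Finset.mem_image] at hv hw
      obtain ⟨⟨x, hx, hxv⟩, _⟩ := hv
      obtain ⟨⟨y, hy, hyw⟩, _⟩ := hw
      simp only at hvw hxv hyw
      rw [← hxv, ← hyw, hptdiv, hptdiv] at hvw
      rw [← hxv, ← hyw, hvw]
  · intro χ
    obtain ⟨a, ha⟩ := hA (fun K => χ K)
    refine ⟨a, fun K K' hK hK' hcard hk => ?_⟩
    have hmem : ∀ K : Finset ℕ, K ⊆ Finset.range n → K.card ≤ k →
        K.image (fun x => pt a (s (A a) x)) ∈ 𝒦 := by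
      intro K hK hk
      rw [h𝒦, Finset.mem_filter, Finset.mem_powerset]
      refine ⟨?_, Finset.card_image_le.trans hk⟩
      intro v hv
      obtain ⟨x, hx, rfl⟩ := Finset.mem_image.1 hv
      rw [Finset.mem_range]
      exact hptlt a _ (hsR _ _ (Finset.mem_range.1 (hK hx)))
    have h1 := hmem K hK hk
    have h2 := hmem K' hK' (hcard ▸ hk)
    have := hgood (fun K => χ K) a K K' hK hK' hcard
    rw [← ha] at this
    exact this h1 h2

/-- The `(k + 1)`-element subsets of the initial segments of the lines carry enough freedom to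
prescribe arbitrary values of the sums. -/
theorem indep_of {P : Type*} (k : ℕ) (len : P → ℕ) (τ : P → ℕ → ℕ)
    (ha : ∀ p, Set.InjOn (τ p) (Finset.range (len p) : Set ℕ))
    (hb : ∀ p q, p ≠ q → ((Finset.range (len p)).image (τ p) ∩
      (Finset.range (len q)).image (τ q)).card ≤ k)
    (f : Finset ℕ → ℝ) :
    ∃ θ : Finset ℕ → ℝ, ∀ p t, k + 1 + t ≤ len p →
      ∑ T ∈ ((Finset.range (k + 1 + t)).image (τ p)).powersetCard (k + 1), θ T =
        f ((Finset.range (k + 1 + t)).image (τ p)) := by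
  classical
  set L : P × ℕ → Finset ℕ := fun j => (Finset.range (k + 1 + j.2)).image (τ j.1) with hL
  set T : P × ℕ → Finset ℕ := fun j => (insert (k + j.2) (Finset.range k)).image (τ j.1) with hT
  have hsub : ∀ j : P × ℕ, insert (k + j.2) (Finset.range k) ⊆ Finset.range (k + 1 + j.2) := by
    intro j x hx
    rw [Finset.mem_insert, Finset.mem_range] at hx
    rw [Finset.mem_range]
    omega
  have hTL : ∀ j, T j ⊆ L j := fun j => Finset.image_subset_image (hsub j)
  have hTcard : ∀ j : P × ℕ, k + 1 + j.2 ≤ len j.1 → (T j).card = k + 1 := by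
    intro j hj
    rw [hT]
    simp only
    rw [Finset.card_image_of_injOn, Finset.card_insert_of_notMem, Finset.card_range]
    · simp
    · apply (ha j.1).mono
      intro x hx
      have := hsub j (by exact_mod_cast hx)
      rw [Finset.mem_range] at this
      rw [Finset.coe_range, Set.mem_Iio]
      omega
  have hLlen : ∀ j : P × ℕ, k + 1 + j.2 ≤ len j.1 → L j ⊆ (Finset.range (len j.1)).image (τ j.1) :=
    fun j hj => Finset.image_subset_image (Finset.range_subset_range.2 hj)
  have key : ∀ j j' : P × ℕ, k + 1 + j.2 ≤ len j.1 → k + 1 + j'.2 ≤ len j'.1 → T j ⊆ L j' →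
      j.1 = j'.1 ∧ j.2 ≤ j'.2 := by
    intro j j' hj hj' hsubs
    have h1 : j.1 = j'.1 := by
      by_contra hne
      have := hb _ _ hne
      have h2 : T j ⊆ (Finset.range (len j.1)).image (τ j.1) ∩
          (Finset.range (len j'.1)).image (τ j'.1) :=
        Finset.subset_inter ((hTL j).trans (hLlen j hj)) (hsubs.trans (hLlen j' hj'))
      have h3 := Finset.card_le_card h2
      rw [hTcard j hj] at h3
      omega
    refine ⟨h1, ?_⟩
    have h2 : τ j.1 (k + j.2) ∈ L j' :=
      hsubs (Finset.mem_image_of_mem _ (Finset.mem_insert_self _ _))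
    rw [hL] at h2
    simp only at h2
    obtain ⟨x, hx, hxe⟩ := Finset.mem_image.1 h2
    rw [Finset.mem_range] at hx
    rw [← h1] at hxe hj'
    have := ha j.1 (by rw [Finset.coe_range, Set.mem_Iio]; omega)
      (by rw [Finset.coe_range, Set.mem_Iio]; omega) hxe
    omega
  set val : P × ℕ → ℝ := fun j => f (L j) - if j.2 = 0 then 0 else f (L (j.1, j.2 - 1)) with hval
  have htel : ∀ p t, ∑ s ∈ Finset.range (t + 1), val (p, s) = f (L (p, t)) := by
    intro p t
    induction t with
    | zero => simp [hval]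
    | succ t ih =>
      rw [Finset.sum_range_succ, ih]
      simp [hval]
  have hinj : Function.Injective
      (fun j : {j : P × ℕ // k + 1 + j.2 ≤ len j.1} => T j.1) := by
    intro j j' hjj
    simp only at hjj
    have h1 := key j.1 j'.1 j.2 j'.2 (hjj ▸ hTL j'.1)
    have h2 := key j'.1 j.1 j'.2 j.2 (hjj ▸ hTL j.1)
    exact Subtype.ext (Prod.ext h1.1 (le_antisymm h1.2 h2.2))
  refine ⟨Function.extend (fun j : {j : P × ℕ // k + 1 + j.2 ≤ len j.1} => T j.1)
    (fun j => val j.1) 0, ?_⟩
  intro p t hpt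
  have hsubs : (Finset.range (t + 1)).image (fun s => T (p, s)) ⊆
      (L (p, t)).powersetCard (k + 1) := by
    intro K hK
    obtain ⟨s, hs, rfl⟩ := Finset.mem_image.1 hK
    rw [Finset.mem_range] at hs
    rw [Finset.mem_powersetCard]
    refine ⟨(hTL (p, s)).trans ?_, hTcard (p, s) (by simp only; omega)⟩
    exact Finset.image_subset_image (Finset.range_subset_range.2 (by simp only; omega))
  have e1 : (Finset.range (k + 1 + t)).image (τ p) = L (p, t) := rfl
  rw [e1, ← Finset.sum_subset hsubs]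
  · rw [Finset.sum_image]
    · rw [← htel p t]
      apply Finset.sum_congr rfl
      intro s hs
      rw [Finset.mem_range] at hs
      exact hinj.extend_apply (fun j : {j : P × ℕ // k + 1 + j.2 ≤ len j.1} => val j.1) 0
        ⟨(p, s), by simp only; omega⟩
    · intro s hs s' hs' hss
      rw [Finset.mem_coe, Finset.mem_range] at hs hs'
      have := @hinj ⟨(p, s), by simp only; omega⟩ ⟨(p, s'), by simp only; omega⟩ hss
      simpa using this
  · intro K hK hKn
    rw [Function.extend_apply']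
    · rfl
    rintro ⟨⟨j, hj⟩, hjK⟩
    simp only at hjK
    apply hKn
    have h1 := key j (p, t) hj hpt (by rw [hjK]; exact (Finset.mem_powersetCard.1 hK).1)
    rw [Finset.mem_image]
    refine ⟨j.2, Finset.mem_range.2 (by have := h1.2; simp only at this; omega), ?_⟩
    rw [← hjK]
    congr 1
    exact Prod.ext h1.1.symm rfl

theorem exists_family (k W0 : ℕ) : ∃ 𝓛 : Set (Finset ℕ), CombProp k 𝓛 ∧
    (∀ L ∈ 𝓛, L.Nonempty) ∧ (∀ L ∈ 𝓛, ∀ u ∈ L, W0 ≤ u) ∧
    (∀ L ∈ 𝓛, ∀ u ∈ L, ∀ v ∈ L, u < 2 * v) ∧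
    ∀ f : Finset ℕ → ℝ, ∃ θ : Finset ℕ → ℝ, ∀ L ∈ 𝓛,
      ∑ T ∈ L.powersetCard (k + 1), θ T = f L := by
  classical
  choose V ι σ h1 h2 h3 h4 using level k
  let W : ℕ → ℕ := fun n => Nat.rec (W0 + V 0 + 1) (fun n w => 2 * w + V (n + 1)) n
  have hW0 : W 0 = W0 + V 0 + 1 := rfl
  have hWs : ∀ n, W (n + 1) = 2 * W n + V (n + 1) := fun n => rfl
  have hWV : ∀ n, V n ≤ W n := by
    intro n
    cases n with
    | zero => rw [hW0]; omega
    | succ n => rw [hWs]; omega
  have hWW0 : ∀ n, W0 + 1 ≤ W n := by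
    intro n
    induction n with
    | zero => rw [hW0]; omega
    | succ n ih => rw [hWs]; omega
  have hWlt : ∀ n m, n < m → 2 * W n ≤ W m := by
    intro n m hnm
    induction m with
    | zero => omega
    | succ m ih =>
      rw [hWs]
      rcases Nat.lt_succ_iff_lt_or_eq.1 hnm with h | rfl
      · have := ih h
        omega
      · omega
  let τ : (Σ n, ι n) → ℕ → ℕ := fun p x => W p.1 + σ p.1 p.2 x
  have hτlow : ∀ p x, W p.1 ≤ τ p x := fun p x => Nat.le_add_right _ _
  have hτhigh : ∀ (p : Σ n, ι n) (x : ℕ), x < p.1 → τ p x < 2 * W p.1 := by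
    intro p x hx
    have a1 := h2 p.1 p.2 x hx
    have a2 := hWV p.1
    change W p.1 + σ p.1 p.2 x < 2 * W p.1
    omega
  have ha : ∀ p : Σ n, ι n, Set.InjOn (τ p) (Finset.range p.1 : Set ℕ) := by
    intro p x hx y hy hxy
    exact h1 p.1 p.2 hx hy (Nat.add_left_cancel hxy)
  have hb : ∀ p q : Σ n, ι n, p ≠ q → ((Finset.range p.1).image (τ p) ∩
      (Finset.range q.1).image (τ q)).card ≤ k := by
    have hdis : ∀ p q : Σ n, ι n, p.1 < q.1 → (Finset.range p.1).image (τ p) ∩
      (Finset.range q.1).image (τ q) = ∅ := by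
      intro p q hpq
      rw [Finset.eq_empty_iff_forall_notMem]
      intro v hv
      rw [Finset.mem_inter, Finset.mem_image, Finset.mem_image] at hv
      obtain ⟨⟨x, hx, hxv⟩, ⟨y, hy, hyv⟩⟩ := hv
      have a1 := hτhigh p x (Finset.mem_range.1 hx)
      have a2 := hτlow q y
      have a3 := hWlt _ _ hpq
      omega
    intro p q hpq
    rcases lt_trichotomy p.1 q.1 with h | h | h
    · rw [hdis p q h]; simp
    · obtain ⟨n, i⟩ := p
      obtain ⟨n', i'⟩ := q
      simp only at h
      subst h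
      have hii : i ≠ i' := by
        rintro rfl
        exact hpq rfl
      have e1 : ∀ j : ι n, (Finset.range n).image (τ ⟨n, j⟩) =
          ((Finset.range n).image (σ n j)).image (fun x => W n + x) := by
        intro j
        rw [Finset.image_image]
        rfl
      simp only
      rw [e1, e1, ← Finset.image_inter _ _ (add_right_injective (W n)),
        Finset.card_image_of_injective _ (add_right_injective (W n))]
      exact h3 n i i' hii
    · rw [Finset.inter_comm, hdis q p h]; simp
  refine ⟨{L | ∃ (p : Σ n, ι n) (r : ℕ), k + 1 ≤ r ∧ r ≤ p.1 ∧ L = (Finset.range r).image (τ p)},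
    ?_, ?_, ?_, ?_, ?_⟩
  · intro N χ m
    obtain ⟨i, hi⟩ := h4 (max N m) (fun K => Fin.castLE (le_max_left N m)
      (χ (K.image (fun x => W (max N m) + x))))
    refine ⟨τ ⟨max N m, i⟩, ?_, ?_, ?_⟩
    · apply (ha ⟨max N m, i⟩).mono
      rw [Finset.coe_subset]
      exact Finset.range_subset_range.2 (le_max_right N m)
    · intro K K' hK hK' hc hk
      have hr : Finset.range m ⊆ Finset.range (max N m) :=
        Finset.range_subset_range.2 (le_max_right N m)
      have := hi K K' (hK.trans hr) (hK'.trans hr) hc hk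
      have := Fin.castLE_injective _ this
      rw [Finset.image_image, Finset.image_image] at this
      exact this
    · intro r hr hrm
      exact ⟨⟨max N m, i⟩, r, hr, hrm.trans (le_max_right N m), rfl⟩
  · rintro L ⟨p, r, hr, hrp, rfl⟩
    rw [Finset.image_nonempty, Finset.nonempty_range_iff]
    omega
  · rintro L ⟨p, r, hr, hrp, rfl⟩ u hu
    obtain ⟨x, hx, rfl⟩ := Finset.mem_image.1 hu
    have := hτlow p x
    have := hWW0 p.1
    omega
  · rintro L ⟨p, r, hr, hrp, rfl⟩ u hu v hv
    obtain ⟨x, hx, rfl⟩ := Finset.mem_image.1 hu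
    obtain ⟨y, hy, rfl⟩ := Finset.mem_image.1 hv
    have a1 := hτlow p y
    have a2 := hτhigh p x (by rw [Finset.mem_range] at hx; omega)
    omega
  · intro f
    obtain ⟨θ, hθ⟩ := indep_of k (fun p : Σ n, ι n => p.1) τ ha hb f
    refine ⟨θ, ?_⟩
    rintro L ⟨p, r, hr, hrp, rfl⟩
    obtain ⟨t, rfl⟩ := Nat.exists_eq_add_of_le hr
    exact hθ p t hrp

end Pool.Agent.Lib.MP_090f02_an
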