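import Mathlib

set_option autoImplicit false

/-! The nilpotent Lie groups `ℝ ⋉ (polynomials of degree less than d)^4`. -/

namespace Pool.Agent.Lib.MP_090f02_an

open Filter Topology ContDiff Manifold
open scoped commutatorElement

/-- Coefficients of the translate of a polynomial of degree less than `d`. -/
noncomputable def tau {d : ℕ} (t : ℝ) (a : Fin d → ℝ) : Fin d → ℝ :=
  fun i => ∑ j : Fin d, ((j : ℕ).choose (i : ℕ) : ℝ) * t ^ ((j : ℕ) - (i : ℕ)) * a j

/-- Evaluation of a polynomial of degree less than `d`. -/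
noncomputable def evp {d : ℕ} (a : Fin d → ℝ) (x : ℝ) : ℝ := ∑ j : Fin d, a j * x ^ (j : ℕ)

theorem evp_inj {d : ℕ} {a b : Fin d → ℝ} (h : ∀ x, evp a x = evp b x) : a = b := by
  classical
  set P : (Fin d → ℝ) → Polynomial ℝ := fun a => ∑ j : Fin d, Polynomial.C (a j) *
    Polynomial.X ^ (j : ℕ) with hP
  have hev : ∀ a x, (P a).eval x = evp a x := by
    intro a x
    rw [hP]
    simp only [Polynomial.eval_finsetSum, evp]
    apply Finset.sum_congr rfl
    intro j _
    simp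
  have hPab : P a = P b := by
    apply Polynomial.funext
    intro x
    rw [hev, hev, h]
  have hcoeff : ∀ (a : Fin d → ℝ) (j : Fin d), (P a).coeff (j : ℕ) = a j := by
    intro a j
    rw [hP]
    simp only [Polynomial.finsetSum_coeff, Polynomial.coeff_C_mul, Polynomial.coeff_X_pow]
    rw [Finset.sum_eq_single j]
    · simp
    · intro i _ hij
      rw [if_neg, mul_zero]
      intro h
      exact hij (Fin.ext h.symm)
    · intro h
      exact absurd (Finset.mem_univ _) h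
  funext j
  rw [← hcoeff a j, ← hcoeff b j, hPab]

theorem evp_tau {d : ℕ} (t : ℝ) (a : Fin d → ℝ) (x : ℝ) : evp (tau t a) x = evp a (x + t) := by
  simp only [evp, tau, Finset.sum_mul]
  rw [Finset.sum_comm]
  apply Finset.sum_congr rfl
  intro j _
  have h1 : ∑ i : Fin d, ((j : ℕ).choose (i : ℕ) : ℝ) * t ^ ((j : ℕ) - (i : ℕ)) * a j *
      x ^ (i : ℕ) = ∑ i ∈ Finset.range d, ((j : ℕ).choose i : ℝ) * t ^ ((j : ℕ) - i) * a j *
      x ^ i := (Finset.sum_range (fun i => ((j : ℕ).choose i : ℝ) * t ^ ((j : ℕ) - i) * a j *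
      x ^ i)).symm
  rw [h1, add_pow, Finset.mul_sum]
  have hsub : Finset.range ((j : ℕ) + 1) ⊆ Finset.range d :=
    Finset.range_subset_range.2 j.2
  rw [← Finset.sum_subset hsub]
  · apply Finset.sum_congr rfl
    intro i _
    ring
  · intro i _ hi
    rw [Finset.mem_range, not_lt] at hi
    rw [Nat.choose_eq_zero_of_lt (by omega)]
    simp

theorem tau_tau {d : ℕ} (t s : ℝ) (a : Fin d → ℝ) : tau t (tau s a) = tau (t + s) a := by
  apply evp_inj
  intro x
  rw [evp_tau, evp_tau, evp_tau]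
  congr 1
  ring

theorem tau_zero {d : ℕ} (a : Fin d → ℝ) : tau 0 a = a := by
  apply evp_inj
  intro x
  rw [evp_tau, add_zero]

theorem tau_add {d : ℕ} (t : ℝ) (a b : Fin d → ℝ) : tau t (a + b) = tau t a + tau t b := by
  funext i
  simp only [tau, Pi.add_apply, mul_add, Finset.sum_add_distrib]

theorem tau_neg {d : ℕ} (t : ℝ) (a : Fin d → ℝ) : tau t (-a) = -tau t a := by
  funext i
  simp only [tau, Pi.neg_apply, mul_neg, Finset.sum_neg_distrib]

theorem tau_sub {d : ℕ} (t : ℝ) (a b : Fin d → ℝ) : tau t (a - b) = tau t a - tau t b := by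
  rw [sub_eq_add_neg, tau_add, tau_neg, ← sub_eq_add_neg]

theorem tau_zero' {d : ℕ} (t : ℝ) : tau t (0 : Fin d → ℝ) = 0 := by
  funext i
  simp [tau]

/-- Componentwise translation. -/
noncomputable def tau4 {d : ℕ} (t : ℝ) (a : Fin 4 → Fin d → ℝ) : Fin 4 → Fin d → ℝ :=
  fun l => tau t (a l)

theorem tau4_tau4 {d : ℕ} (t s : ℝ) (a : Fin 4 → Fin d → ℝ) :
    tau4 t (tau4 s a) = tau4 (t + s) a := funext fun l => tau_tau t s (a l)

theorem tau4_zero {d : ℕ} (a : Fin 4 → Fin d → ℝ) : tau4 0 a = a := funext fun l => tau_zero (a l)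

theorem tau4_add {d : ℕ} (t : ℝ) (a b : Fin 4 → Fin d → ℝ) :
    tau4 t (a + b) = tau4 t a + tau4 t b := funext fun l => tau_add t (a l) (b l)

theorem tau4_neg {d : ℕ} (t : ℝ) (a : Fin 4 → Fin d → ℝ) : tau4 t (-a) = -tau4 t a :=
  funext fun l => tau_neg t (a l)

theorem tau4_sub {d : ℕ} (t : ℝ) (a b : Fin 4 → Fin d → ℝ) :
    tau4 t (a - b) = tau4 t a - tau4 t b := funext fun l => tau_sub t (a l) (b l)

theorem tau4_zero' {d : ℕ} (t : ℝ) : tau4 t (0 : Fin 4 → Fin d → ℝ) = 0 :=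
  funext fun _ => tau_zero' t

theorem tau4_continuous {d : ℕ} :
    Continuous (fun p : ℝ × (Fin 4 → Fin d → ℝ) => tau4 p.1 p.2) := by
  unfold tau4 tau
  fun_prop

theorem tau4_contDiff {d : ℕ} {n : ℕ∞ω} :
    ContDiff ℝ n (fun p : ℝ × (Fin 4 → Fin d → ℝ) => tau4 p.1 p.2) := by
  unfold tau4 tau
  fun_prop

/-- The model vector space. -/
abbrev VE (d : ℕ) : Type := ℝ × (Fin 4 → Fin d → ℝ)

/-- The group `ℝ ⋉ (polynomials of degree less than d)^4`. -/
def NG (d : ℕ) : Type := VE d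

namespace NG

variable {d : ℕ}

instance : TopologicalSpace (NG d) := inferInstanceAs (TopologicalSpace (VE d))
instance : T2Space (NG d) := inferInstanceAs (T2Space (VE d))
instance : SecondCountableTopology (NG d) := inferInstanceAs (SecondCountableTopology (VE d))
instance : ChartedSpace (VE d) (NG d) := inferInstanceAs (ChartedSpace (VE d) (VE d))
instance : IsManifold 𝓘(ℝ, VE d) ∞ (NG d) := inferInstanceAs (IsManifold 𝓘(ℝ, VE d) ∞ (VE d))

/-- The element with coordinates `t` and `a`. -/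
def mk (t : ℝ) (a : Fin 4 → Fin d → ℝ) : NG d := (t, a)

theorem mk_fst (t : ℝ) (a : Fin 4 → Fin d → ℝ) : (mk t a).1 = t := rfl
theorem mk_snd (t : ℝ) (a : Fin 4 → Fin d → ℝ) : (mk t a).2 = a := rfl

theorem mk_continuous : Continuous (fun p : ℝ × (Fin 4 → Fin d → ℝ) => (mk p.1 p.2 : NG d)) :=
  continuous_id

noncomputable instance : Mul (NG d) := ⟨fun x y => (x.1 + y.1, x.2 + tau4 x.1 y.2)⟩
noncomputable instance : One (NG d) := ⟨((0 : ℝ), (0 : Fin 4 → Fin d → ℝ))⟩
noncomputable instance : Inv (NG d) := ⟨fun x => (-x.1, -tau4 (-x.1) x.2)⟩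

theorem mul_def (x y : NG d) : x * y = (x.1 + y.1, x.2 + tau4 x.1 y.2) := rfl
theorem one_def : (1 : NG d) = ((0 : ℝ), (0 : Fin 4 → Fin d → ℝ)) := rfl
theorem inv_def (x : NG d) : x⁻¹ = (-x.1, -tau4 (-x.1) x.2) := rfl

noncomputable instance : Group (NG d) :=
  Group.ofLeftAxioms
    (fun x y z => by
      refine Prod.ext (add_assoc _ _ _) ?_
      change (x.2 + tau4 x.1 y.2) + tau4 (x.1 + y.1) z.2 = x.2 + tau4 x.1 (y.2 + tau4 y.1 z.2)
      rw [tau4_add, tau4_tau4, add_assoc])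
    (fun x => by
      refine Prod.ext (zero_add _) ?_
      change 0 + tau4 0 x.2 = x.2
      rw [tau4_zero, zero_add])
    (fun x => by
      refine Prod.ext (neg_add_cancel _) ?_
      change -tau4 (-x.1) x.2 + tau4 (-x.1) x.2 = 0
      rw [neg_add_cancel])

instance : LieGroup 𝓘(ℝ, VE d) ∞ (NG d) where
  contMDiff_mul := by
    have h : ContMDiff (𝓘(ℝ, VE d).prod 𝓘(ℝ, VE d)) 𝓘(ℝ, VE d) ∞
        (fun p : VE d × VE d => ((p.1.1 + p.2.1, p.1.2 + tau4 p.1.1 p.2.2) : VE d)) := by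
      have h1 : ContDiff ℝ ∞
          (fun p : VE d × VE d => ((p.1.1 + p.2.1, p.1.2 + tau4 p.1.1 p.2.2) : VE d)) := by
        have h2 : ContDiff ℝ ∞ (fun p : VE d × VE d => tau4 p.1.1 p.2.2) :=
          tau4_contDiff.comp (by fun_prop : ContDiff ℝ ∞ (fun p : VE d × VE d => (p.1.1, p.2.2)))
        fun_prop
      rw [contMDiff_iff]
      refine ⟨h1.continuous, fun x y => ?_⟩
      simp only [mfld_simps, chartAt_self_eq]
      rw [contDiffOn_univ]
      exact h1
    exact h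
  contMDiff_inv := by
    have h : ContMDiff 𝓘(ℝ, VE d) 𝓘(ℝ, VE d) ∞
        (fun x : VE d => ((-x.1, -tau4 (-x.1) x.2) : VE d)) := by
      rw [contMDiff_iff_contDiff]
      have h2 : ContDiff ℝ ∞ (fun p : VE d => tau4 (-p.1) p.2) :=
        tau4_contDiff.comp (by fun_prop : ContDiff ℝ ∞ (fun p : VE d => (-p.1, p.2)))
      fun_prop
    exact h

instance : IsTopologicalGroup (NG d) := topologicalGroup_of_lieGroup 𝓘(ℝ, VE d) ∞

/-- The descending central series. -/
def cs (d j : ℕ) : Subgroup (NG d) where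
  carrier := {x | x.1 = 0 ∧ ∀ (l : Fin 4) (i : Fin d), d ≤ (i : ℕ) + j → x.2 l i = 0}
  mul_mem' := by
    rintro x y ⟨hx, hx'⟩ ⟨hy, hy'⟩
    refine ⟨by rw [mul_def]; simp [hx, hy], fun l i hi => ?_⟩
    rw [mul_def]
    simp only [hx, tau4_zero, Pi.add_apply]
    rw [hx' l i hi, hy' l i hi, add_zero]
  one_mem' := ⟨rfl, fun _ _ _ => rfl⟩
  inv_mem' := by
    rintro x ⟨hx, hx'⟩
    refine ⟨by rw [inv_def]; simp [hx], fun l i hi => ?_⟩
    rw [inv_def]
    simp only [hx, neg_zero, tau4_zero, Pi.neg_apply]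
    rw [hx' l i hi, neg_zero]

theorem mem_cs {j : ℕ} {x : NG d} : x ∈ cs d j ↔
    x.1 = 0 ∧ ∀ (l : Fin 4) (i : Fin d), d ≤ (i : ℕ) + j → x.2 l i = 0 := Iff.rfl

theorem comm_formula (x y : NG d) :
    ⁅x, y⁆ = mk 0 ((tau4 x.1 y.2 - y.2) - (tau4 y.1 x.2 - x.2)) := by
  have h : x * y = mk 0 ((tau4 x.1 y.2 - y.2) - (tau4 y.1 x.2 - x.2)) * (y * x) := by
    refine Prod.ext ?_ ?_
    · change x.1 + y.1 = 0 + (y.1 + x.1)
      ring
    · change x.2 + tau4 x.1 y.2 = (tau4 x.1 y.2 - y.2) - (tau4 y.1 x.2 - x.2) +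
        tau4 0 (y.2 + tau4 y.1 x.2)
      rw [tau4_zero]
      abel
  rw [commutatorElement_def, mul_assoc, ← mul_inv_rev, h, mul_inv_cancel_right]

theorem tau_eq_of_deg {m : ℕ} (t : ℝ) (a : Fin d → ℝ)
    (ha : ∀ i : Fin d, d ≤ (i : ℕ) + m → a i = 0) (i : Fin d) (hi : d ≤ (i : ℕ) + m + 1) :
    tau t a i = a i := by
  rw [tau, Finset.sum_eq_single i]
  · simp
  · intro j _ hji
    rcases lt_trichotomy (j : ℕ) (i : ℕ) with h | h | h
    · rw [Nat.choose_eq_zero_of_lt h]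
      simp
    · exact absurd (Fin.ext h) hji
    · rw [ha j (by omega), mul_zero]
  · intro h
    exact absurd (Finset.mem_univ _) h

theorem lcs_le (j : ℕ) : (⊤ : Subgroup (NG d)).lowerCentralSeries (j + 1) ≤ cs d (j + 1) := by
  induction j with
  | zero =>
    rw [Subgroup.lowerCentralSeries_succ, Subgroup.commutator_le]
    intro x _ y _
    rw [comm_formula, mem_cs]
    refine ⟨rfl, fun l i hi => ?_⟩
    simp only [mk_snd, Pi.sub_apply, tau4]
    rw [tau_eq_of_deg (m := 0) x.1 (y.2 l) (fun i hi => by omega) i (by omega),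
      tau_eq_of_deg (m := 0) y.1 (x.2 l) (fun i hi => by omega) i (by omega)]
    ring
  | succ j ih =>
    rw [Subgroup.lowerCentralSeries_succ, Subgroup.commutator_le]
    intro x hx y _
    have hx' := mem_cs.1 (ih hx)
    rw [comm_formula, mem_cs]
    refine ⟨rfl, fun l i hi => ?_⟩
    simp only [mk_snd, Pi.sub_apply, tau4]
    rw [hx'.1, tau_zero,
      tau_eq_of_deg (m := j + 1) y.1 (x.2 l) (fun i hi => hx'.2 l i hi) i (by omega)]
    ring

theorem lcs_eq_bot (hd : 1 ≤ d) : (⊤ : Subgroup (NG d)).lowerCentralSeries d = ⊥ := by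
  obtain ⟨j, rfl⟩ := Nat.exists_eq_add_of_le' hd
  rw [eq_bot_iff]
  intro x hx
  have hx' := mem_cs.1 (lcs_le j hx)
  rw [Subgroup.mem_bot]
  refine Prod.ext hx'.1 ?_
  funext l i
  exact hx'.2 l i (by omega)

/-- Integer points of `ℝ`. -/
abbrev ZR : Subring ℝ := (Int.castRingHom ℝ).range

theorem int_mem (z : ℤ) : (z : ℝ) ∈ ZR := ⟨z, rfl⟩

theorem tau_int {t : ℝ} (ht : t ∈ ZR) {a : Fin d → ℝ} (ha : ∀ i, a i ∈ ZR) (i : Fin d) :
    tau t a i ∈ ZR := by
  rw [tau]
  apply Subring.sum_mem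
  intro j _
  exact ZR.mul_mem (ZR.mul_mem (natCast_mem ZR _) (ZR.pow_mem ht _)) (ha j)

/-- The lattice of integer points. -/
def lat (d : ℕ) : Subgroup (NG d) where
  carrier := {x | x.1 ∈ ZR ∧ ∀ (l : Fin 4) (i : Fin d), x.2 l i ∈ ZR}
  mul_mem' := by
    rintro x y ⟨hx, hx'⟩ ⟨hy, hy'⟩
    refine ⟨ZR.add_mem hx hy, fun l i => ?_⟩
    rw [mul_def]
    simp only [Pi.add_apply]
    exact ZR.add_mem (hx' l i) (tau_int hx (hy' l) i)
  one_mem' := ⟨ZR.zero_mem, fun _ _ => ZR.zero_mem⟩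
  inv_mem' := by
    rintro x ⟨hx, hx'⟩
    refine ⟨ZR.neg_mem hx, fun l i => ?_⟩
    rw [inv_def]
    simp only [Pi.neg_apply]
    exact ZR.neg_mem (tau_int (ZR.neg_mem hx) (hx' l) i)

theorem mem_lat {x : NG d} : x ∈ lat d ↔ x.1 ∈ ZR ∧ ∀ (l : Fin 4) (i : Fin d), x.2 l i ∈ ZR :=
  Iff.rfl

theorem int_small {x : ℝ} (hx : x ∈ ZR) (h : |x| < 1) : x = 0 := by
  obtain ⟨z, rfl⟩ := hx
  have h1 : |(z : ℝ)| < 1 := h
  have h2 : |z| < 1 := by exact_mod_cast h1
  rw [Int.abs_lt_one_iff] at h2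
  rw [h2]
  simp

instance : DiscreteTopology (lat d) := by
  rw [discreteTopology_iff_isOpen_singleton_one]
  have h1 : IsOpen {x : VE d | ‖x‖ < 1} := by
    have : IsOpen (Metric.ball (0 : VE d) 1) := Metric.isOpen_ball
    simpa [Metric.ball, dist_zero_right] using this
  have h2 : IsOpen ((fun x : lat d => ((x : NG d) : VE d)) ⁻¹' {x : VE d | ‖x‖ < 1}) :=
    h1.preimage continuous_subtype_val
  have h3 : ({1} : Set (lat d)) = (fun x : lat d => ((x : NG d) : VE d)) ⁻¹'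
      {x : VE d | ‖x‖ < 1} := by
    ext x
    constructor
    · rintro rfl
      change ‖((0 : ℝ), (0 : Fin 4 → Fin d → ℝ))‖ < 1
      simp
    · intro hx
      have hx' : @Norm.norm (VE d) _ (x : NG d) < 1 := hx
      have hmem := mem_lat.1 x.2
      have b1 : ‖(x : NG d).1‖ ≤ @Norm.norm (VE d) _ (x : NG d) := norm_fst_le (E := ℝ) _
      have b2 : ‖(x : NG d).2‖ ≤ @Norm.norm (VE d) _ (x : NG d) :=
        norm_snd_le (F := Fin 4 → Fin d → ℝ) _
      rw [Set.mem_singleton_iff]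
      apply Subtype.ext
      refine Prod.ext ?_ ?_
      · exact int_small hmem.1 (lt_of_le_of_lt b1 hx')
      · funext l i
        apply int_small (hmem.2 l i)
        have a1 := norm_le_pi_norm ((x : NG d).2) l
        have a2 := norm_le_pi_norm ((x : NG d).2 l) i
        exact lt_of_le_of_lt ((a2.trans a1).trans b2) hx'
  rw [h3]
  exact h2

instance : CompactSpace (NG d ⧸ lat d) := by
  set K : Set (VE d) := (fun p : VE d => ((p.1, tau4 p.1 p.2) : VE d)) ''
    (Set.Icc (0 : ℝ) 1 ×ˢ Set.pi Set.univ (fun _ => Set.pi Set.univ (fun _ => Set.Icc (0 : ℝ) 1)))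
    with hK
  have hKc : IsCompact K := by
    apply IsCompact.image
    · exact isCompact_Icc.prod (isCompact_univ_pi fun _ => isCompact_univ_pi fun _ => isCompact_Icc)
    · exact continuous_fst.prodMk tau4_continuous
  have hKc' : IsCompact ((QuotientGroup.mk : NG d → NG d ⧸ lat d) '' K) :=
    IsCompact.image hKc QuotientGroup.continuous_mk
  have huniv : (QuotientGroup.mk : NG d → NG d ⧸ lat d) '' K = Set.univ := by
    rw [Set.eq_univ_iff_forall]
    intro y
    obtain ⟨x, rfl⟩ := QuotientGroup.mk_surjective y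
    set s := Int.fract x.1 with hs
    set b := tau4 (-s) x.2 with hb
    set c : Fin 4 → Fin d → ℝ := fun l i => Int.fract (b l i) with hc
    set w : Fin 4 → Fin d → ℝ := fun l i => (⌊b l i⌋ : ℝ) with hw
    refine ⟨mk s (tau4 s c), ⟨(s, c), ⟨⟨Int.fract_nonneg _, (Int.fract_lt_one _).le⟩, ?_⟩, rfl⟩, ?_⟩
    · intro l _ i _
      exact ⟨Int.fract_nonneg _, (Int.fract_lt_one _).le⟩
    · have hγ : mk (⌊x.1⌋ : ℝ) w ∈ lat d :=
        mem_lat.2 ⟨int_mem _, fun l i => int_mem _⟩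
      have hx : x = mk s (tau4 s c) * mk (⌊x.1⌋ : ℝ) w := by
        refine Prod.ext ?_ ?_
        · change x.1 = s + ⌊x.1⌋
          rw [hs]
          exact (Int.fract_add_floor x.1).symm
        · change x.2 = tau4 s c + tau4 s w
          rw [← tau4_add]
          have : c + w = b := by
            funext l i
            exact Int.fract_add_floor _
          rw [this, hb, tau4_tau4, add_neg_cancel, tau4_zero]
      have h4 := (QuotientGroup.mk_mul_of_mem (mk s (tau4 s c)) hγ).symm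
      rw [← hx] at h4
      exact h4
  exact ⟨by rw [← huniv]; exact hKc'⟩

end NG

end Pool.Agent.Lib.MP_090f02_an
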