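import Mathlib

set_option autoImplicit false

/-! Real numbers with prescribed phases along sums of rapidly growing powers of two. -/

namespace Pool.Agent.Lib.MP_090f02_an

open Filter Topology

theorem phase_real (𝓔 : Set ℕ) (h𝓔 : ∀ M ∈ 𝓔, ∃ M' ∈ 𝓔, M < M') (Θ : ℕ → ℝ) :
    ∃ γ : ℝ, ∀ M ∈ 𝓔, ∀ g : ℕ, (∀ M' ∈ 𝓔, M < M' → M + g ≤ M') →
      ∃ z : ℤ, |γ * 2 ^ M - Θ M - z| ≤ 3 * (1 / 2) ^ g := by
  classical
  set nx : ℕ → ℕ := fun M => sInf {M' | M' ∈ 𝓔 ∧ M < M'} with hnx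
  have hnxmem : ∀ M ∈ 𝓔, nx M ∈ 𝓔 ∧ M < nx M := by
    intro M hM
    obtain ⟨M', h1, h2⟩ := h𝓔 M hM
    exact Nat.sInf_mem (s := {M' | M' ∈ 𝓔 ∧ M < M'}) ⟨M', h1, h2⟩
  have hnxle : ∀ M M', M' ∈ 𝓔 → M < M' → nx M ≤ M' := fun M M' h1 h2 =>
    Nat.sInf_le (s := {M' | M' ∈ 𝓔 ∧ M < M'}) ⟨h1, h2⟩
  set G : ℕ → ℕ := fun M => nx M - M with hG
  set τ : ℕ → ℝ := fun M => if M ∈ 𝓔 then (⌊(2 : ℝ) ^ (G M) * Int.fract (Θ M)⌋ : ℝ) / 2 ^ (G M)
    else 0 with hτ
  have h2pos : ∀ n : ℕ, (0 : ℝ) < 2 ^ n := fun n => by positivity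
  have hτ0 : ∀ M, 0 ≤ τ M := by
    intro M
    rw [hτ]
    simp only
    split_ifs
    · apply div_nonneg _ (h2pos _).le
      exact_mod_cast Int.floor_nonneg.2 (mul_nonneg (h2pos _).le (Int.fract_nonneg _))
    · exact le_refl _
  have hτ1 : ∀ M, τ M ≤ 1 := by
    intro M
    rw [hτ]
    simp only
    split_ifs
    · rw [div_le_one (h2pos _)]
      refine (Int.floor_le _).trans ?_
      have := Int.fract_lt_one (Θ M)
      have := h2pos (G M)
      nlinarith
    · exact zero_le_one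
  have hτerr : ∀ M ∈ 𝓔, |τ M - Int.fract (Θ M)| ≤ (1 / 2) ^ (G M) := by
    intro M hM
    rw [hτ]
    simp only
    rw [if_pos hM]
    have h1 := Int.floor_le ((2 : ℝ) ^ (G M) * Int.fract (Θ M))
    have h2 := Int.lt_floor_add_one ((2 : ℝ) ^ (G M) * Int.fract (Θ M))
    have h3 := h2pos (G M)
    have h4 : ((1 : ℝ) / 2) ^ (G M) = 1 / 2 ^ (G M) := by rw [div_pow, one_pow]
    rw [h4, abs_le]
    constructor
    · rw [neg_le_sub_iff_le_add, ← add_div, le_div_iff₀ h3]
      linarith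
    · rw [sub_le_iff_le_add, div_le_iff₀ h3, add_mul, one_div, inv_mul_cancel₀ h3.ne']
      linarith
  set a : ℕ → ℝ := fun M => τ M * (1 / 2) ^ M with ha
  have hgeo : Summable (fun M : ℕ => ((1 : ℝ) / 2) ^ M) :=
    summable_geometric_of_lt_one (by norm_num) (by norm_num)
  have ha0 : ∀ M, 0 ≤ a M := fun M => mul_nonneg (hτ0 M) (by positivity)
  have hale : ∀ M, a M ≤ (1 / 2) ^ M := by
    intro M
    have : (0 : ℝ) ≤ (1 / 2) ^ M := by positivity
    exact (mul_le_mul_of_nonneg_right (hτ1 M) this).trans (by rw [one_mul])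
  have hsum : Summable a := Summable.of_nonneg_of_le ha0 hale hgeo
  refine ⟨∑' M, a M, fun M hM g hg => ?_⟩
  have hgG : g ≤ G M := by
    have h1 := hnxmem M hM
    have := hg _ h1.1 h1.2
    rw [hG]
    simp only
    omega
  have hG1 : 1 ≤ G M := by
    have h1 := (hnxmem M hM).2
    rw [hG]
    simp only
    omega
  have e1 : ∑' i, a i = ∑ i ∈ Finset.range M, a i + ∑' i, a (i + M) :=
    (Summable.sum_add_tsum_nat_add M hsum).symm
  have e2 : ∑' i, a (i + M) = ∑ i ∈ Finset.range (G M), a (i + M) +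
      ∑' i, a (i + G M + M) :=
    (Summable.sum_add_tsum_nat_add (G M) ((summable_nat_add_iff M).2 hsum)).symm
  have e3 : ∑ i ∈ Finset.range (G M), a (i + M) = a M := by
    rw [Finset.sum_eq_single 0]
    · rw [zero_add]
    · intro i hi hi0
      rw [Finset.mem_range] at hi
      have : i + M ∉ 𝓔 := by
        intro h
        have h1 := hnxle M (i + M) h (by omega)
        rw [hG] at hi
        simp only at hi
        omega
      rw [ha]
      simp only
      rw [hτ]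
      simp only
      rw [if_neg this, zero_mul]
    · intro h
      exact absurd (Finset.mem_range.2 hG1) h
  have e4 : ∃ z : ℤ, (∑ i ∈ Finset.range M, a i) * 2 ^ M = z := by
    have : ∀ i ∈ Finset.range M, ∃ z : ℤ, a i * 2 ^ M = z := by
      intro i hi
      rw [Finset.mem_range] at hi
      by_cases hi𝓔 : i ∈ 𝓔
      · have h1 := hnxle i M hM hi
        have h2 := (hnxmem i hi𝓔).2
        have h3 : i + G i + (M - nx i) = M := by
          rw [hG]
          simp only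
          omega
        refine ⟨⌊(2 : ℝ) ^ (G i) * Int.fract (Θ i)⌋ * 2 ^ (M - nx i), ?_⟩
        rw [ha]
        simp only
        rw [hτ]
        simp only
        rw [if_pos hi𝓔]
        have h4 : (2 : ℝ) ^ M = 2 ^ i * 2 ^ (G i) * 2 ^ (M - nx i) := by
          rw [← pow_add, ← pow_add, h3]
        rw [h4]
        push_cast
        have h5 := (h2pos (G i)).ne'
        have h6 : ((1 : ℝ) / 2) ^ i * 2 ^ i = 1 := by
          rw [← mul_pow]; norm_num
        have h7 : (⌊(2 : ℝ) ^ (G i) * Int.fract (Θ i)⌋ : ℝ) / 2 ^ (G i) * (1 / 2) ^ i *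
            (2 ^ i * 2 ^ (G i) * 2 ^ (M - nx i)) =
            ((⌊(2 : ℝ) ^ (G i) * Int.fract (Θ i)⌋ : ℝ) / 2 ^ (G i) * 2 ^ (G i)) *
            ((1 / 2) ^ i * 2 ^ i) * 2 ^ (M - nx i) := by ring
        rw [h7, div_mul_cancel₀ _ h5, h6, mul_one]
      · refine ⟨0, ?_⟩
        rw [ha]
        simp only
        rw [hτ]
        simp only
        rw [if_neg hi𝓔]
        simp
    choose! z hz using this
    refine ⟨∑ i ∈ Finset.range M, z i, ?_⟩
    rw [Finset.sum_mul, Finset.sum_congr rfl hz]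
    push_cast
    rfl
  have e5 : a M * 2 ^ M = τ M := by
    rw [ha]
    simp only
    rw [mul_assoc, ← mul_pow]
    norm_num
  have hsumt : Summable (fun i => a (i + G M + M)) := by
    have := (summable_nat_add_iff (G M)).2 ((summable_nat_add_iff M).2 hsum)
    exact this
  have e6 : (∑' i, a (i + G M + M)) * 2 ^ M ≤ 2 * (1 / 2) ^ (G M) := by
    rw [← tsum_mul_right]
    have h1 : ∀ i : ℕ, a (i + G M + M) * 2 ^ M ≤ (1 / 2) ^ (G M) * (1 / 2) ^ i := by
      intro i
      have h2 := hale (i + G M + M)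
      have h3 : ((1 : ℝ) / 2) ^ (i + G M + M) * 2 ^ M = (1 / 2) ^ (G M) * (1 / 2) ^ i := by
        rw [pow_add _ _ M, mul_assoc, ← mul_pow, pow_add]
        norm_num
        ring
      rw [← h3]
      exact mul_le_mul_of_nonneg_right h2 (h2pos M).le
    have h4 : Summable (fun i : ℕ => ((1 : ℝ) / 2) ^ (G M) * (1 / 2) ^ i) := hgeo.mul_left _
    refine (Summable.tsum_le_tsum h1 (hsumt.mul_right _) h4).trans ?_
    rw [tsum_mul_left, tsum_geometric_two]
    linarith
  have e7 : 0 ≤ (∑' i, a (i + G M + M)) * 2 ^ M :=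
    mul_nonneg (tsum_nonneg fun i => ha0 _) (h2pos M).le
  obtain ⟨z, hz⟩ := e4
  refine ⟨z - ⌊Θ M⌋, ?_⟩
  have e8 : (∑' i, a i) * 2 ^ M = z + τ M + (∑' i, a (i + G M + M)) * 2 ^ M := by
    rw [e1, e2, e3, add_mul, add_mul, hz, e5]
    ring
  rw [e8]
  have e9 : Θ M = ⌊Θ M⌋ + Int.fract (Θ M) := (Int.floor_add_fract (Θ M)).symm
  have e10 := hτerr M hM
  rw [abs_le] at e10
  have e11 : ((1 : ℝ) / 2) ^ (G M) ≤ (1 / 2) ^ g :=
    pow_le_pow_of_le_one (by norm_num) (by norm_num) hgG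
  push_cast
  rw [abs_le]
  constructor
  · linarith [e10.1, e10.2]
  · linarith [e10.1, e10.2]

/-- Digit expansions with digits below the base are unique. -/
theorem digits_unique (B : ℕ) (N : ℕ) : ∀ c c' : ℕ → ℕ, (∀ v, c v < B) → (∀ v, c' v < B) →
    ∑ v ∈ Finset.range N, c v * B ^ v = ∑ v ∈ Finset.range N, c' v * B ^ v →
    ∀ v < N, c v = c' v := by
  induction N with
  | zero => intro c c' _ _ _ v hv; omega
  | succ N ih =>
    intro c c' hc hc' h
    rw [Finset.sum_range_succ', Finset.sum_range_succ'] at h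
    have hB : 0 < B := (Nat.zero_le _).trans_lt (hc 0)
    have e : ∀ c : ℕ → ℕ, ∑ v ∈ Finset.range N, c (v + 1) * B ^ (v + 1) =
        B * ∑ v ∈ Finset.range N, c (v + 1) * B ^ v := by
      intro c
      rw [Finset.mul_sum]
      apply Finset.sum_congr rfl
      intro v _
      ring
    rw [e, e, pow_zero, mul_one, mul_one] at h
    have h0 : c 0 = c' 0 := by
      have := congrArg (fun z => z % B) h
      simp only [Nat.mul_add_mod] at this
      rwa [Nat.mod_eq_of_lt (hc 0), Nat.mod_eq_of_lt (hc' 0)] at this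
    rw [h0] at h
    have h1 := Nat.eq_of_mul_eq_mul_left hB (Nat.add_right_cancel h)
    have h2 := ih (fun v => c (v + 1)) (fun v => c' (v + 1)) (fun v => hc _) (fun v => hc' _) h1
    intro v hv
    cases v with
    | zero => exact h0
    | succ v => exact h2 v (by omega)

/-- The exponent attached to a tuple. -/
def lam (B : ℕ) {n : ℕ} (u : Fin n → ℕ) : ℕ := ∑ j, B ^ (u j)

theorem lam_image {B n : ℕ} (hB : n < B) (u u' : Fin n → ℕ) (h : lam B u = lam B u') :
    Finset.univ.image u = Finset.univ.image u' := by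
  classical
  set N := (Finset.univ.image u ∪ Finset.univ.image u').sup id + 1 with hN
  have hu : ∀ j, u j < N := by
    intro j
    have : u j ≤ (Finset.univ.image u ∪ Finset.univ.image u').sup id :=
      Finset.le_sup (f := id) (Finset.mem_union_left _ (Finset.mem_image_of_mem _
        (Finset.mem_univ j)))
    omega
  have hu' : ∀ j, u' j < N := by
    intro j
    have : u' j ≤ (Finset.univ.image u ∪ Finset.univ.image u').sup id :=
      Finset.le_sup (f := id) (Finset.mem_union_right _ (Finset.mem_image_of_mem _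
        (Finset.mem_univ j)))
    omega
  have key : ∀ w : Fin n → ℕ, (∀ j, w j < N) → lam B w =
      ∑ v ∈ Finset.range N, ((Finset.univ.filter (fun j => w j = v)).card) * B ^ v := by
    intro w hw
    rw [lam, ← Finset.sum_fiberwise_of_maps_to (s := Finset.univ) (t := Finset.range N) (g := w)
      (fun j _ => Finset.mem_range.2 (hw j))]
    apply Finset.sum_congr rfl
    intro v _
    rw [Finset.sum_congr rfl (g := fun _ => B ^ v)]
    · rw [Finset.sum_const, smul_eq_mul]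
    · intro j hj
      rw [(Finset.mem_filter.1 hj).2]
  have hlt : ∀ (w : Fin n → ℕ) (v : ℕ), (Finset.univ.filter (fun j => w j = v)).card < B := by
    intro w v
    refine lt_of_le_of_lt (Finset.card_le_univ _) ?_
    rwa [Fintype.card_fin]
  rw [key u hu, key u' hu'] at h
  have h1 := digits_unique B N _ _ (hlt u) (hlt u') h
  have h2 : ∀ (w : Fin n → ℕ) (v : ℕ), v ∈ Finset.univ.image w ↔
      0 < (Finset.univ.filter (fun j => w j = v)).card := by
    intro w v
    rw [Finset.card_pos, Finset.mem_image]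
    constructor
    · rintro ⟨j, _, hj⟩
      exact ⟨j, Finset.mem_filter.2 ⟨Finset.mem_univ _, hj⟩⟩
    · rintro ⟨j, hj⟩
      exact ⟨j, Finset.mem_univ _, (Finset.mem_filter.1 hj).2⟩
  ext v
  rw [h2, h2]
  by_cases hv : v < N
  · rw [h1 v hv]
  · have a1 : (Finset.univ.filter (fun j => u j = v)).card = 0 := by
      rw [Finset.card_eq_zero, Finset.filter_eq_empty_iff]
      intro j _ hj
      exact hv (hj ▸ hu j)
    have a2 : (Finset.univ.filter (fun j => u' j = v)).card = 0 := by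
      rw [Finset.card_eq_zero, Finset.filter_eq_empty_iff]
      intro j _ hj
      exact hv (hj ▸ hu' j)
    rw [a1, a2]

theorem lam_gap {B n : ℕ} (hB : n + 2 ≤ B) (u u' : Fin n → ℕ) (w : ℕ) (hw : ∀ j, w ≤ u j)
    (h : lam B u < lam B u') : lam B u + B ^ w ≤ lam B u' := by
  classical
  by_contra hcon
  push Not at hcon
  set d := B ^ w with hd
  have hd0 : 0 < d := Nat.pow_pos (by omega)
  set q := ∑ j, B ^ (u j - w) with hq
  have h1 : lam B u = d * q := by
    rw [lam, hq, Finset.mul_sum]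
    apply Finset.sum_congr rfl
    intro j _
    rw [hd, ← pow_add, Nat.add_sub_cancel' (hw j)]
  set J := Finset.univ.filter (fun j => u' j < w) with hJ
  set J' := Finset.univ.filter (fun j => ¬ (u' j < w)) with hJ'
  set r' := ∑ j ∈ J, B ^ (u' j) with hr'
  set q' := ∑ j ∈ J', B ^ (u' j - w) with hq'
  have h2 : lam B u' = r' + d * q' := by
    rw [lam, ← Finset.sum_filter_add_sum_filter_not Finset.univ (fun j => u' j < w)]
    congr 1
    rw [hq', Finset.mul_sum]
    apply Finset.sum_congr rfl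
    intro j hj
    have := (Finset.mem_filter.1 hj).2
    rw [hd, ← pow_add, Nat.add_sub_cancel' (by omega)]
  have hJc : J.card + J'.card = n := by
    rw [hJ, hJ', Finset.card_filter_add_card_filter_not, Finset.card_univ, Fintype.card_fin]
  have h3 : r' < d := by
    rcases Nat.eq_zero_or_pos w with hw0 | hw0
    · have : J = ∅ := by
        rw [hJ, Finset.filter_eq_empty_iff]
        intro j _ hj
        omega
      rw [hr', this, Finset.sum_empty]
      exact hd0
    · have : r' ≤ J.card * B ^ (w - 1) := by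
        rw [hr', ← smul_eq_mul]
        apply Finset.sum_le_card_nsmul
        intro j hj
        have := (Finset.mem_filter.1 hj).2
        exact Nat.pow_le_pow_right (by omega) (by omega)
      have h4 : d = B * B ^ (w - 1) := by
        rw [hd, ← pow_succ', Nat.sub_add_cancel hw0]
      rw [h4]
      refine this.trans_lt (Nat.mul_lt_mul_of_pos_right (by omega) (Nat.pow_pos (by omega)))
  rw [h1, h2] at h hcon
  have h4 : q' ≤ q := by
    by_contra hc
    push Not at hc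
    have : d * (q + 1) ≤ d * q' := Nat.mul_le_mul_left _ hc
    rw [mul_add, mul_one] at this
    omega
  have h5 : q ≤ q' := by
    by_contra hc
    push Not at hc
    have : d * (q' + 1) ≤ d * q := Nat.mul_le_mul_left _ hc
    rw [mul_add, mul_one] at this
    omega
  have h6 : q = q' := le_antisymm h5 h4
  have hmod : ∀ x : ℕ, B ^ x ≡ 1 [MOD (B - 1)] := by
    intro x
    have : B ≡ 1 [MOD (B - 1)] := by
      have h7 : B = (B - 1) + 1 := by omega
      conv_lhs => rw [h7]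
      exact Nat.add_modEq_left
    simpa using this.pow x
  have hsum : ∀ (I : Finset (Fin n)) (e : Fin n → ℕ), ∑ j ∈ I, B ^ (e j) ≡ I.card [MOD (B - 1)] := by
    intro I e
    induction I using Finset.induction_on with
    | empty => simp [Nat.ModEq]
    | insert a I haI ih =>
      rw [Finset.sum_insert haI, Finset.card_insert_of_notMem haI, add_comm]
      exact ih.add (hmod _)
  have h7 : n ≡ J'.card [MOD (B - 1)] := by
    have a1 := hsum Finset.univ (fun j => u j - w)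
    have a2 := hsum J' (fun j => u' j - w)
    rw [Finset.card_univ, Fintype.card_fin] at a1
    refine a1.symm.trans ?_
    rw [← hq, h6]
    exact a2
  have h8 : n = J'.card := by
    rw [Nat.ModEq, Nat.mod_eq_of_lt (by omega), Nat.mod_eq_of_lt (by omega)] at h7
    exact h7
  have h9 : J = ∅ := by
    rw [← Finset.card_eq_zero]; omega
  rw [hr', h9, Finset.sum_empty, h6] at h
  omega

theorem phase_tuple {B k : ℕ} (hB : k + 3 ≤ B) (θ : Finset ℕ → ℝ) :
    ∃ γ : ℝ, ∀ (W : ℕ) (u : Fin (k + 1) → ℕ), (∀ j, W ≤ u j) → ∃ z : ℤ,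
      |γ * 2 ^ (lam B u) - (if (Finset.univ.image u).card = k + 1 then θ (Finset.univ.image u)
        else 0) - z| ≤ 3 * (1 / 2) ^ (B ^ W) := by
  classical
  set Θ0 : (Fin (k + 1) → ℕ) → ℝ := fun u =>
    if (Finset.univ.image u).card = k + 1 then θ (Finset.univ.image u) else 0 with hΘ0
  set Θ : ℕ → ℝ := fun M => if h : ∃ u : Fin (k + 1) → ℕ, lam B u = M then Θ0 h.choose else 0
    with hΘ
  have hΘeq : ∀ u, Θ (lam B u) = Θ0 u := by
    intro u
    have hex : ∃ u' : Fin (k + 1) → ℕ, lam B u' = lam B u := ⟨u, rfl⟩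
    rw [hΘ]
    simp only
    rw [dif_pos hex, hΘ0]
    simp only
    rw [lam_image (by omega) _ _ hex.choose_spec]
  obtain ⟨γ, hγ⟩ := phase_real (Set.range (fun u : Fin (k + 1) → ℕ => lam B u)) (by
    rintro _ ⟨u, rfl⟩
    refine ⟨_, ⟨fun j => u j + 1, rfl⟩, ?_⟩
    simp only [lam]
    apply Finset.sum_lt_sum_of_nonempty ⟨0, Finset.mem_univ _⟩
    intro j _
    exact Nat.pow_lt_pow_right (by omega) (Nat.lt_succ_self _)) Θ
  refine ⟨γ, fun W u hu => ?_⟩
  obtain ⟨z, hz⟩ := hγ (lam B u) ⟨u, rfl⟩ (B ^ W) (by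
    rintro _ ⟨u', rfl⟩ hlt
    exact lam_gap (by omega) u u' W hu hlt)
  refine ⟨z, ?_⟩
  rw [hΘeq] at hz
  exact hz

theorem phase_sum {B k : ℕ} (hB : k + 3 ≤ B) (𝓛 : Set (Finset ℕ))
    (hind : ∀ f : Finset ℕ → ℝ, ∃ θ : Finset ℕ → ℝ, ∀ L ∈ 𝓛,
      ∑ T ∈ L.powersetCard (k + 1), θ T = f L) (f : Finset ℕ → ℝ) :
    ∃ γ : ℝ, ∀ L ∈ 𝓛, ∀ W : ℕ, (∀ v ∈ L, W ≤ v) → ∃ z : ℤ,
      |γ * ((∑ v ∈ L, 2 ^ (B ^ v) : ℕ) : ℝ) ^ (k + 1) - f L - z| ≤
        (L.card : ℝ) ^ (k + 1) * (3 * (1 / 2) ^ (B ^ W)) := by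
  classical
  obtain ⟨θ, hθ⟩ := hind f
  -- number of tuples with a given image
  set N : Finset ℕ → ℕ := fun T =>
    ((Fintype.piFinset (fun _ : Fin (k + 1) => T)).filter
      (fun u => Finset.univ.image u = T)).card with hN
  have hNpos : ∀ T : Finset ℕ, T.card = k + 1 → 0 < N T := by
    intro T hT
    rw [hN]
    simp only
    rw [Finset.card_pos]
    refine ⟨fun j => T.orderEmbOfFin hT j, ?_⟩
    rw [Finset.mem_filter, Fintype.mem_piFinset]
    refine ⟨fun j => Finset.orderEmbOfFin_mem _ _ _, ?_⟩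
    exact Finset.image_orderEmbOfFin_univ T hT
  obtain ⟨γ, hγ⟩ := phase_tuple hB (fun T => θ T / N T)
  refine ⟨γ, fun L hL W hW => ?_⟩
  set U := Fintype.piFinset (fun _ : Fin (k + 1) => L) with hU
  have hexp : ((∑ v ∈ L, 2 ^ (B ^ v) : ℕ) : ℝ) ^ (k + 1) = ∑ u ∈ U, (2 : ℝ) ^ (lam B u) := by
    have h1 := Finset.prod_univ_sum (fun _ : Fin (k + 1) => L)
      (fun _ v => ((2 : ℝ) ^ (B ^ v)))
    rw [Finset.prod_const, Finset.card_univ, Fintype.card_fin] at h1
    push_cast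
    rw [h1]
    apply Finset.sum_congr rfl
    intro u _
    rw [lam, Finset.prod_pow_eq_pow_sum]
  have hmain : ∑ u ∈ U, (if (Finset.univ.image u).card = k + 1 then
      θ (Finset.univ.image u) / N (Finset.univ.image u) else 0) = f L := by
    rw [← hθ L hL, ← Finset.sum_filter]
    rw [← Finset.sum_fiberwise_of_maps_to (t := L.powersetCard (k + 1))
      (g := fun u : Fin (k + 1) → ℕ => Finset.univ.image u)]
    · apply Finset.sum_congr rfl
      intro T hT
      rw [Finset.mem_powersetCard] at hT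
      have h1 : ((U.filter (fun u => (Finset.univ.image u).card = k + 1)).filter
          (fun u => Finset.univ.image u = T)) =
          (Fintype.piFinset (fun _ : Fin (k + 1) => T)).filter
            (fun u => Finset.univ.image u = T) := by
        ext u
        simp only [Finset.mem_filter, hU, Fintype.mem_piFinset]
        constructor
        · rintro ⟨⟨_, _⟩, h⟩
          refine ⟨fun j => ?_, h⟩
          rw [← h]
          exact Finset.mem_image_of_mem _ (Finset.mem_univ _)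
        · rintro ⟨h, h'⟩
          exact ⟨⟨fun j => hT.1 (h j), by rw [h']; exact hT.2⟩, h'⟩
      rw [h1, Finset.sum_congr rfl (g := fun _ => θ T / N T)]
      · rw [Finset.sum_const, nsmul_eq_mul]
        have h2 : ((N T : ℕ) : ℝ) ≠ 0 := by
          exact_mod_cast (hNpos T hT.2).ne'
        change (N T : ℝ) * (θ T / N T) = θ T
        field_simp
      · intro u hu
        rw [(Finset.mem_filter.1 hu).2]
    · intro u hu
      rw [Finset.mem_filter, hU, Fintype.mem_piFinset] at hu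
      rw [Finset.mem_powersetCard]
      refine ⟨?_, hu.2⟩
      intro v hv
      obtain ⟨j, _, rfl⟩ := Finset.mem_image.1 hv
      exact hu.1 j
  have herr : ∀ u ∈ U, ∃ z : ℤ, |γ * 2 ^ (lam B u) - (if (Finset.univ.image u).card = k + 1 then
      θ (Finset.univ.image u) / N (Finset.univ.image u) else 0) - z| ≤ 3 * (1 / 2) ^ (B ^ W) := by
    intro u hu
    rw [hU, Fintype.mem_piFinset] at hu
    exact hγ W u (fun j => hW _ (hu j))
  choose! z hz using herr
  refine ⟨∑ u ∈ U, z u, ?_⟩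
  have hfin : γ * ((∑ v ∈ L, 2 ^ (B ^ v) : ℕ) : ℝ) ^ (k + 1) - f L - ((∑ u ∈ U, z u : ℤ) : ℝ) =
      ∑ u ∈ U, (γ * 2 ^ (lam B u) - (if (Finset.univ.image u).card = k + 1 then
      θ (Finset.univ.image u) / N (Finset.univ.image u) else 0) - z u) := by
    rw [Finset.sum_sub_distrib, Finset.sum_sub_distrib, hmain, hexp, Finset.mul_sum]
    push_cast
    rfl
  rw [hfin]
  refine (Finset.abs_sum_le_sum_abs _ _).trans ?_
  refine (Finset.sum_le_card_nsmul _ _ _ hz).trans ?_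
  rw [nsmul_eq_mul]
  apply le_of_eq
  congr 1
  rw [hU, Fintype.card_piFinset, Finset.prod_const, Finset.card_univ, Fintype.card_fin]
  push_cast
  rfl

/-- The sum of rapidly growing powers of two attached to a finite set. -/
def hgt (B : ℕ) (L : Finset ℕ) : ℕ := ∑ v ∈ L, 2 ^ (B ^ v)

theorem tendsto_min {𝓛 : Set (Finset ℕ)} (hne : ∀ L ∈ 𝓛, L.Nonempty)
    (h2 : ∀ L ∈ 𝓛, ∀ u ∈ L, ∀ v ∈ L, u < 2 * v) :
    ∃ w : 𝓛 → ℕ, (∀ L : 𝓛, ∀ v ∈ L.1, w L ≤ v) ∧ (∀ L : 𝓛, L.1.card ≤ w L) ∧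
      Tendsto w cofinite atTop := by
  classical
  refine ⟨fun L => L.1.min' (hne L.1 L.2), fun L v hv => Finset.min'_le _ _ hv, ?_, ?_⟩
  · intro L
    have h3 : L.1 ⊆ Finset.Ico (L.1.min' (hne L.1 L.2)) (2 * L.1.min' (hne L.1 L.2)) := by
      intro v hv
      rw [Finset.mem_Ico]
      exact ⟨Finset.min'_le _ _ hv, h2 L.1 L.2 v hv _ (Finset.min'_mem _ _)⟩
    have := Finset.card_le_card h3
    rw [Nat.card_Ico] at this
    simp only
    omega
  · rw [Filter.tendsto_atTop]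
    intro b
    rw [Filter.eventually_cofinite]
    have hfin : ((Finset.range (2 * b)).powerset : Set (Finset ℕ)).Finite :=
      Finset.finite_toSet _
    refine Set.Finite.subset (hfin.preimage Subtype.val_injective.injOn) ?_
    intro L hL
    rw [Set.mem_ofPred_eq] at hL
    rw [Set.mem_preimage, Finset.mem_coe, Finset.mem_powerset]
    intro v hv
    rw [Finset.mem_range]
    have h4 := h2 L.1 L.2 v hv _ (Finset.min'_mem _ (hne L.1 L.2))
    omega

theorem bound_tendsto {ι : Type*} (B k : ℕ) (hB : 2 ≤ B) (C : ℝ) (w : ι → ℕ)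
    (hw : Tendsto w cofinite atTop) :
    Tendsto (fun i => (w i : ℝ) ^ k * (C * (1 / 2) ^ (B ^ (w i)))) cofinite (𝓝 0) := by
  have h1 : Tendsto (fun n : ℕ => (n : ℝ) ^ k * (1 / 2) ^ n) atTop (𝓝 0) :=
    tendsto_pow_const_mul_const_pow_of_abs_lt_one k (by rw [abs_of_pos] <;> norm_num)
  have h2 : Tendsto (fun i => |C| * ((w i : ℝ) ^ k * (1 / 2) ^ (w i))) cofinite (𝓝 0) := by
    have := (h1.comp hw).const_mul |C|
    rw [mul_zero] at this
    exact this
  refine squeeze_zero_norm (fun i => ?_) h2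
  rw [Real.norm_eq_abs, abs_mul, abs_mul, abs_of_nonneg (by positivity : (0 : ℝ) ≤ (w i : ℝ) ^ k),
    abs_of_nonneg (by positivity : (0 : ℝ) ≤ (1 / 2) ^ (B ^ (w i)))]
  have h3 : ((1 : ℝ) / 2) ^ (B ^ (w i)) ≤ (1 / 2) ^ (w i) :=
    pow_le_pow_of_le_one (by norm_num) (by norm_num) (Nat.lt_pow_self (by omega)).le
  have h4 : (0 : ℝ) ≤ |C| * (w i : ℝ) ^ k := by positivity
  calc (w i : ℝ) ^ k * (|C| * (1 / 2) ^ (B ^ (w i)))
      = (|C| * (w i : ℝ) ^ k) * (1 / 2) ^ (B ^ (w i)) := by ring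
    _ ≤ (|C| * (w i : ℝ) ^ k) * (1 / 2) ^ (w i) := mul_le_mul_of_nonneg_left h3 h4
    _ = |C| * ((w i : ℝ) ^ k * (1 / 2) ^ (w i)) := by ring

theorem phase_family {B k : ℕ} (hB : k + 3 ≤ B) (𝓛 : Set (Finset ℕ))
    (hne : ∀ L ∈ 𝓛, L.Nonempty) (h2 : ∀ L ∈ 𝓛, ∀ u ∈ L, ∀ v ∈ L, u < 2 * v)
    (hind : ∀ f : Finset ℕ → ℝ, ∃ θ : Finset ℕ → ℝ, ∀ L ∈ 𝓛,
      ∑ T ∈ L.powersetCard (k + 1), θ T = f L) (f : Finset ℕ → ℝ) :
    ∃ (γ : ℝ) (z : 𝓛 → ℤ), Tendsto (fun L : 𝓛 => γ * (hgt B L.1 : ℝ) ^ (k + 1) - f L.1 - z L)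
      cofinite (𝓝 0) := by
  obtain ⟨γ, hγ⟩ := phase_sum hB 𝓛 hind f
  obtain ⟨w, hw1, hw2, hw3⟩ := tendsto_min hne h2
  choose z hz using fun L : 𝓛 => hγ L.1 L.2 (w L) (hw1 L)
  refine ⟨γ, z, ?_⟩
  refine squeeze_zero_norm (fun L => ?_) (bound_tendsto B (k + 1) (by omega) 3 w hw3)
  rw [Real.norm_eq_abs]
  refine (hz L).trans ?_
  apply mul_le_mul_of_nonneg_right _ (by positivity)
  apply pow_le_pow_left₀ (Nat.cast_nonneg _)
  exact_mod_cast hw2 L

theorem exists_alpha (B : ℕ) (hB : 2 ≤ B) : ∃ α : ℝ, Irrational α ∧ ∀ v : ℕ, ∃ z : ℤ,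
    |α * 2 ^ (B ^ v) - z| ≤ 2 * (1 / 2) ^ (B ^ v) := by
  have hgeo : Summable (fun M : ℕ => ((1 : ℝ) / 2) ^ M) :=
    summable_geometric_of_lt_one (by norm_num) (by norm_num)
  obtain ⟨f, hf⟩ : ∃ f : ℕ → ℝ, ∀ i, f i = ((1 : ℝ) / 2) ^ (B ^ i) := ⟨_, fun _ => rfl⟩
  have hf0 : ∀ i, 0 < f i := fun i => by rw [hf]; positivity
  have hsum : Summable f := by
    apply Summable.of_nonneg_of_le (fun i => (hf0 i).le) (fun i => ?_) hgeo
    rw [hf]
    exact pow_le_pow_of_le_one (by norm_num) (by norm_num) (Nat.lt_pow_self (by omega)).le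
  set α := ∑' i : ℕ, f i with hα
  have key : ∀ v : ℕ, ∃ z : ℤ, 0 < α * 2 ^ (B ^ v) - z ∧
      α * 2 ^ (B ^ v) - z ≤ 2 * (1 / 2) ^ (B ^ v) := by
    intro v
    have e1 : α = ∑ i ∈ Finset.range (v + 1), f i + ∑' i : ℕ, f (i + (v + 1)) :=
      (Summable.sum_add_tsum_nat_add (v + 1) hsum).symm
    have hsumt : Summable (fun i : ℕ => f (i + (v + 1))) :=
      (summable_nat_add_iff (v + 1)).2 hsum
    obtain ⟨Z, hZ⟩ : ∃ Z : ℤ, (∑ i ∈ Finset.range (v + 1), f i) * 2 ^ (B ^ v) = (Z : ℝ) := by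
      refine ⟨∑ i ∈ Finset.range (v + 1), 2 ^ (B ^ v - B ^ i), ?_⟩
      rw [Finset.sum_mul, Int.cast_sum]
      apply Finset.sum_congr rfl
      intro i hi
      rw [Finset.mem_range] at hi
      have h1 : B ^ i ≤ B ^ v := Nat.pow_le_pow_right (by omega) (by omega)
      have h2 : (2 : ℝ) ^ (B ^ v) = 2 ^ (B ^ i) * 2 ^ (B ^ v - B ^ i) := by
        rw [← pow_add, Nat.add_sub_cancel' h1]
      rw [h2, hf, ← mul_assoc, ← mul_pow]
      norm_num
    refine ⟨Z, ?_⟩
    have e3 : α * 2 ^ (B ^ v) - (Z : ℝ) = (∑' i : ℕ, f (i + (v + 1))) * 2 ^ (B ^ v) := by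
      rw [← hZ]
      conv_lhs => rw [e1]
      ring
    rw [e3]
    constructor
    · apply mul_pos _ (by positivity)
      exact hsumt.tsum_pos (fun i => (hf0 _).le) 0 (hf0 _)
    · rw [← tsum_mul_right]
      have h1 : ∀ i : ℕ, f (i + (v + 1)) * 2 ^ (B ^ v) ≤
          (1 / 2) ^ (B ^ v) * (1 / 2) ^ i := by
        intro i
        rw [hf]
        have hBv : 1 ≤ B ^ v := Nat.pow_pos (by omega)
        have h2 : B ^ v + i + B ^ v ≤ B ^ (i + (v + 1)) := by
          have h3 : B ^ (i + (v + 1)) = B ^ (i + 1) * B ^ v := by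
            rw [← pow_add]; congr 1; ring
          have h4 : i + 2 ≤ B ^ (i + 1) := by
            have : i + 1 < B ^ (i + 1) := Nat.lt_pow_self (by omega)
            omega
          rw [h3]
          have h5 : (i + 2) * B ^ v ≤ B ^ (i + 1) * B ^ v := Nat.mul_le_mul_right _ h4
          nlinarith
        have h6 : ((1 : ℝ) / 2) ^ (B ^ (i + (v + 1))) ≤ (1 / 2) ^ (B ^ v + i + B ^ v) :=
          pow_le_pow_of_le_one (by norm_num) (by norm_num) h2
        refine (mul_le_mul_of_nonneg_right h6 (by positivity)).trans (le_of_eq ?_)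
        rw [pow_add, mul_assoc, ← mul_pow, pow_add]
        norm_num
      have h4 : Summable (fun i : ℕ => ((1 : ℝ) / 2) ^ (B ^ v) * (1 / 2) ^ i) := hgeo.mul_left _
      refine (Summable.tsum_le_tsum h1 (hsumt.mul_right _) h4).trans ?_
      rw [tsum_mul_left, tsum_geometric_two]
      linarith
  refine ⟨α, ?_, ?_⟩
  · rintro ⟨q, hq⟩
    have hd : (0 : ℝ) < q.den := by exact_mod_cast q.den_pos
    have hqd : (q.den : ℝ) * α = q.num := by
      rw [← hq]
      exact_mod_cast Rat.den_mul_eq_num q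
    have ht : Tendsto (fun v : ℕ => (q.den : ℝ) * (2 * (1 / 2) ^ v)) atTop (𝓝 0) := by
      have : Tendsto (fun v : ℕ => ((1 : ℝ) / 2) ^ v) atTop (𝓝 0) :=
        tendsto_pow_atTop_nhds_zero_of_lt_one (by norm_num) (by norm_num)
      have := (this.const_mul 2).const_mul (q.den : ℝ)
      simpa using this
    obtain ⟨v, hv⟩ := (ht.eventually (gt_mem_nhds one_pos)).exists
    obtain ⟨z, hz1, hz2⟩ := key v
    have h1 : ((1 : ℝ) / 2) ^ (B ^ v) ≤ (1 / 2) ^ v :=
      pow_le_pow_of_le_one (by norm_num) (by norm_num) (Nat.lt_pow_self (by omega)).le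
    have h2 : (q.den : ℝ) * (α * 2 ^ (B ^ v) - z) = ((q.num * 2 ^ (B ^ v) - q.den * z : ℤ) : ℝ) := by
      push_cast
      rw [← hqd]
      ring
    have h3 : 0 < (q.den : ℝ) * (α * 2 ^ (B ^ v) - z) := mul_pos hd hz1
    have h4 : (q.den : ℝ) * (α * 2 ^ (B ^ v) - z) < 1 := by
      refine lt_of_le_of_lt (mul_le_mul_of_nonneg_left (hz2.trans ?_) hd.le) hv
      linarith
    rw [h2] at h3 h4
    have h5 : (0 : ℤ) < q.num * 2 ^ (B ^ v) - q.den * z := by exact_mod_cast h3
    have h6 : q.num * 2 ^ (B ^ v) - q.den * z < (1 : ℤ) := by exact_mod_cast h4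
    omega
  · intro v
    obtain ⟨z, hz1, hz2⟩ := key v
    exact ⟨z, by rw [abs_of_pos hz1]; exact hz2⟩

theorem alpha_family {B : ℕ} (hB : 2 ≤ B) (𝓛 : Set (Finset ℕ))
    (hne : ∀ L ∈ 𝓛, L.Nonempty) (h2 : ∀ L ∈ 𝓛, ∀ u ∈ L, ∀ v ∈ L, u < 2 * v) :
    ∃ α : ℝ, Irrational α ∧ ∃ z : 𝓛 → ℤ, Tendsto (fun L : 𝓛 => α * (hgt B L.1 : ℝ) - z L)
      cofinite (𝓝 0) := by
  obtain ⟨α, hα, hα'⟩ := exists_alpha B hB
  obtain ⟨w, hw1, hw2, hw3⟩ := tendsto_min hne h2
  choose z hz using hα'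
  refine ⟨α, hα, fun L => ∑ v ∈ L.1, z v, ?_⟩
  refine squeeze_zero_norm (fun L => ?_) (bound_tendsto B 1 hB 2 w hw3)
  rw [Real.norm_eq_abs]
  have h1 : α * (hgt B L.1 : ℝ) - ((∑ v ∈ L.1, z v : ℤ) : ℝ) =
      ∑ v ∈ L.1, (α * 2 ^ (B ^ v) - z v) := by
    rw [hgt, Finset.sum_sub_distrib, ← Finset.mul_sum]
    push_cast
    rfl
  rw [h1]
  refine (Finset.abs_sum_le_sum_abs _ _).trans ?_
  have h3 : ∀ v ∈ L.1, |α * 2 ^ (B ^ v) - z v| ≤ 2 * (1 / 2) ^ (B ^ (w L)) := by
    intro v hv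
    refine (hz v).trans ?_
    have : B ^ (w L) ≤ B ^ v := Nat.pow_le_pow_right (by omega) (hw1 L v hv)
    have : ((1 : ℝ) / 2) ^ (B ^ v) ≤ (1 / 2) ^ (B ^ (w L)) :=
      pow_le_pow_of_le_one (by norm_num) (by norm_num) this
    linarith
  refine (Finset.sum_le_card_nsmul _ _ _ h3).trans ?_
  rw [nsmul_eq_mul, pow_one]
  apply mul_le_mul_of_nonneg_right _ (by positivity)
  exact_mod_cast hw2 L

/-- Distinct finite sets have distinct sums. -/
theorem hgt_injective {B : ℕ} (hB : 2 ≤ B) : Function.Injective (hgt B) := by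
  classical
  intro L L' h
  have key : ∀ L : Finset ℕ, hgt B L = ∑ i ∈ L.image (fun v => B ^ v), 2 ^ i := by
    intro L
    rw [hgt, Finset.sum_image]
    intro x _ y _ hxy
    exact Nat.pow_right_injective hB hxy
  rw [key, key] at h
  have h1 : L.image (fun v => B ^ v) = L'.image (fun v => B ^ v) := by
    have h3 := congrArg (fun n : ℕ => n.bitIndices.toFinset) h
    simpa only [Finset.toFinset_bitIndices_sum_two_pow] using h3
  exact Finset.image_injective (Nat.pow_right_injective hB) h1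

end Pool.Agent.Lib.MP_090f02_an
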