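import Mathlib
import Pool.Agent.Lib.MP_090f02_an.Nil
import Pool.Agent.Lib.MP_090f02_an.Phases

set_option autoImplicit false

/-! Interpolation along the orbit of a nilsystem. -/

namespace Pool.Agent.Lib.MP_090f02_an

open Filter Topology

theorem correction {K : Type*} [TopologicalSpace K] {J : Type*} (y : J → K) (w : C(K, ℂ))
    (Ξ : C(K, ℂ × ℂ)) (f : J → ℂ) (ξ : ℂ × ℂ)
    (h1 : Tendsto (fun j => f j - w (y j)) cofinite (𝓝 0))
    (h2 : Tendsto (fun j => Ξ (y j)) cofinite (𝓝 ξ))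
    (h3 : Function.Injective (fun j => Ξ (y j))) (h4 : ∀ j, Ξ (y j) ≠ ξ) :
    ∃ F : C(K, ℂ), ∀ j, F (y j) = f j := by
  let _ : TopologicalSpace J := ⊥
  have : DiscreteTopology J := ⟨rfl⟩
  let e : C(OnePoint J, ℂ × ℂ) := OnePoint.continuousMapMkDiscrete (fun j => Ξ (y j)) ξ h2
  let c : C(OnePoint J, ℂ) := OnePoint.continuousMapMkDiscrete (fun j => f j - w (y j)) 0 h1
  have hinj : Function.Injective e := by
    intro a b
    induction a using OnePoint.rec with
    | infty =>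
      induction b using OnePoint.rec with
      | infty => exact fun _ => rfl
      | coe b => exact fun h => absurd h.symm (h4 b)
    | coe a =>
      induction b using OnePoint.rec with
      | infty => exact fun h => absurd h (h4 a)
      | coe b => exact fun h => congrArg _ (h3 h)
  have he : IsClosedEmbedding e := e.continuous.isClosedEmbedding hinj
  obtain ⟨g, hg⟩ := ContinuousMap.exists_extension he c
  refine ⟨w + g.comp Ξ, fun j => ?_⟩
  have h5 : g (Ξ (y j)) = f j - w (y j) := DFunLike.congr_fun hg (j : OnePoint J)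
  rw [ContinuousMap.add_apply, ContinuousMap.comp_apply, h5]
  ring

theorem tendsto_option {𝓛 : Type*} {Y : Type*} [TopologicalSpace Y] {u : Option 𝓛 → Y} {x : Y}
    (h : Tendsto (fun L : 𝓛 => u (some L)) cofinite (𝓝 x)) : Tendsto u cofinite (𝓝 x) := by
  intro U hU
  rw [Filter.mem_map, Filter.mem_cofinite]
  have h1 := h hU
  rw [Filter.mem_map, Filter.mem_cofinite] at h1
  refine ((h1.image some).union (Set.finite_singleton none)).subset ?_
  intro j hj
  cases j with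
  | none => exact Or.inr rfl
  | some L => exact Or.inl ⟨L, hj, rfl⟩

/-- The character `x ↦ exp (2 π i x)`. -/
noncomputable def eC (x : ℝ) : ℂ := Complex.exp ((2 * Real.pi * x : ℝ) * Complex.I)

theorem eC_continuous : Continuous eC := by
  unfold eC
  fun_prop

theorem eC_add (x y : ℝ) : eC (x + y) = eC x * eC y := by
  rw [eC, eC, eC, ← Complex.exp_add]
  congr 1
  push_cast
  ring

theorem eC_int (z : ℤ) : eC z = 1 := by
  rw [eC, Complex.exp_eq_one_iff]
  refine ⟨z, ?_⟩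
  push_cast
  ring

theorem eC_zero : eC 0 = 1 := by
  have := eC_int 0
  simpa using this

theorem eC_norm (x : ℝ) : ‖eC x‖ = 1 := by
  rw [eC, Complex.norm_exp_ofReal_mul_I]

theorem eC_im (x : ℝ) : (eC x).im = Real.sin (2 * Real.pi * x) := by
  rw [eC, Complex.exp_ofReal_mul_I_im]

theorem eC_eq {x y : ℝ} (h : eC x = eC y) : ∃ z : ℤ, x = y + z := by
  rw [eC, eC, Complex.exp_eq_exp_iff_exists_int] at h
  obtain ⟨z, hz⟩ := h
  refine ⟨z, ?_⟩
  have h1 : ((2 * Real.pi * x : ℝ) : ℂ) * Complex.I =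
      ((2 * Real.pi * (y + z) : ℝ) : ℂ) * Complex.I := by
    rw [hz]
    push_cast
    ring
  have h2 := mul_right_cancel₀ Complex.I_ne_zero h1
  have h3 : 2 * Real.pi * x = 2 * Real.pi * (y + z) := by exact_mod_cast h2
  have hpi : (2 * Real.pi) ≠ 0 := by positivity
  exact mul_left_cancel₀ hpi h3

theorem eC_half : eC (1 / 2) = -1 := by
  rw [eC]
  have : (2 * Real.pi * (1 / 2) : ℝ) = Real.pi := by ring
  rw [this, Complex.exp_pi_mul_I]

theorem eC_tendsto {ι : Type*} {l : Filter ι} {x y : ι → ℝ} {z : ι → ℤ}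
    (h : Tendsto (fun i => x i - y i - z i) l (𝓝 0)) :
    Tendsto (fun i => eC (x i) - eC (y i)) l (𝓝 0) := by
  have h1 : Tendsto (fun i => eC (x i - y i - z i) - 1) l (𝓝 0) := by
    have := (eC_continuous.tendsto 0).comp h
    rw [eC_zero] at this
    have := this.sub_const 1
    rw [sub_self] at this
    exact this
  rw [tendsto_zero_iff_norm_tendsto_zero] at h1 ⊢
  refine h1.congr (fun i => ?_)
  have h2 : eC (x i) = eC (y i) * eC (x i - y i - z i) := by
    have h3 : x i = y i + (x i - y i - z i) + z i := by ring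
    conv_lhs => rw [h3]
    rw [eC_add, eC_add, eC_int, mul_one]
  have h4 : eC (x i) - eC (y i) = eC (y i) * (eC (x i - y i - z i) - 1) := by
    rw [h2]; ring
  rw [h4, norm_mul, eC_norm, one_mul]

section torus

variable {d : ℕ}

/-- Integer vectors. -/
def Lam (d : ℕ) : AddSubgroup (Fin 4 → Fin d → ℝ) where
  carrier := {a | ∀ l i, a l i ∈ NG.ZR}
  add_mem' := fun ha hb l i => NG.ZR.add_mem (ha l i) (hb l i)
  zero_mem' := fun _ _ => NG.ZR.zero_mem
  neg_mem' := fun ha l i => NG.ZR.neg_mem (ha l i)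

theorem mem_Lam {a : Fin 4 → Fin d → ℝ} : a ∈ Lam d ↔ ∀ l i, a l i ∈ NG.ZR := Iff.rfl

/-- The torus. -/
abbrev TT (d : ℕ) : Type := (Fin 4 → Fin d → ℝ) ⧸ Lam d

instance : CompactSpace (TT d) := by
  have hKc : IsCompact (Set.pi Set.univ (fun _ => Set.pi Set.univ (fun _ => Set.Icc (0 : ℝ) 1)) :
      Set (Fin 4 → Fin d → ℝ)) :=
    isCompact_univ_pi fun _ => isCompact_univ_pi fun _ => isCompact_Icc
  have hKc' := IsCompact.image hKc (QuotientAddGroup.continuous_mk (N := Lam d))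
  have huniv : (QuotientAddGroup.mk : (Fin 4 → Fin d → ℝ) → TT d) ''
      (Set.pi Set.univ (fun _ => Set.pi Set.univ (fun _ => Set.Icc (0 : ℝ) 1))) = Set.univ := by
    rw [Set.eq_univ_iff_forall]
    intro y
    obtain ⟨a, rfl⟩ := QuotientAddGroup.mk_surjective y
    refine ⟨fun l i => Int.fract (a l i), fun l _ i _ => ⟨Int.fract_nonneg _,
      (Int.fract_lt_one _).le⟩, ?_⟩
    rw [QuotientAddGroup.eq]
    intro l i
    refine ⟨⌊a l i⌋, ?_⟩
    have := Int.fract_add_floor (a l i)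
    simp only [Pi.add_apply, Pi.neg_apply]
    change ((⌊a l i⌋ : ℤ) : ℝ) = _
    linarith
  exact ⟨by rw [← huniv]; exact hKc'⟩

theorem jmap_aux (a b : Fin 4 → Fin d → ℝ) (h : -a + b ∈ Lam d) :
    ((NG.mk 0 a : NG d) : NG d ⧸ NG.lat d) = ((NG.mk 0 b : NG d) : NG d ⧸ NG.lat d) := by
  rw [QuotientGroup.eq]
  have h1 : (NG.mk 0 a : NG d)⁻¹ * NG.mk 0 b = NG.mk 0 (-a + b) := by
    refine Prod.ext ?_ ?_
    · change -(0 : ℝ) + 0 = 0
      ring
    · change -tau4 (-(0 : ℝ)) a + tau4 (-(0 : ℝ)) b = -a + b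
      rw [neg_zero, tau4_zero, tau4_zero]
  rw [h1]
  exact NG.mem_lat.2 ⟨NG.ZR.zero_mem, h⟩

theorem jmap_aux' (a b : Fin 4 → Fin d → ℝ)
    (h : ((NG.mk 0 a : NG d) : NG d ⧸ NG.lat d) = ((NG.mk 0 b : NG d) : NG d ⧸ NG.lat d)) :
    -a + b ∈ Lam d := by
  rw [QuotientGroup.eq] at h
  have h1 : (NG.mk 0 a : NG d)⁻¹ * NG.mk 0 b = NG.mk 0 (-a + b) := by
    refine Prod.ext ?_ ?_
    · change -(0 : ℝ) + 0 = 0
      ring
    · change -tau4 (-(0 : ℝ)) a + tau4 (-(0 : ℝ)) b = -a + b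
      rw [neg_zero, tau4_zero, tau4_zero]
  rw [h1] at h
  exact (NG.mem_lat.1 h).2

/-- The embedding of the torus in the nilmanifold. -/
noncomputable def jmap (d : ℕ) : TT d → NG d ⧸ NG.lat d :=
  Quotient.lift (fun a : Fin 4 → Fin d → ℝ => ((NG.mk 0 a : NG d) : NG d ⧸ NG.lat d))
    (fun a b h => jmap_aux a b (QuotientAddGroup.leftRel_apply.1 h))

theorem jmap_mk (a : Fin 4 → Fin d → ℝ) :
    jmap d (a : TT d) = ((NG.mk 0 a : NG d) : NG d ⧸ NG.lat d) := rfl

theorem jmap_continuous : Continuous (jmap d) := by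
  apply Continuous.quotient_lift
  apply QuotientGroup.continuous_mk.comp
  exact NG.mk_continuous.comp (continuous_const.prodMk continuous_id)

theorem jmap_injective : Function.Injective (jmap d) := by
  intro x y h
  obtain ⟨a, rfl⟩ := QuotientAddGroup.mk_surjective x
  obtain ⟨b, rfl⟩ := QuotientAddGroup.mk_surjective y
  rw [QuotientAddGroup.eq]
  exact jmap_aux' a b h

instance : IsClosed (NG.lat d : Set (NG d)) := Subgroup.isClosed_of_discrete

instance : T2Space (NG d ⧸ NG.lat d) := QuotientGroup.instT2Space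

theorem jmap_closedEmbedding : IsClosedEmbedding (jmap d) :=
  jmap_continuous.isClosedEmbedding jmap_injective

theorem evp_add (a b : Fin d → ℝ) (x : ℝ) : evp (a + b) x = evp a x + evp b x := by
  simp only [evp, Pi.add_apply, add_mul, Finset.sum_add_distrib]

theorem evp_int {a : Fin d → ℝ} (ha : ∀ i, a i ∈ NG.ZR) {x : ℝ} (hx : x ∈ NG.ZR) :
    evp a x ∈ NG.ZR :=
  Subring.sum_mem _ fun i _ => NG.ZR.mul_mem (ha i) (NG.ZR.pow_mem hx _)

/-- The characters of the torus used below. -/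
noncomputable def psi (l : Fin 4) : C(TT d, ℂ) where
  toFun := Quotient.lift (fun a : Fin 4 → Fin d → ℝ => eC (evp (a l) 0)) (by
    intro a b h
    have h1 : -a + b ∈ Lam d := QuotientAddGroup.leftRel_apply.1 h
    obtain ⟨z, hz⟩ := evp_int (h1 l) NG.ZR.zero_mem
    have h2 : b l = a l + (-a + b) l := by
      simp
    change eC (evp (a l) 0) = eC (evp (b l) 0)
    rw [h2, evp_add, ← hz, eC_add]
    change _ = _ * eC ((z : ℤ) : ℝ)
    rw [eC_int, mul_one])
  continuous_toFun := by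
    apply Continuous.quotient_lift
    apply eC_continuous.comp
    unfold evp
    fun_prop

theorem psi_mk (l : Fin 4) (a : Fin 4 → Fin d → ℝ) : psi l (a : TT d) = eC (evp (a l) 0) := rfl

theorem orbit_fst (p : Fin 4 → Fin d → ℝ) (h : ℕ) : ((NG.mk 1 p) ^ h).1 = h := by
  induction h with
  | zero =>
    rw [pow_zero]
    simp [NG.one_def]
  | succ h ih =>
    rw [pow_succ, NG.mul_def]
    simp only [ih, NG.mk_fst]
    push_cast
    rfl

theorem orbit_snd (p : Fin 4 → Fin d → ℝ) (h : ℕ) (l : Fin 4) :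
    evp (((NG.mk 1 p) ^ h).2 l) 0 = ∑ i ∈ Finset.range h, evp (p l) i := by
  induction h with
  | zero =>
    rw [pow_zero, Finset.range_zero, Finset.sum_empty, NG.one_def]
    simp [evp]
  | succ h ih =>
    rw [pow_succ, NG.mul_def, Finset.sum_range_succ, ← ih]
    simp only [NG.mk_snd, Pi.add_apply, tau4, orbit_fst]
    rw [evp_add, evp_tau, zero_add]

theorem orbit_jmap (p : Fin 4 → Fin d → ℝ) (h : ℕ) :
    (((NG.mk 1 p) ^ h : NG d) : NG d ⧸ NG.lat d) = jmap d (((NG.mk 1 p) ^ h).2 : TT d) := by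
  rw [jmap_mk]
  have h1 : ((NG.mk 1 p) ^ h : NG d) = NG.mk 0 ((NG.mk 1 p) ^ h).2 * NG.mk (h : ℝ) 0 := by
    refine Prod.ext ?_ ?_
    · rw [orbit_fst, NG.mul_def]
      simp [NG.mk_fst]
    · rw [NG.mul_def]
      simp [NG.mk_fst, NG.mk_snd, tau4_zero']
  have h2 : NG.mk (h : ℝ) (0 : Fin 4 → Fin d → ℝ) ∈ NG.lat d :=
    NG.mem_lat.2 ⟨natCast_mem NG.ZR h, fun _ _ => NG.ZR.zero_mem⟩
  have h3 := QuotientGroup.mk_mul_of_mem (NG.mk 0 ((NG.mk 1 p) ^ h).2) h2
  rw [← h1] at h3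
  exact h3

end torus

/-- Coefficients of `γ * ((x + 1) ^ (k + 1) - x ^ (k + 1))`. -/
noncomputable def pk (k : ℕ) (γ : ℝ) : Fin (k + 1) → ℝ := fun j => γ * ((k + 1).choose (j : ℕ) : ℝ)

theorem evp_pk (k : ℕ) (γ x : ℝ) : evp (pk k γ) x = γ * ((x + 1) ^ (k + 1) - x ^ (k + 1)) := by
  rw [add_pow, Finset.sum_range_succ]
  simp only [evp, pk, one_pow, mul_one, Nat.choose_self, Nat.cast_one, add_sub_cancel_right]
  rw [Finset.sum_range (n := k + 1), Finset.mul_sum]
  apply Finset.sum_congr rfl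
  intro i _
  ring

theorem sum_pk (k : ℕ) (γ : ℝ) (h : ℕ) :
    ∑ i ∈ Finset.range h, evp (pk k γ) (i : ℝ) = γ * (h : ℝ) ^ (k + 1) := by
  induction h with
  | zero => simp
  | succ h ih =>
    rw [Finset.sum_range_succ, ih, evp_pk]
    push_cast
    ring

/-- Coefficients of a constant polynomial. -/
noncomputable def pc (k : ℕ) (α : ℝ) : Fin (k + 1) → ℝ := fun j => if j = 0 then α else 0

theorem evp_pc (k : ℕ) (α x : ℝ) : evp (pc k α) x = α := by
  rw [evp, Finset.sum_eq_single 0]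
  · simp [pc]
  · intro j _ hj
    simp [pc, hj]
  · intro h
    exact absurd (Finset.mem_univ _) h

theorem sum_pc (k : ℕ) (α : ℝ) (h : ℕ) :
    ∑ i ∈ Finset.range h, evp (pc k α) (i : ℝ) = α * (h : ℝ) := by
  simp only [evp_pc, Finset.sum_const, Finset.card_range, nsmul_eq_mul]
  ring

theorem interp {k B : ℕ} (hB : k + 3 ≤ B) (𝓛 : Set (Finset ℕ))
    (hne : ∀ L ∈ 𝓛, L.Nonempty) (h2 : ∀ L ∈ 𝓛, ∀ u ∈ L, ∀ v ∈ L, u < 2 * v)
    (hind : ∀ f : Finset ℕ → ℝ, ∃ θ : Finset ℕ → ℝ, ∀ L ∈ 𝓛,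
      ∑ T ∈ L.powersetCard (k + 1), θ T = f L)
    (f : Option 𝓛 → ℂ) (C : ℝ) (hC0 : 0 < C) (hC : ∀ j, ‖f j‖ ≤ C) :
    ∃ (p : Fin 4 → Fin (k + 1) → ℝ) (F : C(NG (k + 1) ⧸ NG.lat (k + 1), ℂ)),
      F ((1 : NG (k + 1)) : NG (k + 1) ⧸ NG.lat (k + 1)) = f none ∧
      ∀ L : 𝓛, F (((NG.mk 1 p) ^ (hgt B L.1) : NG (k + 1)) : NG (k + 1) ⧸ NG.lat (k + 1)) =
        f (some L) := by
  classical
  -- the targets
  set φ : (ℂ → ℝ) → Finset ℕ → ℝ := fun c L =>
    if h : L ∈ 𝓛 then Real.arcsin (c (f (some ⟨L, h⟩)) / (2 * C)) / (2 * Real.pi) else 0 with hφ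
  have hφim : ∀ (c : ℂ → ℝ), (∀ z, |c z| ≤ ‖z‖) → ∀ L : 𝓛,
      2 * C * (eC (φ c L.1)).im = c (f (some L)) := by
    intro c hc L
    have h1 : φ c L.1 = Real.arcsin (c (f (some L)) / (2 * C)) / (2 * Real.pi) := by
      rw [hφ]
      simp only
      rw [dif_pos L.2]
    rw [eC_im, h1, mul_div_cancel₀ _ (by positivity)]
    have h3 : |c (f (some L)) / (2 * C)| ≤ 1 := by
      rw [abs_div, abs_of_pos (by positivity : 0 < 2 * C), div_le_one (by positivity)]
      have := (hc (f (some L))).trans (hC _)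
      linarith
    rw [abs_le] at h3
    rw [Real.sin_arcsin h3.1 h3.2]
    field_simp
  obtain ⟨γ0, z0, h0⟩ := phase_family hB 𝓛 hne h2 hind (φ Complex.re)
  obtain ⟨γ1, z1, h1⟩ := phase_family hB 𝓛 hne h2 hind (φ Complex.im)
  obtain ⟨γ2, z2, h22⟩ := phase_family hB 𝓛 hne h2 hind (fun _ => 1 / 2)
  obtain ⟨α, hα, z3, h3⟩ := alpha_family (by omega : 2 ≤ B) 𝓛 hne h2
  set p : Fin 4 → Fin (k + 1) → ℝ := ![pk k γ0, pk k γ1, pk k γ2, pc k α] with hp
  set hh : Option 𝓛 → ℕ := fun j => j.elim 0 (fun L => hgt B L.1) with hhh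
  set y : Option 𝓛 → TT (k + 1) := fun j => (((NG.mk 1 p) ^ (hh j)).2 : TT (k + 1)) with hy
  have hy0 : ∀ j, psi 0 (y j) = eC (γ0 * (hh j : ℝ) ^ (k + 1)) := by
    intro j
    rw [hy, psi_mk, orbit_snd, hp]
    simp only [Matrix.cons_val_zero]
    rw [sum_pk]
  have hy1 : ∀ j, psi 1 (y j) = eC (γ1 * (hh j : ℝ) ^ (k + 1)) := by
    intro j
    rw [hy, psi_mk, orbit_snd, hp]
    simp only [Matrix.cons_val_one, Matrix.cons_val_zero]
    rw [sum_pk]
  have hy2 : ∀ j, psi 2 (y j) = eC (γ2 * (hh j : ℝ) ^ (k + 1)) := by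
    intro j
    rw [hy, psi_mk, orbit_snd, hp]
    simp only [Matrix.cons_val]
    rw [sum_pk]
  have hy3 : ∀ j, psi 3 (y j) = eC (α * (hh j : ℝ)) := by
    intro j
    rw [hy, psi_mk, orbit_snd, hp]
    simp only [Matrix.cons_val]
    rw [sum_pc]
  -- the approximate interpolation
  let w : C(TT (k + 1), ℂ) :=
    ⟨fun x => 2 * C * (((psi 0 x).im : ℂ) + ((psi 1 x).im : ℂ) * Complex.I), by
      have c0 := (psi (d := k + 1) 0).continuous
      have c1 := (psi (d := k + 1) 1).continuous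
      fun_prop⟩
  have hw : ∀ x, w x = 2 * C * (((psi 0 x).im : ℂ) + ((psi 1 x).im : ℂ) * Complex.I) :=
    fun _ => rfl
  have happ : ∀ (γ : ℝ) (z : 𝓛 → ℤ) (g : Finset ℕ → ℝ),
      Tendsto (fun L : 𝓛 => γ * (hgt B L.1 : ℝ) ^ (k + 1) - g L.1 - z L) cofinite (𝓝 0) →
      Tendsto (fun L : 𝓛 => ((eC (g L.1)).im : ℂ) -
        ((eC (γ * (hgt B L.1 : ℝ) ^ (k + 1))).im : ℂ)) cofinite (𝓝 0) := by
    intro γ z g h
    have e1 := eC_tendsto h
    have e2 : Tendsto (fun c : ℂ => -((c.im : ℝ) : ℂ)) (𝓝 0) (𝓝 (-(((0 : ℂ).im : ℝ) : ℂ))) :=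
      (by fun_prop : Continuous (fun c : ℂ => -((c.im : ℝ) : ℂ))).tendsto 0
    have e3 := e2.comp e1
    simp only [Complex.zero_im, Complex.ofReal_zero, neg_zero] at e3
    refine e3.congr (fun L => ?_)
    simp only [Function.comp_apply, Complex.sub_im]
    push_cast
    ring
  have hwapp : Tendsto (fun j => f j - w (y j)) cofinite (𝓝 0) := by
    apply tendsto_option
    have e0 := happ γ0 z0 _ h0
    have e1 := happ γ1 z1 _ h1
    have e2 := (e0.add (e1.mul_const Complex.I)).const_mul ((2 * C : ℝ) : ℂ)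
    rw [zero_mul, add_zero, mul_zero] at e2
    refine e2.congr (fun L => ?_)
    have a0 := hφim Complex.re Complex.abs_re_le_norm L
    have a1 := hφim Complex.im Complex.abs_im_le_norm L
    have a2 : f (some L) = ((f (some L)).re : ℂ) + ((f (some L)).im : ℂ) * Complex.I :=
      (Complex.re_add_im _).symm
    rw [hw, hy0, hy1, a2, ← a0, ← a1]
    have a3 : hh (some L) = hgt B L.1 := rfl
    rw [a3]
    push_cast
    ring
  let Ξ : C(TT (k + 1), ℂ × ℂ) := (psi 2).prodMk (psi 3)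
  have hΞ : ∀ x, Ξ x = (psi 2 x, psi 3 x) := fun _ => rfl
  have hΞlim : Tendsto (fun j => Ξ (y j)) cofinite (𝓝 ((-1 : ℂ), (1 : ℂ))) := by
    apply tendsto_option
    have e2 := eC_tendsto h22
    have e3 : Tendsto (fun L : 𝓛 => eC (α * (hgt B L.1 : ℝ)) - eC ((fun _ : 𝓛 => (0 : ℝ)) L))
        cofinite (𝓝 0) := by
      apply eC_tendsto (z := z3)
      simpa using h3
    have e4 := e2.add_const (eC (1 / 2))
    have e5 := e3.add_const (eC 0)
    simp only [sub_add_cancel, zero_add] at e4 e5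
    rw [eC_half] at e4
    rw [eC_zero] at e5
    refine (e4.prodMk_nhds e5).congr (fun L => ?_)
    rw [hΞ, hy2, hy3]
    rfl
  have hinj : ∀ n m : ℕ, eC (α * n) = eC (α * m) → n = m := by
    intro n m h
    obtain ⟨z, hz⟩ := eC_eq h
    by_contra hnm
    have hnm' : ((n : ℤ) - (m : ℤ)) ≠ 0 := by
      intro h'
      exact hnm (by omega)
    have h4 : Irrational (α * ((n : ℤ) - (m : ℤ) : ℤ)) := hα.mul_intCast hnm'
    apply h4
    refine ⟨z, ?_⟩
    push_cast
    linarith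
  have hh0 : ∀ L : 𝓛, 0 < hgt B L.1 := by
    intro L
    rw [hgt]
    exact Finset.sum_pos (fun v _ => Nat.pow_pos (by norm_num)) (hne L.1 L.2)
  have hhinj : Function.Injective hh := by
    intro a b hab
    cases a with
    | none =>
      cases b with
      | none => rfl
      | some b =>
        have : 0 = hgt B b.1 := hab
        have := hh0 b
        omega
    | some a =>
      cases b with
      | none =>
        have : hgt B a.1 = 0 := hab
        have := hh0 a
        omega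
      | some b =>
        have h5 : hgt B a.1 = hgt B b.1 := hab
        exact congrArg some (Subtype.ext (hgt_injective (by omega) h5))
  obtain ⟨F0, hF0⟩ := correction y w Ξ f ((-1 : ℂ), (1 : ℂ)) hwapp hΞlim
    (by
      intro a b hab
      simp only [hΞ, Prod.mk.injEq] at hab
      rw [hy3, hy3] at hab
      exact hhinj (hinj _ _ hab.2))
    (by
      intro j hj
      rw [hΞ, Prod.mk.injEq, hy2, hy3] at hj
      have h6 : hh j = 0 := by
        apply hinj
        rw [hj.2]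
        simp [eC_zero]
      rw [h6] at hj
      have h7 := hj.1
      simp only [Nat.cast_zero, ne_eq, Nat.add_eq_zero_iff, one_ne_zero, and_false,
        not_false_eq_true, zero_pow, mul_zero, eC_zero] at h7
      norm_num at h7)
  obtain ⟨F, hF⟩ := ContinuousMap.exists_extension (jmap_closedEmbedding (d := k + 1)) F0
  have hF' : ∀ x, F (jmap (k + 1) x) = F0 x := fun x => DFunLike.congr_fun hF x
  refine ⟨p, F, ?_, fun L => ?_⟩
  · have h8 := orbit_jmap p 0
    rw [pow_zero] at h8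
    rw [h8, hF']
    exact hF0 none
  · rw [orbit_jmap, hF']
    exact hF0 (some L)

end Pool.Agent.Lib.MP_090f02_an
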