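import Mathlib
import Pool.Agent.Lib.MP_090f02_an.Core

set_option autoImplicit false

/-! Pointwise recurrence in all homogeneous spaces of locally compact nilpotent groups by discrete
cocompact subgroups. -/

namespace Pool.Agent.Lib.MP_090f02_an

open Filter Topology Pointwise

theorem nil_rec {G : Type*} [Group G] [TopologicalSpace G] [IsTopologicalGroup G]
    [T2Space G] [LocallyCompactSpace G] {k : ℕ}
    (hk : (⊤ : Subgroup G).lowerCentralSeries k = ⊥) (Γ : Subgroup G)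
    [DiscreteTopology Γ] [CompactSpace (G ⧸ Γ)]
    (𝓛 : Set (Finset ℕ)) (h𝓛 : CombProp k 𝓛) (e : ℕ → ℕ) (g : G)
    (x : G ⧸ Γ) (V : Set (G ⧸ Γ)) (hV : V ∈ 𝓝 x) :
    ∃ L ∈ 𝓛, g ^ (∑ v ∈ L, e v) • x ∈ V := by
  classical
  obtain ⟨a, rfl⟩ := QuotientGroup.mk_surjective x
  obtain ⟨K0, hK0c, hK0⟩ := exists_compact_mem_nhds (1 : G)
  have h1K0 : (1 : G) ∈ K0 := mem_of_mem_nhds hK0
  set Q0 : Set G := (K0 ∪ {g}) ∪ (K0 ∪ {g})⁻¹ with hQ0
  have hQ0c : IsCompact Q0 :=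
    (hK0c.union isCompact_singleton).union (hK0c.union isCompact_singleton).inv
  have hQ0inv : Q0⁻¹ = Q0 := by
    rw [hQ0, Set.union_inv, inv_inv, Set.union_comm]
  have hK0Q0 : K0 ⊆ Q0 := fun x hx => Or.inl (Or.inl hx)
  have h1Q0 : (1 : G) ∈ Q0 := hK0Q0 h1K0
  have hgQ0 : g ∈ Q0 := Or.inl (Or.inr rfl)
  set G' : Subgroup G := Subgroup.closure Q0 with hG'
  have hQ0G' : Q0 ⊆ G' := Subgroup.subset_closure
  have hpow : ∀ n, Q0 ^ n ⊆ (G' : Set G) := by
    intro n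
    induction n with
    | zero =>
      intro x hx
      rw [pow_zero, Set.mem_one] at hx
      rw [hx]
      exact G'.one_mem
    | succ n ih =>
      rw [pow_succ]
      rintro _ ⟨y, hy, z, hz, rfl⟩
      exact G'.mul_mem (ih hy) (hQ0G' hz)
  have hmemPow : ∀ u ∈ G', ∃ n, u ∈ Q0 ^ n := by
    intro u hu
    induction hu using Subgroup.closure_induction with
    | mem x hx => exact ⟨1, by simpa using hx⟩
    | one => exact ⟨0, by simp⟩
    | mul x y _ _ hx hy =>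
      obtain ⟨n, hn⟩ := hx
      obtain ⟨m, hm⟩ := hy
      refine ⟨n + m, ?_⟩
      rw [pow_add]
      exact Set.mul_mem_mul hn hm
    | inv x _ hx =>
      obtain ⟨n, hn⟩ := hx
      refine ⟨n, ?_⟩
      rw [← Set.mem_inv, ← inv_pow, hQ0inv]
      exact hn
  have hmono : Monotone (fun n => Q0 ^ n) := by
    apply monotone_nat_of_le_succ
    intro n x hx
    rw [pow_succ]
    exact ⟨x, hx, 1, h1Q0, mul_one x⟩
  have hG'o : IsOpen (G' : Set G) :=
    Subgroup.isOpen_of_mem_nhds G' (g := 1) (Filter.mem_of_superset hK0 (hK0Q0.trans hQ0G'))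
  -- the orbit of the base point
  set X' : Set (G ⧸ Γ) := (fun u : G => ((u * a : G) : G ⧸ Γ)) '' (G' : Set G) with hX'
  have hopen : ∀ (v : G) (S : Set G), IsOpen S →
      IsOpen ((fun u : G => ((u * v : G) : G ⧸ Γ)) '' S) := by
    intro v S hS
    have : (fun u : G => ((u * v : G) : G ⧸ Γ)) '' S =
        (QuotientGroup.mk : G → G ⧸ Γ) '' ((fun u => u * v) '' S) := by
      rw [Set.image_image]
    rw [this]
    exact QuotientGroup.isOpenMap_coe _ ((isOpenMap_mul_right v) _ hS)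
  have hX'closed : IsClosed X' := by
    rw [← isOpen_compl_iff, isOpen_iff_forall_mem_open]
    intro y hy
    obtain ⟨v, rfl⟩ := QuotientGroup.mk_surjective y
    refine ⟨(fun u : G => ((u * v : G) : G ⧸ Γ)) '' (G' : Set G), ?_, hopen v _ hG'o,
      ⟨1, G'.one_mem, by simp⟩⟩
    rintro _ ⟨u, hu, rfl⟩ ⟨u', hu', h⟩
    apply hy
    refine ⟨u⁻¹ * u', G'.mul_mem (G'.inv_mem hu) hu', ?_⟩
    simp only at h ⊢
    rw [QuotientGroup.eq] at h ⊢
    have e1 : (u⁻¹ * u' * a)⁻¹ * v = (u' * a)⁻¹ * (u * v) := by group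
    rw [e1]
    exact h
  have hX'c : IsCompact X' := hX'closed.isCompact
  obtain ⟨N, hN⟩ := hX'c.elim_directed_cover
    (fun n => (fun u : G => ((u * a : G) : G ⧸ Γ)) '' (interior (Q0 ^ n)))
    (fun n => hopen a _ isOpen_interior)
    (by
      rintro _ ⟨u, hu, rfl⟩
      obtain ⟨n, hn⟩ := hmemPow u hu
      rw [Set.mem_iUnion]
      refine ⟨n + 1, u, ?_, rfl⟩
      rw [mem_interior_iff_mem_nhds]
      have h1 : (fun z : G => u⁻¹ * z) ⁻¹' K0 ∈ 𝓝 u := by
        have hcont : ContinuousAt (fun z : G => u⁻¹ * z) u := by fun_prop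
        apply hcont
        simpa using hK0
      refine Filter.mem_of_superset h1 (fun z hz => ?_)
      rw [pow_succ]
      exact ⟨u, hn, u⁻¹ * z, hK0Q0 hz, by group⟩)
    (by
      refine Monotone.directed_le (fun n m hnm => ?_)
      exact Set.image_mono (interior_mono (hmono hnm)))
  set M := max N 1 with hM
  have hNM : Q0 ^ N ⊆ Q0 ^ M := hmono (le_max_left _ _)
  have h1M : Q0 ⊆ Q0 ^ M := by
    have := hmono (le_max_right N 1)
    simpa using this
  -- the subgroup as a group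
  have : LocallyCompactSpace G' := hG'o.locallyCompactSpace
  set Γa : Subgroup G' := (Γ.comap (MulAut.conj a⁻¹).toMonoidHom).comap G'.subtype with hΓa
  have memΓa : ∀ u : G', u ∈ Γa ↔ a⁻¹ * (u : G) * a ∈ Γ := by
    intro u
    rw [hΓa, Subgroup.mem_comap, Subgroup.mem_comap]
    simp
  have hΓadisc : DiscreteTopology Γa := by
    have hf : ∀ u : Γa, a⁻¹ * ((u : G') : G) * a ∈ Γ := fun u => (memΓa u).1 u.2
    refine DiscreteTopology.of_continuous_injective (f := fun u : Γa =>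
      (⟨a⁻¹ * ((u : G') : G) * a, hf u⟩ : Γ)) ?_ ?_
    · apply Continuous.subtype_mk
      fun_prop
    · intro u v huv
      simp only [Subtype.mk.injEq, mul_left_inj, mul_right_inj] at huv
      exact Subtype.ext (Subtype.ext huv)
  set Q1 : Set G' := ((↑) : G' → G) ⁻¹' (Q0 ^ M) with hQ1
  have hQ1c : IsCompact Q1 := by
    rw [Topology.IsInducing.subtypeVal.isCompact_iff]
    have himg : (Subtype.val '' Q1 : Set G) = Q0 ^ M := by
      apply Set.Subset.antisymm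
      · rintro _ ⟨u, hu, rfl⟩
        exact hu
      · intro u hu
        exact ⟨⟨u, hpow M hu⟩, hu, rfl⟩
    have hpowc : ∀ n : ℕ, IsCompact (Q0 ^ n) := by
      intro n
      induction n with
      | zero => rw [pow_zero]; exact isCompact_singleton
      | succ n ih => rw [pow_succ]; exact ih.mul hQ0c
    have hfin := hpowc M
    rw [← himg] at hfin
    exact hfin
  have hcov : ∀ u : G', ∃ q ∈ Q1, ∃ γ ∈ Γa, u = q * γ := by
    intro u
    have h1 : ((((u : G) * a : G)) : G ⧸ Γ) ∈ X' := ⟨u, u.2, rfl⟩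
    obtain ⟨q, hq, hqu⟩ := hN h1
    have hqM : q ∈ Q0 ^ M := hNM (interior_subset hq)
    simp only at hqu
    rw [QuotientGroup.eq] at hqu
    refine ⟨⟨q, hpow M hqM⟩, hqM, ⟨q, hpow M hqM⟩⁻¹ * u, ?_, by group⟩
    rw [memΓa]
    simp only [Subgroup.coe_mul, Subgroup.coe_inv]
    have : a⁻¹ * (q⁻¹ * (u : G)) * a = (q * a)⁻¹ * ((u : G) * a) := by group
    rw [this]
    exact hqu
  set Φ : Set G' := (Γa : Set G') ∩ (Q1⁻¹ * Q1 * Q1) with hΦ
  have hΓaclosed : IsClosed (Γa : Set G') := Γa.isClosed_of_discrete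
  have hΦfin : Φ.Finite := by
    have hc : IsCompact Φ := ((hQ1c.inv.mul hQ1c).mul hQ1c).inter_left hΓaclosed
    refine hc.finite ?_
    exact isDiscrete_iff_discreteTopology.2 (DiscreteTopology.of_subset hΓadisc Set.inter_subset_left)
  set Γ' : Subgroup G' := Subgroup.closure Φ with hΓ'
  have hΓ'Γa : Γ' ≤ Γa := by
    rw [hΓ', Subgroup.closure_le]
    exact Set.inter_subset_left
  have hΓ'disc : DiscreteTopology Γ' :=
    DiscreteTopology.of_subset (s := (Γa : Set G')) hΓadisc hΓ'Γa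
  have hΓ'closed : IsClosed (Γ' : Set G') := Γ'.isClosed_of_discrete
  have h1Q1 : (1 : G') ∈ Q1 := h1M h1Q0
  have hstep : ∀ q1 ∈ Q1, ∀ y : G', (∃ q ∈ Q1, ∃ γ ∈ Γ', y = q * γ) →
      ∃ q ∈ Q1, ∃ γ ∈ Γ', q1 * y = q * γ := by
    rintro q1 hq1 y ⟨q2, hq2, γ', hγ', rfl⟩
    obtain ⟨q3, hq3, γ, hγ, h⟩ := hcov (q1 * q2)
    have hγΦ : γ ∈ Φ := by
      refine ⟨hγ, ?_⟩
      have : γ = q3⁻¹ * q1 * q2 := by
        rw [mul_assoc, h]; group
      rw [this]
      exact Set.mul_mem_mul (Set.mul_mem_mul (Set.inv_mem_inv.2 hq3) hq1) hq2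
    refine ⟨q3, hq3, γ * γ', Γ'.mul_mem (Subgroup.subset_closure hγΦ) hγ', ?_⟩
    rw [← mul_assoc, h]
    group
  have hcov' : ∀ u : G', ∃ q ∈ Q1, ∃ γ ∈ Γ', u = q * γ := by
    have : ∀ n : ℕ, ∀ u : G', (u : G) ∈ Q0 ^ n → ∃ q ∈ Q1, ∃ γ ∈ Γ', u = q * γ := by
      intro n
      induction n with
      | zero =>
        intro u hu
        rw [pow_zero, Set.mem_one] at hu
        refine ⟨1, h1Q1, 1, Γ'.one_mem, ?_⟩
        rw [mul_one]
        exact Subtype.ext hu
      | succ n ih =>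
        intro u hu
        rw [pow_succ'] at hu
        obtain ⟨q, hq, y, hy, hqy⟩ := hu
        have hyG' : y ∈ G' := hpow n hy
        have hqG' : q ∈ G' := hQ0G' hq
        have hu' : u = ⟨q, hqG'⟩ * ⟨y, hyG'⟩ := Subtype.ext hqy.symm
        rw [hu']
        exact hstep ⟨q, hqG'⟩ (h1M hq) _ (ih ⟨y, hyG'⟩ hy)
    intro u
    obtain ⟨n, hn⟩ := hmemPow u u.2
    exact this n u hn
  have hk' : (⊤ : Subgroup G').lowerCentralSeries k = ⊥ := by
    rw [← Subgroup.map_subtype_inj, Subgroup.map_bot, Subgroup.top_subtype_lowerCentralSeries,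
      eq_bot_iff, ← hk]
    exact Subgroup.lowerCentralSeries_mono k le_top
  set W : Set G' := {w : G' | (((w : G) * a : G) : G ⧸ Γ) ∈ V} with hW
  have hWn : W ∈ 𝓝 (1 : G') := by
    have hcont : ContinuousAt (fun w : G' => (((w : G) * a : G) : G ⧸ Γ)) 1 := by
      apply Continuous.continuousAt
      exact QuotientGroup.continuous_mk.comp (by fun_prop)
    apply hcont
    simpa using hV
  obtain ⟨L, hL, w, hw, γ, hγ, h⟩ := core_rec hk' Γ' hΓ'closed Φ hΦfin rfl Q1 hQ1c hcov' 𝓛 h𝓛 e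
    ⟨g, hQ0G' hgQ0⟩ W hWn
  refine ⟨L, hL, ?_⟩
  have h2 : g ^ (∑ v ∈ L, e v) = (w : G) * (γ : G) := by
    have := congrArg (fun z : G' => (z : G)) h
    simpa using this
  have h3 : (g ^ (∑ v ∈ L, e v) • ((a : G) : G ⧸ Γ)) = ((((w : G) * a : G)) : G ⧸ Γ) := by
    have h4 : (g ^ (∑ v ∈ L, e v) • ((a : G) : G ⧸ Γ)) =
      ((g ^ (∑ v ∈ L, e v) * a : G) : G ⧸ Γ) := rfl
    rw [h4, h2, QuotientGroup.eq]
    have h5 := (memΓa γ).1 (hΓ'Γa hγ)
    have h6 : ((w : G) * (γ : G) * a)⁻¹ * ((w : G) * a) = (a⁻¹ * (γ : G) * a)⁻¹ := by group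
    rw [h6]
    exact Γ.inv_mem h5
  rw [h3]
  exact hw

end Pool.Agent.Lib.MP_090f02_an
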